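import Pool.Agent.Lib.MP_751085_ag.ZC.T.Glue
import Pool.Agent.Lib.MP_751085_ag.ZC.T.Main
import Pool.Agent.Lib.MP_751085_ag.ZF.C.Defs

/-! Good places in any characteristic: definitions that do not involve Brauer groups. -/

namespace Pool.Agent.ZCy

open scoped Classical Polynomial

/-- a cover that is unramified off `Θ`, with a root `ϖ` of `π` on which the inertia groups above
`π` act faithfully -/
structure TCov {O ι : Type} [CommRing O] (K : Type) [Field K] [Algebra O K] (π : O) (Θ : MP ι O)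
    (E : Type) [Field E] [Algebra (RF ι K) E] (e : ℕ) (ϖ : E) : Prop where
  unr : UnrOff (RF ι K) (toE (MP ι K) E) (Θ.map (algebraMap O K))
  root : ϖ ^ e = gO O K ι E (MvPolynomial.C π)
  unit : IsUnit (e : O)
  faith : ∀ w : Vl E, Cen (gO O K ι E) w (MvPolynomial.C π) → ∀ g ∈ Ine (RF ι K) w,
    g ϖ = ϖ → g = 1

/-- the constants -/
noncomputable abbrev cE (ι κ E : Type) [Field κ] [Field E] [Algebra (RF ι κ) E] : κ →+* E :=
  (toE (MP ι κ) E).comp MvPolynomial.C

/-- the direction of the variable `τ` -/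
noncomputable abbrev eT (σ R : Type) [CommRing R] : Option σ → R := Pi.single none 1

/-- An `l`-cover that is unramified everywhere and splits at infinity stays connected over the
curve above the `τ`-axis. -/
def PChart.ConnP {κ σ : Type} [Field κ] (c : PChart κ σ) (l : ℕ) : Prop :=
  ∀ (F E : Type) [Field F] [Field E] [Algebra (RF (Option σ) κ) F] [Algebra F E]
    [Algebra (RF (Option σ) κ) E] [IsScalarTower (RF (Option σ) κ) F E] [FiniteDimensional F E]
    [IsGalois F E] (θ : F), c.FF F θ → IsPGroup l (E ≃ₐ[F] E) →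
    (∀ u : Vl E, Triv (cE (Option σ) κ E) u → Ine F u = ⊥) →
    (∀ (z : κ) (j : F →+* LaurentSeries (RF σ κ)), PChart.InfEmb (K := κ) θ z j → Emb E j) →
    ∃ W : Vl E, (∀ p, W (toE (MP (Option σ) κ) E p) ≤ 1) ∧
      (∀ p, W (toE (MP (Option σ) κ) E p) < 1 ↔ line (RingHom.id κ) 0 (eT σ κ) p = 0) ∧
      Dec F W = ⊤

/-- imported: connectedness -/
def CONN : Prop := ∀ (κ σ : Type) [Field κ] [IsAlgClosed κ] [Fintype σ] (N : ℕ)
  (GG : Set (Fm N κ)) (c : Chart κ σ N GG) (Φ : MP σ κ) (l : ℕ),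
  (∀ G ∈ GG, ∃ m, G.IsHomogeneous m) → c.GI → c.SM Φ → MvPolynomial.constantCoeff Φ ≠ 0 →
  l.Prime → (l : κ) ≠ 0 → c.toPChart.ConnP l

/-- imported: a smooth fibre curve of the special fibre is irreducible -/
def IRRO : Prop := ∀ (O K κ σ : Type) [CommRing O] [IsDomain O] [CDVR O] [Field K] [Algebra O K]
  [IsFractionRing O K] [Field κ] [IsAlgClosed κ] [Fintype σ] (N : ℕ) (GG : Set (Fm N O))
  (c₀ : Chart O σ N GG) (c : PChart K σ) (Φ : MP σ O) (ρ : O →+* κ) (b : σ → κ),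
  (∀ G ∈ GG, ∃ m, G.IsHomogeneous m) → c₀.toPChart.IsMap (algebraMap O K) c → c.GI → c₀.SM Φ →
  KerM ρ → MvPolynomial.eval₂ ρ b Φ ≠ 0 →
  Irreducible (c₀.χ.map (line ρ (fun i => i.elim 0 b) (eT σ κ)))

section

variable {O κ σ : Type} [CommRing O] [Field κ] {N : ℕ} {GG : Set (Fm N O)}

/-- the generic point of the special fibre -/
noncomputable def Chart.gpt (c : Chart O σ N GG) (ρ : O →+* κ) {E : Type} [Field E]
    [Algebra (RF (Option σ) κ) E] (θ : E) : Fin (N + 1) → E :=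
  c.pv ((cE (Option σ) κ E).comp ρ) (fun i => toE (MP (Option σ) κ) E (MvPolynomial.X i)) θ

/-- In the coordinates of the chart `c` at the point `x`, the field `E` lies in a cover that is
unramified off `Θ`. -/
def Chart.CovF (c : Chart O σ N GG) (Θ : MP (Option σ) O) (ρ : O →+* κ) {E : Type} [Field E]
    (β : κ →+* E) (x : Fin (N + 1) → E) : Prop :=
  MvPolynomial.eval₂ (β.comp ρ) x (c.f none) ≠ 0 ∧ ∃ (E' : Type) (_ : Field E')
    (_ : Algebra (RF (Option σ) κ) E') (_ : FiniteDimensional (RF (Option σ) κ) E')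
    (_ : IsGalois (RF (Option σ) κ) E') (j : E →+* E'),
    UnrOff (RF (Option σ) κ) (toE (MP (Option σ) κ) E') (Θ.map ρ) ∧
    (∀ a, j (β a) = cE (Option σ) κ E' a) ∧
    ∀ l, j (c.xi (β.comp ρ) x l) = toE (MP (Option σ) κ) E' (MvPolynomial.X l)

variable (GG σ) in
/-- the same for all good charts -/
def AllCov (ρ : O →+* κ) {E : Type} [Field E] (β : κ →+* E) (x : Fin (N + 1) → E) : Prop :=
  ∀ (c : Chart O σ N GG) (Φ : MP σ O), IsUnit (c.d : O) → c.SM Φ → Φ.map ρ ≠ 0 →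
    c.CovF (c.brs Φ) ρ β x

/-- A cover in the coordinates of `c`, unramified off `Θ`, inside the closure of the function
field of `c₀`; the automorphisms that fix it have the property `V`. -/
def Chart.CovB (c₀ c : Chart O σ N GG) (Θ : MP (Option σ) O) (ρ : O →+* κ) (θ₀ : OB (Option σ) κ)
    (V : (OB (Option σ) κ ≃ₐ[RF (Option σ) κ] OB (Option σ) κ) → Prop) : Prop :=
  MvPolynomial.eval₂ ((cE (Option σ) κ _).comp ρ) (c₀.gpt ρ θ₀) (c.f none) ≠ 0 ∧
  ∃ (E' : Type) (_ : Field E') (_ : Algebra (RF (Option σ) κ) E')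
    (_ : FiniteDimensional (RF (Option σ) κ) E') (_ : IsGalois (RF (Option σ) κ) E')
    (B : E' →+* OB (Option σ) κ),
    UnrOff (RF (Option σ) κ) (toE (MP (Option σ) κ) E') (Θ.map ρ) ∧
    (∀ a, B (cE (Option σ) κ E' a) = cE (Option σ) κ _ a) ∧
    (∀ l, B (toE (MP (Option σ) κ) E' (MvPolynomial.X l)) =
      c.xi ((cE (Option σ) κ _).comp ρ) (c₀.gpt ρ θ₀) l) ∧
    (∀ l, toE (MP (Option σ) κ) _ (MvPolynomial.X l) ∈ B.range) ∧ θ₀ ∈ B.range ∧
    ∀ γ : OB (Option σ) κ ≃ₐ[RF (Option σ) κ] OB (Option σ) κ, (∀ x, γ (B x) = B x) → V γ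

end

/-- `g` is induced by an automorphism of the residue field at the generic point of the line -/
def LineG {κ ι : Type} [Field κ] (E : Type) [Field E] [Algebra (RF ι κ) E] (a b : ι → κ)
    (g : E ≃ₐ[RF ι κ] E) : Prop :=
  ∃ (M : Type) (_ : Field M) (_ : Algebra (RatFunc κ) M) (_ : FiniteDimensional (RatFunc κ) M)
    (_ : IsGalois (RatFunc κ) M) (J : E →+* FP ι M) (s : M ≃ₐ[RatFunc κ] M),
    (∀ Q, J (toE _ E Q) = ps ι M (tay ((algebraMap (RatFunc κ) M).comp RatFunc.C)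
      (tpt ((algebraMap (RatFunc κ) M).comp RatFunc.C) a b
        (algebraMap (RatFunc κ) M RatFunc.X)) Q)) ∧
    ∀ Γ : FP ι M →+* FP ι M, CoefL (s : M →+* M) Γ → ∀ x, J (g x) = Γ (J x)

/-- a character with values killed by `m` on the stabiliser of `θ` -/
structure IsChar {B Ω A : Type} [Field B] [Field Ω] [Algebra B Ω] [AddCommGroup A] (θ : Ω) (m : ℕ)
    (V : (Ω ≃ₐ[B] Ω) → A → Prop) : Prop where
  fix : ∀ γ q, V γ q → γ θ = θ
  ex : ∀ γ, γ θ = θ → ∃ q, V γ q
  uniq : ∀ γ q q', V γ q → V γ q' → q = q'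
  mul : ∀ γ γ' q q', V γ q → V γ' q' → V (γ * γ') (q + q')
  tors : ∀ γ q, V γ q → m • q = 0

end Pool.Agent.ZCy
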