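import Pool.Agent.Lib.MP_751085_ag.ZF.T.Ctr

/-! Change of the chart on the special fibre. -/

namespace Pool.Agent.ZCy

open scoped Classical Polynomial

variable {k O K κ σ : Type} [Field k] [CommRing O] [IsDomain O] [IsDiscreteValuationRing O]
  [Field K] [Algebra O K] [IsFractionRing O K] [Algebra k K] [Field κ] [Fintype σ] {π : O}
  {ρ : O →+* κ} {X : Var k} {GG : Set (Fm X.N O)} {c₀ c₀' : Chart O σ X.N GG}

/-- the generic point in the coordinates of the chart -/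
noncomputable def Var.KX.pt (A : X.KX K c₀) : Fin (X.N + 1) → A.F :=
  c₀.pv ((gO O K (Option σ) A.F).comp MvPolynomial.C)
    (fun l => gO O K (Option σ) A.F (MvPolynomial.X l)) A.θ

omit [IsDomain O] [IsDiscreteValuationRing O] [IsFractionRing O K] [Fintype σ] in
theorem tfchg_pt (A : X.KX K c₀) : ∃ u : A.F, u ≠ 0 ∧ ∀ i, A.pt i = u * A.γ (X.g i) := by
  obtain ⟨u, hu, hx⟩ := A.ff.dom.2
  refine ⟨u, hu, fun i => ?_⟩
  rw [← hx, A.map.pv, Var.KX.pt,
    show (gO O K (Option σ) A.F).comp MvPolynomial.C = ((toE (MP (Option σ) K) A.F).comp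
      MvPolynomial.C).comp (algebraMap O K) from RingHom.ext fun a => by simp]
  exact congrArg (c₀.pv _ · A.θ i) (funext fun l => by simp)

omit [IsDomain O] [IsDiscreteValuationRing O] [IsFractionRing O K] [Fintype σ] in
theorem tfchg_top (A : X.KX K c₀) (S : Subfield A.F)
    (h : ∀ a : K, toE (MP (Option σ) K) A.F (MvPolynomial.C a) ∈ S) (h' : ∀ i, A.γ (X.g i) ∈ S)
    (z : A.F) : z ∈ S := by
  obtain ⟨-, h1, h2⟩ := A.ff.coord
  have h3 : ∀ {ι : Type} (p : MP ι K) (v : ι → A.F), (∀ i, v i ∈ S) →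
      MvPolynomial.eval₂ ((toE (MP (Option σ) K) A.F).comp MvPolynomial.C) v p ∈ S :=
    fun p v hv => MvPolynomial.eval₂_mem (s := S) (fun i _ => h _) hv
  have h4 := fun p => h3 p _ h'
  refine fld_top A.ff.ff S (fun p => ?_) (h2 ▸ div_mem (h4 _) (h4 _)) z
  rw [← fld_hom (toE (MP (Option σ) K) A.F)]
  exact h3 p _ fun i => h1 i ▸ div_mem (h4 _) (h4 _)

/-- comparison of the function fields of two charts -/
theorem Var.KX.cmpF (hπ : Irreducible π) (A : X.KX K c₀) (A' : X.KX K c₀')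
    (hD : ¬MvPolynomial.C π ∣ c₀'.D) {v' : Vl A'.F}
    (hv' : Cen1 (gO O K (Option σ) A'.F) v' (MvPolynomial.C π)) :
    ∃ j : A.F →+* A'.F, j.comp A.γ = A'.γ ∧
      (∀ a : O, j (gO O K (Option σ) A.F (MvPolynomial.C a)) =
        gO O K (Option σ) A'.F (MvPolynomial.C a)) ∧
      Cen1 (gO O K (Option σ) A.F) (v'.comap j) (MvPolynomial.C π) ∧ Function.Surjective j ∧
      ∃ u : A'.F, u ≠ 0 ∧ ∀ i, j (A.pt i) = u * A'.pt i := by
  obtain ⟨h0, h1, -⟩ := A'.ff.coord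
  have hz := A'.ff.zer
  obtain ⟨u', hu', hx'⟩ := A'.ff.dom.2
  have hr := A'.ff.ff.1
  have ha := A'.ff.alg
  have ht := tfchg_top A'
  have e0 := fld_hom (toE (MP (Option σ) K) A'.F)
  have hin := toE_inj (A := MP (Option σ) K) A'.F
  have he : gO O K (Option σ) A'.F =
      (toE (MP (Option σ) K) A'.F).comp (MvPolynomial.map (algebraMap O K)) := rfl
  generalize toE (MP (Option σ) K) A'.F = e at *
  rw [he] at hv' ⊢
  obtain ⟨h2, h3⟩ := A.c.int_indep A'.c _ hz h0 (by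
    rw [funext h1]
    intro Q h
    rw [← MvPolynomial.coe_eval₂Hom, e0, map_eq_zero_iff _ hin] at h
    rw [h, map_zero])
  have hi : Function.Injective (MvPolynomial.eval₂Hom (e.comp MvPolynomial.C)
      (A.c.xi (e.comp MvPolynomial.C) fun i => A'.γ (X.g i))) :=
    (injective_iff_map_eq_zero _).2 fun Q h => (map_eq_zero_iff _
      (MvPolynomial.map_injective _ (e.comp MvPolynomial.C).injective)).1 (h3 Q h)
  obtain ⟨h4, h5⟩ := A.c.fro _ _ _ (A.c.xi _ _) (A.c.tht _ _) hz h2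
    (fun i => (div_mul_cancel₀ _ h2).symm) (div_mul_cancel₀ _ h2).symm
  obtain ⟨u, hu⟩ := h5 ((map_ne_zero_iff _ hi).2 A.c.D_ne)
  obtain ⟨j, hj, hθ⟩ := A.ff.ff.lift A.gi hi h4
  obtain ⟨u₀, hu₀, hx⟩ := A.ff.dom.2
  have h6 : ∀ i, j u₀ * j (A.γ (X.g i)) = u * A'.γ (X.g i) := fun i => by
    rw [← map_mul, ← hx, ← hu, Chart.pv, map_ev, hθ]
    congr 2
    · exact RingHom.ext fun a => (hj _).trans (MvPolynomial.eval₂_C _ _ _)
    · exact funext fun l => (hj _).trans (MvPolynomial.eval₂_X _ _ _)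
  have h7 : j u₀ = u := by
    obtain ⟨i, hi⟩ := X.one
    simpa [hi] using h6 i
  have h7' : ∀ i, j (A.γ (X.g i)) = A'.γ (X.g i) := fun i =>
    mul_left_cancel₀ ((map_ne_zero j).2 hu₀) ((h6 i).trans (by rw [h7]))
  have h8 : ∀ a : O, j (gO O K (Option σ) A.F (MvPolynomial.C a)) =
      (e.comp (MvPolynomial.map (algebraMap O K))) (MvPolynomial.C a) := fun a => by
    refine (hj _).trans ?_
    simp
  have h9 := tchg_cen c₀ c₀' _ hv'.1 hD (θ := A'.θ) (by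
    rw [← Polynomial.eval₂_map]
    rw [A'.map.p.χ] at hr
    exact hr)
  obtain ⟨w, hw, hp⟩ := tfchg_pt A
  obtain ⟨w', hw', hp'⟩ := tfchg_pt A'
  refine ⟨j, ?_, h8, ⟨?_, (congrArg v' (h8 π)).trans hv'.2⟩, ht j.fieldRange
    (fun a => ⟨_, (hj _).trans (MvPolynomial.eval₂_C _ _ a)⟩) fun i => ⟨_, h7' i⟩, j w / w',
    div_ne_zero ((map_ne_zero j).2 hw) hw', fun i => by
      rw [hp, hp', map_mul, h7', ← mul_assoc, div_mul_cancel₀ _ hw']⟩
  · refine RingHom.eq_of_eqOn_of_field_closure_eq_top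
      (congrArg IntermediateField.toSubfield X.gen) ?_
    rintro _ (⟨a, rfl⟩ | ⟨i, rfl⟩)
    · change j (A.γ _) = _
      rw [A.ff.dom.1, A.ff.alg, hj, A'.ff.dom.1, ha]
      exact MvPolynomial.eval₂_C _ _ _
    · exact h7' i
  · have e1 : (e.comp (MvPolynomial.map (algebraMap O K))).comp
        (MvPolynomial.C : O →+* MP (Option σ) O) =
        (e.comp MvPolynomial.C).comp (algebraMap O K) := RingHom.ext fun a => by simp
    have e2 : (fun i => (e.comp (MvPolynomial.map (algebraMap O K)))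
        (MvPolynomial.X i : MP (Option σ) O)) = fun i => e (MvPolynomial.X i) :=
      funext fun i => by simp
    rw [e1, e2, ← A'.map.pv, funext hx', tchg_scale _ _ hu', ← A.map.xi] at h9
    have e3 : MvPolynomial.eval₂Hom ((e.comp MvPolynomial.C).comp (algebraMap O K))
        (A.c.xi (e.comp MvPolynomial.C) fun i => A'.γ (X.g i)) = j.comp (gO O K (Option σ) A.F) :=
      RingHom.ext fun Q => ((hj _).trans (MvPolynomial.eval₂_map _ _ _ _)).symm
    rw [e3] at h9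
    exact h9

section

variable {F : Type} [Field F] [Algebra (RF (Option σ) K) F] {c : PChart K σ} {θ : F} {v : Vl F}
  {θ₀ : OB (Option σ) κ} {ρ₀ : v.integer →+* OB (Option σ) κ}

theorem tfchg_root {c₁ : PChart O σ} {cb : PChart κ σ} (g : GenR K π ρ θ v θ₀ ρ₀)
    (h : XH π ρ c₁ c θ) (hb : c₁.IsMap ρ cb) : cb.χ.eval₂ (toE (MP (Option σ) κ) _) θ₀ = 0 := by
  rw [hb.χ, Polynomial.coe_mapRingHom, Polynomial.eval₂_map]
  exact g.th ⟨θ, h.le g.cen.1⟩ rfl ▸ h.root g.cen.1 g.base rfl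

/-- the residue field is generated by `θ₀` -/
theorem GenR.memF {c₁ : PChart O σ} (g : GenR K π ρ θ v θ₀ ρ₀) (h : XH π ρ c₁ c θ) (x : v.integer) :
    ρ₀ x ∈ IntermediateField.adjoin (RF (Option σ) κ) {θ₀} := by
  obtain ⟨φ, h1, h2, h2', h3, h4, h5, -⟩ := h.adj
  have h6 := (h5 v).1 g.cen.1
  have h7 : ∀ a, ρ₀ (φ.codRestrict v.integer h6.1 a) ∈
      IntermediateField.adjoin (RF (Option σ) κ) {θ₀} := fun a => by
    obtain ⟨f, rfl⟩ := AdjoinRoot.mk_surjective a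
    induction f using Polynomial.induction_on with
    | C a =>
      rw [g.base a _ (h2 a)]
      exact IntermediateField.algebraMap_mem _ _
    | add p q hp hq =>
      rw [map_add, map_add, map_add]
      exact add_mem hp hq
    | monomial n a ih =>
      rw [pow_succ, ← mul_assoc, map_mul, map_mul, map_mul, AdjoinRoot.mk_X,
        g.th (φ.codRestrict v.integer h6.1 _) h2']
      exact mul_mem ih (IntermediateField.mem_adjoin_simple_self _ _)
  obtain ⟨a, b, hb, e⟩ := gau_desc h1 h3 h4 h6 x.2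
  rw [eq_div_of_mul_eq ((g.red.ne_zero (φ.codRestrict v.integer h6.1 b)).2 ((h6.eq_one b).2 hb))
    ((map_mul ρ₀ x _).symm.trans (congrArg ρ₀
      (Subtype.ext e : _ = φ.codRestrict v.integer h6.1 a)))]
  exact div_mem (h7 a) (h7 b)

end

variable {A : X.KX K c₀} {A' : X.KX K c₀'} {v : Vl A.F} {v' : Vl A'.F} {θ₀ θ₀' : OB (Option σ) κ}
  {ρ₀ : v.integer →+* OB (Option σ) κ} {ρ₀' : v'.integer →+* OB (Option σ) κ}

/-- the generic point is integral and reduces to the generic point of the special fibre -/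
theorem GenR.ptF (g : GenR K π ρ A.θ v θ₀ ρ₀) (h : XH π ρ c₀.toPChart A.c.toPChart A.θ) :
    ∃ x : Fin (X.N + 1) → v.integer, (∀ i, (x i : A.F) = A.pt i) ∧
      ∀ i, ρ₀ (x i) = c₀.gpt ρ θ₀ i := by
  let β : MP (Option σ) O →+* v.integer := (gO O K (Option σ) A.F).codRestrict _ g.cen.1.1
  refine ⟨c₀.pv (β.comp MvPolynomial.C) (fun l => β (MvPolynomial.X l)) ⟨A.θ, h.le g.cen.1⟩,
    fun i => map_ev v.integer.subtype _ _ _ _, fun i => (map_ev ρ₀ _ _ _ _).trans ?_⟩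
  rw [g.th _ rfl, show ρ₀.comp (β.comp MvPolynomial.C) = (cE (Option σ) κ _).comp ρ from
    RingHom.ext fun a => (g.base (MvPolynomial.C a) _ rfl).trans (by simp)]
  exact congrArg (c₀.pv _ · θ₀ i) (funext fun l => (g.base (MvPolynomial.X l) _ rfl).trans (by simp))

/-- change of the chart on the special fibre -/
theorem chgF (g : GenR K π ρ A.θ v θ₀ ρ₀) (h : XH π ρ c₀.toPChart A.c.toPChart A.θ)
    (g' : GenR K π ρ A'.θ v' θ₀' ρ₀') (h' : XH π ρ c₀'.toPChart A'.c.toPChart A'.θ)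
    (fac : ∀ ρ₁ : v'.integer →+* OB (Option σ) κ, IsRed v' ρ₁ →
      RedA ((gO O K (Option σ) A'.F).comp MvPolynomial.C) ρ₁ ((cE (Option σ) κ _).comp ρ) →
      ∃ B : OB (Option σ) κ →+* OB (Option σ) κ, B.comp ρ₀' = ρ₁ ∧
        ∀ a, B (cE (Option σ) κ _ a) = cE (Option σ) κ _ a) :
    ∃ (j : A'.F →+* A.F) (B : OB (Option σ) κ →+* OB (Option σ) κ), j.comp A'.γ = A.γ ∧
      (∀ x, v (j x) = v' x) ∧ Cmp j ρ₀' ρ₀ B ∧
      (∀ a, B (cE (Option σ) κ _ a) = cE (Option σ) κ _ a) ∧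
      MvPolynomial.eval₂ ((cE (Option σ) κ _).comp ρ) (c₀.gpt ρ θ₀) (c₀'.f none) ≠ 0 ∧
      (∀ l, B (toE (MP (Option σ) κ) _ (MvPolynomial.X l)) =
        c₀'.xi ((cE (Option σ) κ _).comp ρ) (c₀.gpt ρ θ₀) l) ∧
      ∀ x, ∃ x', ρ₀ x = B (ρ₀' x') := by
  obtain ⟨cb, hb⟩ := c₀.toPChart.exists_map ρ
  obtain ⟨cb', hb'⟩ := c₀'.toPChart.exists_map ρ
  obtain ⟨j, h1, h2, h3, h4, u, -, h5⟩ := A'.cmpF h.irr A
    (fun e => cb.D_ne (hb.D.trans ((mp_ker h.ker h.irr _).2 e))) g.cen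
  obtain rfl : v.comap j = v' := h'.eq g'.cen h3
  obtain ⟨ρ₁, r1, r2⟩ := (Over.comap j v).red g.red
  obtain ⟨B, hB, hB'⟩ := fac ρ₁ r1 fun a y e =>
    (r2 y ⟨_, g.cen.1.1 (MvPolynomial.C a)⟩ ((congrArg j e).trans (h2 a)).symm).symm.trans
      ((g.base _ _ rfl).trans (by simp))
  have hc : Cmp j ρ₀' ρ₀ B := fun x y e => (r2 x y e).trans (RingHom.congr_fun hB x).symm
  obtain ⟨x, hx, hr⟩ := g.ptF h
  obtain ⟨x', hx', hr'⟩ := g'.ptF h'
  obtain ⟨-, -, h6, -⟩ := Chart.gpt_spec hb (tfchg_root g h hb)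
  obtain ⟨-, h7, -, h8⟩ := Chart.gpt_spec hb' (tfchg_root g' h' hb')
  obtain ⟨i, hi⟩ := Function.ne_iff.1 h6
  have h9 : v u ≤ 1 := by
    have := (v.mem_integer_iff _).1 (x' i).2
    rwa [hx', h5, ← hx, map_mul, (g.red.ne_zero (x i)).1 ((hr i).trans_ne hi), mul_one] at this
  have e : ∀ l, B (MvPolynomial.eval₂ ((cE (Option σ) κ _).comp ρ) (c₀'.gpt ρ θ₀') (c₀'.f l)) =
      ρ₀ ⟨u, h9⟩ ^ c₀'.d *
        MvPolynomial.eval₂ ((cE (Option σ) κ _).comp ρ) (c₀.gpt ρ θ₀) (c₀'.f l) := fun l => by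
    rw [MvPolynomial.eval₂_comp_left, ← fld_scale (c₀'.hf l),
      show B.comp ((cE (Option σ) κ _).comp ρ) = (cE (Option σ) κ _).comp ρ from
        RingHom.ext fun a => hB' (ρ a)]
    refine congrArg (MvPolynomial.eval₂ _ · _) (funext fun i => ?_)
    rw [Function.comp_apply, ← hr, ← hr', ← map_mul]
    exact (hc _ _ (by rw [hx', h5, ← hx]; rfl)).symm
  have e0 := (e none).symm.trans_ne ((map_ne_zero B).2 h7)
  refine ⟨j, B, h1, fun _ => rfl, hc, hB', right_ne_zero_of_mul e0, fun l => ?_, fun y => ?_⟩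
  · refine eq_div_of_mul_eq (right_ne_zero_of_mul e0) (mul_left_cancel₀ (left_ne_zero_of_mul e0) ?_)
    rw [← e, h8, map_mul, e, mul_left_comm]
  · obtain ⟨z, hz⟩ := h4 y
    exact ⟨⟨z, (congrArg v hz).trans_le y.2⟩, hc _ _ hz.symm⟩

end Pool.Agent.ZCy
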