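import Pool.Agent.Lib.MP_751085_ag.ZF.T.VDefs

/-! Two points on the curve over the line whose Frobenius elements differ by a given element. -/

namespace Pool.Agent.ZCy

open scoped Classical Polynomial LaurentSeries PowerSeries

open Pool.Agent.ZeroCyc

theorem g3bF {O κ ι : Type} [CommRing O] [Field κ] [IsAlgClosed κ] [Fintype ι] {s : ℕ}
    (hs : FinB κ s) {ρ : O →+* κ} (hρ : ∀ x, ρ x ^ s = ρ x) {χ : (MP ι O)[X]} {Θ : MP ι O}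
    (hm : χ.Monic) (hb : Bez χ Θ) {a b : ι → O}
    (hl : (line (RingHom.id O) a b Θ).map ρ ≠ 0)
    (hi : Irreducible ((χ.map (line (RingHom.id O) a b)).map (Polynomial.mapRingHom ρ)))
    {θ₀ : OB ι κ} (h0 : χ.eval₂ ((toE (MP ι κ) _).comp (MvPolynomial.map ρ)) θ₀ = 0)
    (E₀ : IntermediateField (RF ι κ) (OB ι κ)) [FiniteDimensional (RF ι κ) E₀]
    [IsGalois (RF ι κ) E₀] (hθ : θ₀ ∈ E₀) (g : OB ι κ ≃ₐ[RF ι κ] OB ι κ) (hg : g θ₀ = θ₀)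
    (hL : LineG E₀ (fun i => ρ (a i)) (fun i => ρ (b i)) (g.restrictNormal E₀)) :
    ∃ (m : ℕ) (φ : κ ≃+* κ) (t z : Fin 2 → κ) (γ : Fin 2 → OB ι κ ≃+* OB ι κ), 0 < m ∧
      (∀ x, φ x = x ^ s ^ m) ∧ (∀ i, LPt ρ χ Θ a b (s ^ m) (t i) (z i) ∧ γ i θ₀ = θ₀ ∧
        (∀ Q, γ i (toE (MP ι κ) _ Q) = toE (MP ι κ) _ (MvPolynomial.map (φ : κ →+* κ) Q)) ∧
        PtLink (tpt ρ a b (t i)) (z i) (φ : κ →+* κ) θ₀ (γ i)) ∧
      ∀ x ∈ E₀, γ 1 x = γ 0 (g x) := by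
  obtain ⟨M, _, _, _, _, J, σ, hJ, hσ⟩ := hL
  obtain ⟨Γσ, hΓσ⟩ := exists_coefL (ι := ι) (f := (σ : M →+* M)) σ.injective
  replace hσ := hσ Γσ hΓσ
  have hg0 : ∀ x : E₀, (g.restrictNormal E₀ x : OB ι κ) = g x := g.restrictNormal_commutes E₀
  obtain ⟨ψ, hψ⟩ : ∃ ψ, ψ = (algebraMap (RatFunc κ) M).comp RatFunc.C := ⟨_, rfl⟩
  obtain ⟨y, hy⟩ : ∃ y, y = tpt (ψ.comp ρ) a b (algebraMap (RatFunc κ) M RatFunc.X) := ⟨_, rfl⟩
  replace hJ : ∀ Q, J (toE _ E₀ Q) = ps ι M (tay ψ y Q) := hy ▸ hψ ▸ hJ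
  have e1 : χ.eval₂ ((ps ι M).comp (tay (ψ.comp ρ) y)) (J ⟨θ₀, hθ⟩) = 0 := by
    have e : J.comp ((toE _ E₀).comp (MvPolynomial.map ρ)) = (ps ι M).comp (tay (ψ.comp ρ) y) :=
      RingHom.ext fun Q => (hJ _).trans (by rw [tay_map]; rfl)
    rw [← e, ← Polynomial.hom_eval₂, (map_eq_zero (algebraMap E₀ (OB ι κ))).1
      ((Polynomial.hom_eval₂ χ _ _ _).trans h0), map_zero]
  have := lv_normal M ι
  obtain ⟨T, hT⟩ : ∃ T, ps ι M T = J ⟨θ₀, hθ⟩ := IsIntegrallyClosed.isIntegral_iff.1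
    ⟨χ.map (tay (ψ.comp ρ) y), hm.map _, by rwa [Polynomial.eval₂_map]⟩
  have e2 : σ (MvPowerSeries.constantCoeff T) = MvPowerSeries.constantCoeff T :=
    congrArg MvPowerSeries.constantCoeff (IsFractionRing.injective (PS ι M) (FP ι M) (by
      rw [← hΓσ, hT, ← hσ]
      exact congrArg J (Subtype.ext ((hg0 _).trans hg))) : MvPowerSeries.map (σ : M →+* M) T = T)
  obtain ⟨M', _, _, _, _, _, _, i, Φ, hΦ, e3⟩ := exists_semi hs hρ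
    (hm.map (line (RingHom.id O) a b)) (hb.map _) hi M (θ := MvPowerSeries.constantCoeff T) (by
      have e : (Polynomial.eval₂RingHom (ψ.comp ρ) (algebraMap (RatFunc κ) M RatFunc.X)).comp
          (line (RingHom.id O) a b) = MvPowerSeries.constantCoeff.comp (tay (ψ.comp ρ) y) :=
        RingHom.ext fun Q => (eval₂_line ..).trans (by rw [← hy]; exact (cc_tay ..).symm)
      rw [← hT, ← Polynomial.hom_eval₂] at e1
      rw [Polynomial.eval₂_map, ← hψ, e, ← Polynomial.hom_eval₂,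
        (IsFractionRing.to_map_eq_zero_iff (K := FP ι M)).1 e1, map_zero])
  obtain ⟨σ', hσ'⟩ : ∃ σ' : M' ≃ₐ[RatFunc κ] M', ∀ x, σ' (i x) = i (σ x) := by
    let := (i : M →+* M').toAlgebra
    have : IsScalarTower (RatFunc κ) M M' :=
      IsScalarTower.of_algebraMap_eq fun x => (i.commutes x).symm
    exact ⟨σ.liftNormal M', σ.liftNormal_commutes M'⟩
  obtain ⟨n, hn, hC⟩ := cheb_pt hs M' hl
  obtain ⟨φ, hφ⟩ := hs.frob (2 * n)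
  have hρ' : ∀ x, φ (ρ x) = ρ x := fun x => by
    rw [hφ]
    induction 2 * n with
    | zero => rw [pow_zero, pow_one]
    | succ m ih => rw [pow_succ, pow_mul, ih, hρ]
  obtain ⟨Γi, hΓi⟩ := exists_coefL (ι := ι) (f := (i : M →+* M')) i.injective
  obtain ⟨β, hβ⟩ := exists_hom_ext (Ω := OB ι κ)
    (((algebraMap (FP ι M') (AlgebraicClosure (FP ι M'))).comp Γi).comp J)
  have hβ' : ∀ x : E₀, β x = algebraMap _ _ (Γi (J x)) := hβ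
  have e4 : (i : M →+* M').comp ψ = algebraMap κ M' := RingHom.ext fun c => by
    rw [hψ, IsScalarTower.algebraMap_apply κ (RatFunc κ) M']
    exact i.commutes _
  have h1 : ∀ Q, β (toE (MP ι κ) _ Q) = algebraMap (FP ι M') _ (ps ι M' (tay (algebraMap κ M')
      (tpt ((algebraMap κ M').comp ρ) a b (ZeroCyc.tE κ M')) Q)) := fun Q =>
    (hβ' (toE _ E₀ Q)).trans (by
      rw [hJ, hΓi, map_tay, e4, ← e4, hy]
      simp only [tpt, map_add, map_mul, RingHom.coe_coe, AlgHom.commutes]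
      rfl)
  have h2 : β θ₀ = algebraMap _ _ (ps ι M' (MvPowerSeries.map (i : M →+* M') T)) :=
    (hβ' ⟨θ₀, hθ⟩).trans (by rw [← hT, hΓi])
  have e5 : ∀ k, (Φ ^ k) (i (MvPowerSeries.constantCoeff T)) =
      i (MvPowerSeries.constantCoeff T) := fun k => by
    induction k with
    | zero => rfl
    | succ k ih => rw [pow_succ, RingAut.mul_apply, e3, ih]
  obtain ⟨Γ₀, hΓ₀⟩ := exists_coefE (ι := ι) (Φ ^ (2 * n))
  obtain ⟨Γ', hΓ'⟩ := exists_coefE (ι := ι) σ'.toRingEquiv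
  have e6 : (Γ' : FP ι M' →+* FP ι M').comp Γi = Γi.comp Γσ := fp_ext fun u => by
    change Γ' (Γi _) = Γi (Γσ _)
    rw [hΓi, hΓ', hΓσ, hΓi]
    exact congrArg _ (MvPowerSeries.ext fun _ => hσ' _)
  obtain ⟨t₀, j₀, a1, a2, a3⟩ := hC _ (hΦ.pow (2 * n))
  obtain ⟨t₁, j₁, b1, b2, b3⟩ := hC _ ((hΦ.pow (2 * n)).tw σ')
  rw [Polynomial.eval_map, eval₂_line] at a3 b3
  obtain ⟨z₀, γ₀, a4, a5⟩ := tg3b_one hφ hρ' hm hb h0 h1 h2 (hΦ.pow (2 * n)) (e5 _) a1 a2 a3 hΓ₀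
  obtain ⟨z₁, γ₁, b4, b5⟩ := tg3b_one hφ hρ' hm hb h0 h1 h2 ((hΦ.pow (2 * n)).tw σ')
    ((congrArg (Φ ^ (2 * n)) ((hσ' _).trans (congrArg i e2))).trans (e5 _)) b1 b2 b3
    (Γ := Γ'.trans Γ₀) fun u => (congrArg Γ₀ (hΓ' u)).trans ((hΓ₀ _).trans
      (congrArg _ (MvPowerSeries.ext fun _ => rfl)))
  refine ⟨2 * n, φ, ![t₀, t₁], ![z₀, z₁], ![γ₀, γ₁], by omega, hφ, Fin.forall_fin_two.2 ⟨a4, b4⟩,
    fun x hx => β.injective ?_⟩
  refine (b5 _ _ (hβ' ⟨x, hx⟩)).trans ((a5 _ _ ((congrArg β (hg0 ⟨x, hx⟩).symm).trans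
    (hβ' _))).trans ?_).symm
  rw [hσ]
  exact congrArg _ (congrArg Γ₀ (DFunLike.congr_fun e6 _).symm)

end Pool.Agent.ZCy
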