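import Pool.Agent.Lib.MP_751085_ag.ZF.T.LexF

/-! The generic point of the special fibre and integral points, in any characteristic. -/

namespace Pool.Agent.ZCy

open scoped Classical WithZero Polynomial

set_option linter.unusedSectionVars false

theorem PChart.bez_brs {A σ : Type} [CommRing A] (c : PChart A σ) (Φ : MP σ A) :
    Bez c.χ (c.brs Φ) ∧ ∃ r : ℕ, c.D ∣ c.brs Φ ^ r := by
  obtain ⟨r, hr⟩ := c.dvd
  obtain ⟨α, β, e⟩ := c.bez
  have h1 : c.D ∣ c.brs Φ ^ r := hr.trans (pow_dvd_pow_of_dvd (dvd_mul_right _ _) r)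
  refine ⟨?_, _, h1⟩
  obtain ⟨g, hg⟩ := h1
  exact ⟨r, α * Polynomial.C g, β * Polynomial.C g, by rw [hg, map_mul, e]; ring⟩

section

variable {O K κ σ F : Type} [CommRing O] [IsDomain O] [IsDiscreteValuationRing O] [Field K]
  [Algebra O K] [IsFractionRing O K] [Field κ] [IsAlgClosed κ] [Fintype σ] [Field F]
  [Algebra (RF (Option σ) K) F] {s : ℕ} {π : O} {ρ : O →+* κ} {c₀ : PChart O σ} {c : PChart K σ}
  {θ : F} {v : Vl F} {θ₀ : OB (Option σ) κ} {ρ₀ : v.integer →+* OB (Option σ) κ}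

theorem XH.exists_genRF (h : XH π ρ c₀ c θ) : ∃ (v : Vl F) (θ₀ : OB (Option σ) κ)
    (ρ₀ : v.integer →+* OB (Option σ) κ), GenR K π ρ θ v θ₀ ρ₀ := by
  obtain ⟨v, hv⟩ := h.exists
  obtain ⟨z, hz⟩ := IsAlgClosed.exists_root
    (c₀.χ.map ((toE (MP (Option σ) κ) (OB (Option σ) κ)).comp (MvPolynomial.map ρ))) (by
      rw [c₀.monic.degree_map, Polynomial.degree_eq_natDegree c₀.monic.ne_zero, c₀.deg]
      exact Nat.cast_ne_zero.2 c₀.pos.ne')
  rw [Polynomial.IsRoot, Polynomial.eval_map] at hz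
  obtain ⟨ρ₀, h1, h2, h3⟩ := h.red_ex hv.1 (te0_ker h.ker h.irr) hz
  exact ⟨v, z, ρ₀, hv, h1, h2, h3⟩

theorem GenR.rootF (g : GenR K π ρ θ v θ₀ ρ₀) (h : XH π ρ c₀ c θ) :
    c₀.χ.eval₂ ((toE (MP (Option σ) κ) _).comp (MvPolynomial.map ρ)) θ₀ = 0 :=
  g.th ⟨θ, h.le g.cen.1⟩ rfl ▸ h.root g.cen.1 g.base rfl

theorem GenR.fixF (g : GenR K π ρ θ v θ₀ ρ₀) (h : XH π ρ c₀ c θ)
    {γ : OB (Option σ) κ ≃+* OB (Option σ) κ} (h1 : ∀ Q : MP (Option σ) O,
      γ (toE (MP (Option σ) κ) _ (MvPolynomial.map ρ Q)) =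
        toE (MP (Option σ) κ) _ (MvPolynomial.map ρ Q)) (h2 : γ θ₀ = θ₀) (x : v.integer) :
    γ (ρ₀ x) = ρ₀ x :=
  RingHom.congr_fun (h.red_ext (ρ' := (γ : OB (Option σ) κ →+* OB (Option σ) κ).comp ρ₀) g.cen.1
    g.red (fun Q u e => by rw [RingHom.comp_apply, g.base Q u e]; exact h1 Q)
    fun u e => by rw [RingHom.comp_apply, g.th u e]; exact h2) x

theorem tgeo1_conjF (h : XH π ρ c₀ c θ) {x y : OB (Option σ) κ}
    (hx : c₀.χ.eval₂ ((toE (MP (Option σ) κ) _).comp (MvPolynomial.map ρ)) x = 0)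
    (hy : c₀.χ.eval₂ ((toE (MP (Option σ) κ) _).comp (MvPolynomial.map ρ)) y = 0) :
    ∃ τ : OB (Option σ) κ ≃ₐ[RF (Option σ) κ] OB (Option σ) κ, τ x = y := by
  have hm := c₀.monic.map (MvPolynomial.map ρ)
  have e : ∀ z : OB (Option σ) κ, Polynomial.aeval z ((c₀.χ.map (MvPolynomial.map ρ)).map
      (algebraMap _ (RF (Option σ) κ))) =
      c₀.χ.eval₂ ((toE (MP (Option σ) κ) _).comp (MvPolynomial.map ρ)) z := fun z => by
    rw [Polynomial.aeval_def, Polynomial.eval₂_map, Polynomial.eval₂_map]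
  refine minpoly.exists_algEquiv_of_root (Algebra.IsAlgebraic.isAlgebraic y) ?_
  rw [← minpoly.eq_of_irreducible_of_monic
    (hm.irreducible_iff_irreducible_map_fraction_map.1 h.red) ((e y).trans hy) (hm.map _), e, hx]

theorem GenR.exists_frobF (hs : FinB κ s) (hρ : LRes ρ s) (g : GenR K π ρ θ v θ₀ ρ₀)
    (h : XH π ρ c₀ c θ) : ∃ (φ : κ ≃+* κ) (γ₀ : OB (Option σ) κ ≃+* OB (Option σ) κ),
      (∀ x, φ x = x ^ s) ∧ γ₀ θ₀ = θ₀ ∧ ∀ Q, γ₀ (toE (MP (Option σ) κ) _ Q) =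
        toE (MP (Option σ) κ) _ (MvPolynomial.map (φ : κ →+* κ) Q) := by
  obtain ⟨φ, hφ⟩ := hs.frob 1
  simp only [pow_one] at hφ
  obtain ⟨Φ, hΦ⟩ := exists_rf_aut (ι := Option σ) φ
  obtain ⟨γ₁, hγ⟩ := exists_taut (Ω := OB (Option σ) κ) Φ
  have e : ∀ Q, γ₁ (toE (MP (Option σ) κ) _ Q) =
      toE (MP (Option σ) κ) _ (MvPolynomial.map (φ : κ →+* κ) Q) := fun Q =>
    (hγ _).trans (congrArg _ (hΦ Q))
  have h1 := congrArg (γ₁ : OB (Option σ) κ →+* OB (Option σ) κ) (g.rootF h)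
  have e' : (γ₁ : OB (Option σ) κ →+* OB (Option σ) κ).comp ((toE (MP (Option σ) κ) _).comp
      (MvPolynomial.map ρ)) = (toE (MP (Option σ) κ) _).comp (MvPolynomial.map ρ) :=
    RingHom.ext fun Q => (e _).trans (congrArg _ (tgeo1_map hρ hφ Q))
  rw [Polynomial.hom_eval₂, map_zero, e'] at h1
  obtain ⟨τ, hτ⟩ := tgeo1_conjF h h1 (g.rootF h)
  exact ⟨φ, γ₁.trans τ.toRingEquiv, hφ, hτ, fun Q => (congrArg τ (e Q)).trans (τ.commutes _)⟩

theorem GenR.factorF (hs : FinB κ s) (g : GenR K π ρ θ v θ₀ ρ₀) (h : XH π ρ c₀ c θ) {𝕂 : Type}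
    [Field 𝕂] [IsAlgClosed 𝕂] {β : κ →+* 𝕂} {ρ' : v.integer →+* 𝕂} (h1 : IsRed v ρ')
    (h2 : RedA ((gO O K (Option σ) F).comp MvPolynomial.C) ρ' (β.comp ρ)) :
    ∃ B : OB (Option σ) κ →+* 𝕂, B.comp ρ₀ = ρ' ∧
      ∀ x, B (toE (MP (Option σ) κ) _ (MvPolynomial.C x)) = β x := by
  let φ : MP (Option σ) O →+* v.integer := (gO O K (Option σ) F).codRestrict _ g.cen.1.1
  let y : Option σ → 𝕂 := fun i => ρ' (φ (MvPolynomial.X i))
  have e : (MvPolynomial.eval₂Hom β y).comp (MvPolynomial.map ρ) = ρ'.comp φ :=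
    MvPolynomial.ringHom_ext (fun a => by simpa using (h2 a _ rfl).symm) fun i => by simp [y]
  have hi : Function.Injective (MvPolynomial.eval₂Hom β y) := by
    let := β.toAlgebra
    have : Algebra.IsAlgebraic ρ.range κ := ⟨fun x => by
      obtain ⟨n, hn, hx⟩ := hs.alg x
      refine ⟨Polynomial.X ^ s ^ n - Polynomial.X, fun h0 => ?_, by simp [hx]⟩
      have := congrArg Polynomial.natDegree (sub_eq_zero.1 h0)
      rw [Polynomial.natDegree_X_pow, Polynomial.natDegree_X] at this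
      exact (Nat.one_lt_pow hn.ne' hs.one_lt).ne' this⟩
    refine AlgebraicIndependent.extendScalars κ (algebraicIndependent_iff.2
      fun (p : MP (Option σ) ρ.range) hp => ?_)
    obtain ⟨Q, rfl⟩ := MvPolynomial.map_surjective _ ρ.rangeRestrict_surjective p
    have h3 : ρ' (φ Q) = 0 := by
      rw [← hp, ← RingHom.comp_apply, ← e, RingHom.comp_apply, MvPolynomial.aeval_def,
        MvPolynomial.coe_eval₂Hom, MvPolynomial.eval₂_map, MvPolynomial.eval₂_map]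
      rfl
    obtain ⟨Q, rfl⟩ := (g.cen.1.2 Q).1 ((h1 _).1 h3)
    rw [map_mul, MvPolynomial.map_C, show ρ.rangeRestrict π = 0 from
      Subtype.ext ((h.ker.dvd h.irr π).2 dvd_rfl), map_zero, zero_mul]
  obtain ⟨B, hB⟩ := exists_hom_ext (Ω := OB (Option σ) κ)
    (IsFractionRing.lift (K := RF (Option σ) κ) hi)
  have hB' : ∀ Q, B (toE (MP (Option σ) κ) _ Q) = MvPolynomial.eval₂Hom β y Q := fun Q =>
    (hB _).trans (IsFractionRing.lift_algebraMap hi Q)
  have e' : B.comp ((toE (MP (Option σ) κ) _).comp (MvPolynomial.map ρ)) = ρ'.comp φ :=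
    RingHom.ext fun Q => (hB' _).trans (RingHom.congr_fun e Q)
  have hr := h.root g.cen.1 (ρ := ρ') (ψ := ρ'.comp φ) (fun Q u hu => congrArg ρ' (Subtype.ext hu))
    (u := ⟨θ, h.le g.cen.1⟩) rfl
  rw [← e'] at hr
  obtain ⟨θ₁, h3⟩ := root_mem_range B (c₀.monic.map _).ne_zero (IsAlgClosed.splits _)
    ((Polynomial.eval₂_map _ _ _).trans hr)
  rw [← h3, ← Polynomial.hom_eval₂, map_eq_zero] at hr
  obtain ⟨τ, hτ⟩ := tgeo1_conjF h (g.rootF h) hr
  refine ⟨B.comp (τ : OB (Option σ) κ →+* OB (Option σ) κ),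
    h.red_ext g.cen.1 h1 (fun Q u hu => ?_) fun u hu => ?_, fun x => ?_⟩
  · exact (congrArg B ((congrArg τ (g.base Q u hu)).trans (τ.commutes _))).trans
      ((RingHom.congr_fun e' Q).trans (congrArg ρ' (Subtype.ext hu.symm)))
  · exact (congrArg B ((congrArg τ (g.th u hu)).trans hτ)).trans
      (h3.trans (congrArg ρ' (Subtype.ext hu.symm)))
  · exact (congrArg B (τ.commutes _)).trans ((hB' _).trans (MvPolynomial.eval₂Hom_C _ _ _))

theorem exists_cen1F {E : Type} [Field E] [Algebra (RF (Option σ) K) E] [Algebra F E]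
    [IsScalarTower (RF (Option σ) K) F E] [FiniteDimensional (RF (Option σ) K) E]
    [IsGalois (RF (Option σ) K) E] (hπ : Irreducible π) (hc : c₀.IsMap (algebraMap O K) c) (hF : c.FF F θ)
    (hD : ¬MvPolynomial.C π ∣ c₀.D) {w : Vl E}
    (hw : Cen (gO O K (Option σ) E) w (MvPolynomial.C π)) :
    ∃ v : Vl F, Cen1 (gO O K (Option σ) F) v (MvPolynomial.C π) ∧
      0 < ord w (gO O K (Option σ) E (MvPolynomial.C π)) ∧
      Idq (algebraMap F E) v w (ord w (gO O K (Option σ) E (MvPolynomial.C π))) := by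
  obtain ⟨v₀, hv, hv1⟩ := gau_exists (frc_gO O K (Option σ)) (mp_prime hπ).1 (mp_prime hπ).2
  obtain ⟨h0, hq⟩ := gau_idq (frc_gO O K (Option σ)) (mp_prime hπ).1 (mp_prime hπ).2 ⟨hv, hv1⟩
    (j := algebraMap _ E) hw
  change 0 < ord w (gO O K (Option σ) E (MvPolynomial.C π)) at h0
  have eF : ∀ p, algebraMap F E (gO O K (Option σ) F p) = gO O K (Option σ) E p :=
    fun p => (IsScalarTower.algebraMap_apply (RF (Option σ) K) F E _).symm
  have hθ : c₀.χ.eval₂ (gO O K (Option σ) E) (algebraMap F E θ) = 0 := by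
    rw [← show (algebraMap F E).comp _ = _ from RingHom.ext eF, ← Polynomial.hom_eval₂,
      ← Polynomial.eval₂_map, show c₀.χ.map _ = c.χ from hc.χ.symm, hF.1, map_zero]
  have hfix : ∀ g ∈ Ine (RF (Option σ) K) w, ∀ z, g (algebraMap F E z) = algebraMap F E z := by
    intro g hg z
    have := congrArg (g : E →+* E) hθ
    rw [Polynomial.hom_eval₂, map_zero, show (g : E →+* E).comp _ = gO O K (Option σ) E from
      RingHom.ext fun p => g.commutes _] at this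
    obtain ⟨g', e⟩ := hF.over g (root_eq_of_bez c₀.monic ⟨1, (pow_one c₀.D).symm ▸ c₀.bez⟩ hw.1
      (hw.red_one hD) this hθ (hg.2 _ (trf1_int c₀.monic hw.1 hθ)))
    rw [← e, g'.commutes]
  have hlt := (hw.2 _).2 dvd_rfl
  have hp0 : gO O K (Option σ) E (MvPolynomial.C π) ≠ 0 := fun u => by
    rw [u, ord_zero] at h0
    exact h0.false
  have hp1 : gO O K (Option σ) F (MvPolynomial.C π) ≠ 0 := fun u => hp0 (by rw [← eF, u, map_zero])
  obtain ⟨v, e, ⟨t, ht⟩, he, hi⟩ := exists_nrm (v := w.comap (algebraMap F E)) hp1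
    (by rw [Valuation.comap_apply, eF]; exact hlt.ne)
  have ho : ∀ z, ord w (algebraMap F E z) = e * ord v z := hi.ord
  have t0 : t ≠ 0 := fun u => WithZero.exp_ne_zero (ht.symm.trans ((map_eq_zero v).2 u))
  obtain ⟨y, hy⟩ := nv_fix fun g hg => hfix g hg t
  have y0 : y ≠ 0 := fun u => (map_ne_zero w).2 ((map_ne_zero _).2 t0) (by rw [hy, u]; simp)
  have h1 := ho (gO O K (Option σ) F (MvPolynomial.C π))
  rw [eF] at h1
  have h2 : (e : ℤ) * 1 = e * (ord v (gO O K (Option σ) F (MvPolynomial.C π)) * ord v₀ y) := by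
    rw [← mul_assoc, ← h1, ← ord_eq_of v ht, ← ho,
      (ord_eq_ord w ((map_ne_zero _).2 t0) ((map_ne_zero _).2 y0)).2 hy]
    exact_mod_cast hq y y0
  have h3 : ord v (gO O K (Option σ) F (MvPolynomial.C π)) = 1 :=
    Int.eq_one_of_mul_eq_one_right ((mul_pos_iff_of_pos_left
      (Nat.cast_pos.2 (Nat.pos_of_ne_zero he))).1 (h1 ▸ h0)).le
      (mul_left_cancel₀ (Nat.cast_ne_zero.2 he) h2).symm
  refine ⟨v, ⟨⟨fun a => ((hi.over he) _).1 ((congrArg w (eF a)).trans_le (hw.1 a)), fun a =>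
    ((hi.over he).lt_one _).symm.trans ?_⟩, ?_⟩, h0, fun z _ => ?_⟩
  · exact (eF a ▸ hw.2 a : w (algebraMap F E _) < 1 ↔ _)
  · rw [exp_neg_ord v hp1, h3]
  · rw [ho, h1, h3, mul_one]
    push_cast
    rfl

end

section

variable {k O K κ σ : Type} [Field k] [CommRing O] [IsDomain O] [CDVR O] [Field K]
  [Algebra O K] [IsFractionRing O K] [Field κ] [IsAlgClosed κ] [Fintype σ] {s : ℕ}
  {ρ : O →+* κ} {π : O}

theorem Var.exists_intptF [Algebra k K] {X : Var k} {GG : Set (Fm X.N O)} (hρ : LRes ρ s)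
    (hπ : Irreducible π) (hM : X.Model (K := K) GG)
    (hC : CHvS σ GG) {L : Type} [Field L] [Algebra K L] [Algebra k L] [IsScalarTower k K L]
    (Y : LExt K ρ s L) {x : Fin (X.N + 1) → L} (hx : X.On x) :
    ∃ (c₁ : Chart O σ X.N GG) (Φ₁ : MP σ O) (y : Option σ → Y.R) (z : Y.R) (u : L),
      IsUnit (c₁.d : O) ∧ c₁.SM Φ₁ ∧ ev (algebraMap O Y.R) y z c₁.χ = 0 ∧
      IsUnit (MvPolynomial.eval₂ (algebraMap O Y.R) y (c₁.brs Φ₁)) ∧ u ≠ 0 ∧
      (fun j => algebraMap Y.R L (c₁.pv (algebraMap O Y.R) y z j)) = u • x ∧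
      ¬MvPolynomial.C π ∣ Φ₁ ∧ ¬MvPolynomial.C π ∣ c₁.brs Φ₁ := by
  obtain ⟨u, y₀, hu, hy, i₀, hi⟩ := exists_prim (R := Y.R) hx.1
  have me : ∀ {Ω ι : Type} [Field Ω] (τ : Y.R →+* Ω) (y : ι → Y.R) (G : MP ι O),
      MvPolynomial.eval₂ (τ.comp (algebraMap O Y.R)) (fun i => τ (y i)) G =
        τ (MvPolynomial.eval₂ (algebraMap O Y.R) y G) := fun τ y G =>
    (MvPolynomial.eval₂_comp_left τ _ y G).symm
  have z1 : Zer (X.IK K) (algebraMap K L) x := Zer.map_image.2 fun G hG => by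
    rw [← IsScalarTower.algebraMap_eq]
    exact hx.2 G hG
  have z2 : Zer GG ((algebraMap Y.R L).comp (algebraMap O Y.R))
      fun i => algebraMap Y.R L (y₀ i) := fun G hG => by
    obtain ⟨m, hm⟩ := hM.1 G hG
    have := z1.span (hM.2 ▸ Ideal.subset_span (Set.mem_image_of_mem _ hG))
    rw [MvPolynomial.eval₂_map, ← show (algebraMap Y.R L).comp (algebraMap O Y.R) =
      (algebraMap K L).comp (algebraMap O K) from RingHom.ext Y.tow] at this
    rw [funext hy, fld_scale hm, this, mul_zero]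
  have z3 : Zer GG (algebraMap O Y.R) y₀ := fun G hG =>
    (map_eq_zero_iff _ (IsFractionRing.injective Y.R L)).1 ((me _ _ G).symm.trans (z2 G hG))
  have un : ∀ a, Y.ρ a ≠ 0 → IsUnit a := fun a ha => not_not.1 fun e => ha ((Y.res.ker a).2 e)
  obtain ⟨c, Φ, hδ, hsm, h1, h2⟩ := hC κ _ _
    (fun e => (Y.res.ker _).1 (congrFun e i₀) hi) (z3.comp Y.ρ)
  have h3 := un _ (me Y.ρ _ _ ▸ h1)
  obtain ⟨w, hw⟩ := h3.exists_right_inv
  let y : Option σ → Y.R := fun i => MvPolynomial.eval₂ (algebraMap O Y.R) y₀ (c.f (some i)) * w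
  let z := MvPolynomial.eval₂ (algebraMap O Y.R) y₀ c.th * w
  have h4 : ∀ {Ω : Type} [Field Ω] (τ : Y.R →+* Ω),
      (c.xi (τ.comp (algebraMap O Y.R)) (fun i => τ (y₀ i)) = fun i => τ (y i)) ∧
        c.tht (τ.comp (algebraMap O Y.R)) (fun i => τ (y₀ i)) = τ z := fun τ => by
    have e := eq_inv_of_mul_eq_one_right ((map_mul τ _ _).symm.trans
      ((congrArg τ hw).trans (map_one τ)))
    exact ⟨funext fun i => by rw [Chart.xi, me, me, map_mul, e, div_eq_mul_inv],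
      by rw [Chart.tht, me, me, map_mul, e, div_eq_mul_inv]⟩
  rw [(h4 Y.ρ).1] at h2
  have h5 := un _ (me Y.ρ _ _ ▸ h2)
  obtain ⟨r, hr⟩ := (c.toPChart.bez_brs Φ).2
  obtain ⟨h6, -, u', hu', h7⟩ := Chart.Off.coord (c := c) (Θ := c.brs Φ) ⟨by
    rw [me]; exact (h3.map _).ne_zero, by rw [(h4 _).1, me]; exact (h5.map _).ne_zero⟩ z2 hr
  rw [(h4 _).1, (h4 _).2] at h6 h7
  have h8 : ¬MvPolynomial.C π ∣ c.brs Φ := fun ⟨g, hg⟩ => h2 (by
    rw [hg, MvPolynomial.eval₂_mul, MvPolynomial.eval₂_C,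
      RingHom.comp_apply, Y.cmp, (hρ.ker π).2 hπ.not_isUnit, zero_mul])
  refine ⟨c, Φ, y, z, u' * u, hδ, hsm, (map_eq_zero_iff _ (IsFractionRing.injective Y.R L)).1
    ((map_ev _ _ _ _ _).trans h6), h5, mul_ne_zero hu' hu, funext fun j => ?_,
    fun e => h8 ?_, h8⟩
  · refine (map_ev _ _ _ _ _).trans ((congrFun h7 j).trans ?_)
    simp only [Pi.smul_apply, smul_eq_mul, hy, mul_assoc]
  · have := map_dvd (MvPolynomial.rename (R := O) (some : σ → Option σ)) e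
    rw [MvPolynomial.rename_C] at this
    exact this.mul_left _

/-- the special fibre and its fibre curve over the origin are irreducible -/
theorem xh_irr (hI : IRRO) (hρ : KerM ρ) {N : ℕ} {GG : Set (Fm N O)}
    (hGG : ∀ G ∈ GG, ∃ m, G.IsHomogeneous m) {c₀ : Chart O σ N GG} {c : PChart K σ}
    (hc : c₀.toPChart.IsMap (algebraMap O K) c) (hG : c.GI) {Φ : MP σ O} (hsm : c₀.SM Φ) :
    (Φ.map ρ ≠ 0 → Irreducible (mq ρ c₀.χ)) ∧ (IsUnit (MvPolynomial.constantCoeff Φ) →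
      Irreducible ((c₀.χ.map (line (RingHom.id O) 0 (eT σ O))).map (Polynomial.mapRingHom ρ))) := by
  refine ⟨fun h => ?_, fun h => ?_⟩
  · obtain ⟨b, hb⟩ : ∃ b : σ → κ, MvPolynomial.eval b (Φ.map ρ) ≠ 0 := by
      by_contra hn
      exact h (MvPolynomial.funext fun b => (not_not.1 (not_exists.1 hn b)).trans (map_zero _).symm)
    have h1 := hI O K κ σ N GG c₀ c Φ ρ b hGG hc hG hsm hρ (by rwa [← MvPolynomial.eval_map])
    refine (c₀.monic.map _).irreducible_of_irreducible_map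
      (line (RingHom.id κ) (fun i => i.elim 0 b) (eT σ κ)) _ ?_
    rwa [Polynomial.map_map,
      show (line (RingHom.id κ) (fun i => i.elim 0 b) (eT σ κ)).comp (MvPolynomial.map ρ) =
        line ρ (fun i => i.elim 0 b) (eT σ κ) from
      MvPolynomial.ringHom_ext (fun r => by simp [line]) fun i => by simp [line]]
  · have h1 := hI O K κ σ N GG c₀ c Φ ρ 0 hGG hc hG hsm hρ (by
      rw [← MvPolynomial.coe_eval₂Hom, MvPolynomial.eval₂Hom_zero_apply]
      exact (h.map ρ).ne_zero)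
    rwa [Polynomial.map_map, show (Polynomial.mapRingHom ρ).comp (line (RingHom.id O) 0 (eT σ O)) =
        line ρ (fun i => i.elim 0 (0 : σ → κ)) (eT σ κ) from
      MvPolynomial.ringHom_ext (fun r => by simp [line]) fun i => by cases i <;> simp [line]]

end

end Pool.Agent.ZCy
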