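import Pool.Agent.Lib.MP_751085_ag.ZF.T.Defs
import Pool.Agent.Lib.MP_751085_ag.ZF.T.Gen
import Pool.Agent.Lib.MP_751085_ag.ZF.R3

/-! Geometrically trivial residues come from the constants. -/

namespace Pool.Agent.ZCy.F

open scoped Classical Polynomial

variable {O K κ σ F : Type} [CommRing O] [IsDomain O] [IsDiscreteValuationRing O] [Field K]
  [Algebra O K] [IsFractionRing O K] [Field κ] [IsAlgClosed κ] [Fintype σ] [Field F]
  [Algebra (RF (Option σ) K) F] {s : ℕ} {π : O} {ρ : O →+* κ} {c₀ : PChart O σ} {c : PChart K σ}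
  {θ : F} {v : Vl F} {a : BR F} {θ₀ : OB (Option σ) κ} {ρ₀ : v.integer →+* OB (Option σ) κ}

set_option linter.unusedSectionVars false

theorem genR_const (hs : FinB κ s) (hρ : LRes ρ s) (g : GenR K π ρ θ v θ₀ ρ₀) (h : XH π ρ c₀ c θ)
    (ha : HasRes v a) (h0 : ∀ γ : OB (Option σ) κ ≃ₐ[RF (Option σ) κ] OB (Option σ) κ,
      γ θ₀ = θ₀ → ResAt v ρ₀ a γ.toRingEquiv 0) : ∃ q₀, ConstR K ρ s v (Option σ) a q₀ := by
  obtain ⟨φ, γ₀, hφ, h1, h2⟩ := g.exists_frobF hs hρ h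
  obtain ⟨q₀, hq⟩ := ha.resAt g.red
    (g.fixF h (fun Q => (h2 _).trans (congrArg _ (tgeo1_map hρ hφ Q))) h1)
  have hp : ∀ f : ℕ, (∀ x, (γ₀ ^ f) (toE (MP (Option σ) κ) _ (MvPolynomial.C x)) =
      toE (MP (Option σ) κ) _ (MvPolynomial.C (x ^ s ^ f))) ∧
      (∀ i, (γ₀ ^ f) (toE (MP (Option σ) κ) _ (MvPolynomial.X i)) =
        toE (MP (Option σ) κ) _ (MvPolynomial.X i)) ∧ (γ₀ ^ f) θ₀ = θ₀ ∧
      ResAt v ρ₀ a (γ₀ ^ f) (f • q₀) := fun f => by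
    induction f with
    | zero => exact ⟨fun x => by simp, fun _ => rfl, rfl, (zero_nsmul q₀).symm ▸ h0 1 rfl⟩
    | succ f ih =>
      rw [pow_succ γ₀, succ_nsmul]
      refine ⟨fun x => ?_, fun i => ?_, ?_, ih.2.2.2.mul hq⟩
      · rw [RingAut.mul_apply, h2, MvPolynomial.map_C, ih.1, RingHom.coe_coe, hφ, ← pow_mul,
          pow_succ']
      · rw [RingAut.mul_apply, h2, MvPolynomial.map_X, ih.2.1]
      · rw [RingAut.mul_apply, h1, ih.2.2.1]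
  refine ⟨q₀, fun 𝕂 _ _ β ρ' γ f h3 h4 h5 h6 => ?_⟩
  obtain ⟨B, rfl, hB⟩ := g.factorF hs h h3 h4
  obtain ⟨e1, e2, e3, e4⟩ := hp f
  have e5 : ∀ i, ρ₀ ⟨_, g.cen.1.1 (MvPolynomial.X i)⟩ = toE (MP (Option σ) κ) _ (MvPolynomial.X i) :=
    fun i => (g.base _ _ rfl).trans (congrArg (toE _ _) (MvPolynomial.map_X ρ i))
  obtain ⟨τ, hτ⟩ := exists_twist (K := RF (Option σ) κ) (B.comp (γ₀ ^ f).toRingHom)
    (γ.toRingHom.comp B) (RingHom.congr_fun (f := (γ.toRingHom.comp B).comp (algebraMap _ _))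
      (g := (B.comp (γ₀ ^ f).toRingHom).comp (algebraMap _ _))
      (IsLocalization.ringHom_ext (nonZeroDivisors (MP (Option σ) κ))
        (MvPolynomial.ringHom_ext (fun x => ((congrArg γ (hB x)).trans (h6 x)).trans
          ((hB _).symm.trans (congrArg B (e1 x).symm))) fun i =>
            ((congrArg (fun z => γ (B z)) (e5 i).symm).trans (h5 _)).trans
              (congrArg B ((e5 i).trans (e2 i).symm)))))
  have e6 : ρ₀ ⟨θ, h.le g.cen.1⟩ = θ₀ := g.th _ rfl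
  have e7 : τ θ₀ = θ₀ := (γ₀ ^ f).injective (B.injective ((hτ θ₀).symm.trans (by
    rw [e3, ← e6]
    exact h5 _)))
  exact (add_zero (f • q₀) ▸ e4.mul (h0 τ e7)).comp B hτ

theorem genR_link (g : GenR K π ρ θ v θ₀ ρ₀) (h : XH π ρ c₀ c θ) {Θ : MP (Option σ) O}
    (hb : Bez c₀.χ Θ) {y : Option σ → κ} {z : κ} (hy : MvPolynomial.eval₂ ρ y Θ ≠ 0) {φ : κ →+* κ}
    {γ : OB (Option σ) κ ≃+* OB (Option σ) κ} (hl : PtLink y z φ θ₀ γ)
    {Γ : FP (Option σ) κ ≃+* FP (Option σ) κ} (hΓ : CoefL φ Γ) {ρ' : v.integer →+* FP (Option σ) κ}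
    (h2 : AtPt K ρ θ ρ' y z) {q q' : AddCircle (1 : ℚ)} (hq : ResAt v ρ₀ a γ q)
    (hq' : ResAt v ρ' a Γ q') : q' = q := by
  obtain ⟨𝕂, _, _, β, β', γ', T, e1, e2, e3, e4, e5⟩ := hl
  obtain ⟨r1, T', t1, t2⟩ := h2
  have e6 : β.comp ((toE (MP (Option σ) κ) _).comp (MvPolynomial.map ρ)) =
      β'.comp ((ps _ κ).comp (tay ρ y)) := RingHom.ext fun Q =>
    (e3 _).trans (by rw [tay_map]; rfl)
  have hi : Function.Injective (ps (Option σ) κ) := IsFractionRing.injective _ _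
  have e7 : β'.comp ρ' = β.comp ρ₀ := by
    refine h.red_ext g.cen.1 (g.red.tcomp β) (fun Q u hu => ?_) fun u hu => ?_
    · rw [RingHom.comp_apply, RingHom.comp_apply, r1 Q u hu, g.base Q u hu]
      exact (DFunLike.congr_fun e6 Q).symm
    · have h3 : c₀.χ.eval₂ (tay ρ y) T' = 0 := hi (by
        rw [Polynomial.hom_eval₂, ← t2 u hu, h.root g.cen.1 r1 hu, map_zero])
      have h4 : c₀.χ.eval₂ (tay ρ y) T = 0 := hi (β'.injective (by
        rw [Polynomial.hom_eval₂, Polynomial.hom_eval₂, ← e4, ← e6, ← Polynomial.hom_eval₂,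
          g.rootF h, map_zero, map_zero, map_zero]))
      have h5 := ps_root_uniq _ h3 h4 (t1.trans e5.symm) ((hb.unit _ h3 (by
        rw [MvPowerSeries.isUnit_iff_constantCoeff, cc_tay]
        exact hy.isUnit)).map _)
      rw [RingHom.comp_apply, RingHom.comp_apply, t2 u hu, g.th u hu, e4, h5]
  have e8 := fp_ext (Γ := (γ' : 𝕂 →+* 𝕂).comp β') (Γ' := β'.comp (Γ : _ →+* _)) fun f =>
    (e2 f).trans (congrArg β' (hΓ f).symm)
  exact ResAt.uniq (e7 ▸ hq'.comp β' (DFunLike.congr_fun e8)) (hq.comp β e1)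

end Pool.Agent.ZCy.F
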