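import Pool.Agent.Lib.MP_751085_ag.ZF.T.Rf1
import Pool.Agent.Lib.MP_751085_ag.ZF.L.HK

/-! The generic fibre of a chart. -/

namespace Pool.Agent.ZCy.F

open Pool.Agent.ZFy
open scoped Classical Polynomial

variable {k O K σ : Type} [Field k] [CommRing O] [IsDomain O] [CDVR O] [Field K] [Algebra O K]
  [IsFractionRing O K] [Algebra k K] [Fintype σ] {π : O} {X : Var k} {GG : Set (Fm X.N O)}

omit [IsDomain O] [CDVR O] [IsFractionRing O K] [Fintype σ] in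
theorem tfkx_brs {c₀ : PChart O σ} {c : PChart K σ} (h : c₀.IsMap (algebraMap O K) c)
    (Φ : MP σ O) : c.brs (Φ.map (algebraMap O K)) = (c₀.brs Φ).map (algebraMap O K) := by
  rw [PChart.brs, PChart.brs, map_mul, h.Ψ, up, up, MvPolynomial.map_rename]

/-- a tame representation of the class on a given function field -/
theorem kx_rep (H : THyp) (hE : EvApi X) (hM : X.Model (K := K) GG)
    {c₀ : Chart O σ X.N GG} (A : X.KX K c₀) {Φ₀ : MP σ O} (hsm : c₀.SM Φ₀) (hπ : Irreducible π)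
    (hΦ : ¬MvPolynomial.C π ∣ Φ₀) {cl : BR X.F} (hcl : cl ∈ X.Bw) {l : ℕ} (hl : l.Prime)
    (hu : IsUnit (l : O)) (h0 : Prim l cl) :
    Nonempty (TRep K π (c₀.brs Φ₀) A.F (rs A.γ cl)) := by
  have h := H.kt O K σ c₀.toPChart Φ₀ A.c.toPChart π A.F A.θ l A.map.p hπ hΦ A.gi A.ff.ff
    (H.gm O σ X.N GG c₀ Φ₀ hM.1 hsm) hl hu (rs A.γ cl) ⟨h0.choose, (map_nsmul (rs A.γ) _ cl).symm.trans
      ((congrArg _ h0.choose_spec).trans (map_zero _))⟩ (lf_hk1 hE A.ff hcl)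
      (lf_hk2 hE A.ff A.gi hcl)
  rw [tfkx_brs A.map.p] at h
  obtain ⟨R, h1, ⟨r, h2⟩, h3⟩ := h
  exact exists_tRep hπ R h1 (by rw [h2, Nat.cast_pow]; exact hu.pow r) h3

omit [IsDomain O] [CDVR O] [IsFractionRing O K] in
/-- the chart over `K` and its function field -/
theorem kx_ex (hC : CHFp) {n : ℕ} (hX : X.Nice n) (hσ : Fintype.card σ + 1 = n)
    (hM : X.Model (K := K) GG) (c₀ : Chart O σ X.N GG) : Nonempty (X.KX K c₀) := by
  obtain ⟨c, hc⟩ := c₀.exists_map (algebraMap O K) (GG' := X.IK K)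
    (fun G hG => hM.2 ▸ Ideal.subset_span hG) fun Ω _ ψ x hx =>
      Zer.map_image.1 fun G hG => hx.span (hM.2 ▸ Ideal.subset_span hG)
  obtain ⟨hG, F, _, _, _, θ, γ, hF⟩ := lf_fld hC hX c hσ
  exact ⟨⟨c, F, θ, γ, hc, hG, hF⟩⟩

/-- the chart over `K`, its function field, and a tame representation of the class -/
theorem exists_kx [Infinite k] (H : THyp) {n : ℕ} (hX : X.Nice n) (hσ : Fintype.card σ + 1 = n)
    (hM : X.Model (K := K) GG) (c₀ : Chart O σ X.N GG) (Φ₀ : MP σ O) (hsm : c₀.SM Φ₀)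
    (hπ : Irreducible π) (hΦ : ¬MvPolynomial.C π ∣ Φ₀) {cl : BR X.F} (hcl : cl ∈ X.Bw) {l : ℕ}
    (hl : l.Prime) (hu : IsUnit (l : O)) (h0 : Prim l cl) :
    ∃ A : X.KX K c₀, Nonempty (TRep K π (c₀.brs Φ₀) A.F (rs A.γ cl)) :=
  (kx_ex H.chf hX hσ hM c₀).elim fun A =>
    ⟨A, kx_rep H (H.ev k X n hX (by omega)) hM A hsm hπ hΦ hcl hl hu h0⟩

end Pool.Agent.ZCy.F
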