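import Pool.Agent.Lib.MP_751085_ag.ZF.T.Pure

/-! The decomposition group at the generic point of a line. -/

namespace Pool.Agent.ZCy

open scoped Classical Polynomial

variable {κ ι K E M : Type} [Field κ] [Fintype ι] [Field K] [Field E] [Field M] [Algebra K E]
  [FiniteDimensional K E] [IsGalois K E] {α : MP ι κ →+* K} {Θ : MP ι κ} {a b : ι → κ}
  {μ : κ[X] →+* M} {W : Vl E}

omit [Fintype ι] in
/-- maps to a domain that agree on the base are conjugate -/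
theorem tfzl_conj {Ω : Type} [CommRing Ω] [IsDomain Ω] (hα : IsFr α) (h0 : Θ ≠ 0)
    (q q' : IntOff (tE E α) Θ →+* Ω) (h : ∀ p, q' (toInt _ Θ p) = q (toInt _ Θ p)) :
    ∃ r : E ≃ₐ[K] E, ∀ x, q' x = q (gI α Θ r x) := by
  obtain ⟨r, _, hr⟩ := (stab_intOff α Θ).place_conj q q' fun a ha => by
    obtain ⟨m, hm⟩ := exists_pow_mul_mem hα a.2
    obtain ⟨c, hc⟩ := fix_intOff_one hα hm fun g => by
      rw [map_mul, map_pow, ha g trivial, RingHom.comp_apply, AlgEquiv.commutes]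
    have e : toInt _ Θ c = toInt _ Θ Θ ^ m * a := Subtype.ext hc
    refine mul_left_cancel₀ (pow_ne_zero m ((tfpu_unit hα h0).map q').ne_zero) ?_
    rw [← map_pow, ← map_mul, ← e, h, e, map_pow, h, map_mul, map_pow]
  exact ⟨r, hr⟩

/-- the expansion at the generic point of the line that induces `W` -/
theorem zl_hom (hα : IsFr α) (hu : UnrOff K (tE E α) Θ) (h0 : b ≠ 0) (hμ : IsFr μ)
    (hΘ : line (RingHom.id κ) a b Θ ≠ 0) (h1 : ∀ p, W (tE E α p) ≤ 1)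
    (h2 : ∀ p, W (tE E α p) < 1 ↔ line (RingHom.id κ) a b p = 0) :
    ∃ (M' : Type) (_ : Field M') (_ : Algebra M M') (_ : FiniteDimensional M M') (_ : IsGalois M M')
      (β : IntOff (tE E α) Θ →+* MvPowerSeries ι M'), (∀ p, β (toInt _ Θ p) =
        MvPowerSeries.map (algebraMap M M') (pt (μ.comp Polynomial.C) (lpt μ a b) p)) ∧
      ∀ x : IntOff (tE E α) Θ, W (x : E) ≤ 1 ∧
        (MvPowerSeries.constantCoeff (β x) = 0 ↔ W (x : E) < 1) := by
  obtain ⟨M', _, _, _, _, β, hβ⟩ := znp_hom hα hu (μ.comp Polynomial.C) (lpt μ a b) (by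
    rw [eval₂_lpt, map_ne_zero_iff _ hμ.1]; exact hΘ)
  obtain ⟨k, _, ρ, hρ, -⟩ := exists_resf W
  have hx : ∀ x : IntOff (tE E α) Θ, W x ≤ 1 := fun x =>
    le_one_of_intOff hα (j := RingHom.id E) h1 ((h1 Θ).eq_of_not_lt (mt (h2 Θ).1 hΘ)) x.2
  let q := (algebraMap k (AlgebraicClosure k)).comp
    (ρ.comp ((IntOff (tE E α) Θ).subtype.codRestrict W.integer hx))
  have hq : ∀ x, q x = 0 ↔ W x < 1 := fun x =>
    (map_eq_zero (algebraMap k (AlgebraicClosure k))).trans (hρ ⟨x, hx x⟩)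
  have hk : ∀ p, q (toInt _ Θ p) = 0 ↔ line (RingHom.id κ) a b p = 0 := fun p =>
    (hq _).trans (h2 p)
  let φ := (line (RingHom.id κ) a b).liftOfSurjective (vz1o_surj h0)
    ⟨q.comp (toInt _ Θ), fun p hp => (hk p).2 hp⟩
  have hφ : ∀ p, φ (line (RingHom.id κ) a b p) = q (toInt _ Θ p) := fun p =>
    RingHom.liftOfRightInverse_comp_apply _ _ _ _ p
  obtain ⟨ψ, hψ⟩ := hμ.exists_lift (β := φ) ((injective_iff_map_eq_zero φ).2 fun f hf => by
    obtain ⟨p, rfl⟩ := vz1o_surj (a := a) h0 f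
    exact (hk p).1 ((hφ p).symm.trans hf))
  obtain ⟨j, hj⟩ := exists_emb (E := M') ψ
  obtain ⟨r, hr⟩ := tfzl_conj hα (fun e => hΘ (by rw [e, map_zero]))
    (j.comp (MvPowerSeries.constantCoeff.comp β)) q fun p => by
      rw [RingHom.comp_apply j, RingHom.comp_apply _ β, hβ, MvPowerSeries.constantCoeff_map,
        constantCoeff_pt, eval₂_lpt, hj, hψ, hφ]
  refine ⟨M', _, _, ‹_›, ‹_›, β.comp (gI α Θ r),
    fun p => (congrArg β (Subtype.ext (r.commutes _))).trans (hβ p), fun x => ⟨hx x, ?_⟩⟩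
  rw [← hq, hr]
  exact (map_eq_zero j).symm

/-- an element that keeps the kernel of the residue map acts through the coefficients -/
theorem tfzl_onto (hα : IsFr α) (hu : UnrOff K (tE E α) Θ) (h0 : b ≠ 0) (hμ : IsFr μ)
    (hΘ : line (RingHom.id κ) a b Θ ≠ 0) {M' : Type} [Field M'] [Algebra M M']
    [Normal M M'] (β : IntOff (tE E α) Θ →+* MvPowerSeries ι M')
    (hβ : ∀ p, β (toInt _ Θ p) =
      MvPowerSeries.map (algebraMap M M') (pt (μ.comp Polynomial.C) (lpt μ a b) p))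
    {g : E ≃ₐ[K] E} (hg : ∀ x, MvPowerSeries.constantCoeff (β (gI α Θ g x)) = 0 ↔
      MvPowerSeries.constantCoeff (β x) = 0) : ∃ γ : M' ≃ₐ[M] M', ∀ x,
      β (gI α Θ g x) = MvPowerSeries.map (γ : M' →+* M') (β x) := by
  have : IsDomain (MvPowerSeries ι M') := NoZeroDivisors.to_isDomain _
  set ρ := MvPowerSeries.constantCoeff.comp β with hρ
  have h1 : ∀ p, ρ (toInt _ Θ p) = algebraMap M M' (μ (line (RingHom.id κ) a b p)) := fun p => by
    rw [hρ, RingHom.comp_apply, hβ, MvPowerSeries.constantCoeff_map, constantCoeff_pt, eval₂_lpt]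
  have h2 : ∀ p, ρ (toInt _ Θ p) = 0 ↔ line (RingHom.id κ) a b p = 0 := fun p => by
    rw [h1, map_eq_zero, map_eq_zero_iff _ hμ.1]
  have h3 : ∀ p, gI α Θ g (toInt _ Θ p) = toInt _ Θ p := fun p => Subtype.ext (g.commutes _)
  obtain ⟨γ, hγ⟩ := exists_aut_of_ker (M := M) ρ (ρ.comp (gI α Θ g)) hg fun c => by
    obtain ⟨p, q, hq, e⟩ := hμ.2 c
    obtain ⟨p, rfl⟩ := vz1o_surj (a := a) h0 p
    obtain ⟨q, rfl⟩ := vz1o_surj (a := a) h0 q
    exact ⟨toInt _ Θ p, toInt _ Θ q, mt (h2 q).1 hq, congrArg ρ (h3 p), congrArg ρ (h3 q),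
      by rw [h1, h1, ← map_mul, e]⟩
  refine ⟨γ, fun x => (flat_unique hα (fun e => hΘ (by rw [e, map_zero])) hu β
    ((MvPowerSeries.map (γ : M' →+* M')).comp β) (vz1o_pt hβ ▸ flat_pt (flat_field _))
    (vz1o_pt hβ ▸ pt_inj (RingHom.injective _)) (fun p => ?_) MvPowerSeries.constantCoeff
    (fun x => ?_) x).symm⟩
  · rw [RingHom.comp_apply, hβ, ← RingHom.comp_apply (MvPowerSeries.map _),
      ← MvPowerSeries.map_comp, show (γ : M' →+* M').comp (algebraMap M M') = algebraMap M M' from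
        RingHom.ext γ.commutes]
  · exact (hγ x).symm

/-- the decomposition group acts through the residue field -/
theorem zlF [Algebra (RF ι κ) E] [FiniteDimensional (RF ι κ) E] [IsGalois (RF ι κ) E]
    (hu : UnrOff (RF ι κ) (toE (MP ι κ) E) Θ) (h0 : b ≠ 0) (hΘ : line (RingHom.id κ) a b Θ ≠ 0)
    (h1 : ∀ p, W (toE (MP ι κ) E p) ≤ 1)
    (h2 : ∀ p, W (toE (MP ι κ) E p) < 1 ↔ line (RingHom.id κ) a b p = 0)
    {g : E ≃ₐ[RF ι κ] E} (hg : g ∈ Dec (RF ι κ) W) : LineG E a b g := by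
  have hα := isFr_alg (MP ι κ) (RF ι κ)
  have hμ := isFr_alg κ[X] (RatFunc κ)
  obtain ⟨M, _, _, _, _, β, hβ, hW⟩ := zl_hom hα hu h0 hμ hΘ h1 h2
  have : IsDomain (MvPowerSeries ι M) := NoZeroDivisors.to_isDomain _
  obtain ⟨j, hj⟩ := exists_embT hα β (vz1o_pt hβ ▸ pt_inj (RingHom.injective _))
  obtain ⟨γ, hγ⟩ := tfzl_onto hα hu h0 hμ hΘ β hβ (g := g) fun x => by
    rw [(hW _).2, (hW _).2, coe_gI, hg]
  refine ⟨M, _, _, ‹_›, ‹_›, j, γ, fun Q => (hj (toInt _ Θ Q)).trans (congrArg _ ((hβ Q).trans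
    ((map_tay _ _ _ Q).trans ?_))), fun Γ hΓ x => ?_⟩
  · congr 2
    funext i
    simp [lpt, tpt]
  · obtain ⟨p, hp, hx⟩ := exists_mul_mem_intOff hα x
    let z : IntOff (toE (MP ι κ) E) Θ := ⟨_, intOff_mono (n := 0) (one_dvd _) hx⟩
    have e1 : ∀ y : IntOff (toE (MP ι κ) E) Θ, j (g y) = Γ (j y) := fun y =>
      (hj (gI _ Θ g y)).trans ((congrArg _ (hγ y)).trans ((hΓ _).symm.trans
        (congrArg Γ (hj y).symm)))
    have e2 := e1 z
    have e3 := e1 (toInt _ Θ p)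
    simp only [z, map_mul, coe_toInt] at e2 e3
    rw [← e3] at e2
    exact mul_left_cancel₀ (by simpa [map_eq_zero_iff _ hα.1] using hp) e2

end Pool.Agent.ZCy
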