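import Pool.Agent.Lib.MP_751085_ag.ZF.T.Arc
import Pool.Agent.Lib.MP_751085_ag.ZF.T.Zl

/-! A nontrivial character of the special fibre is nontrivial on the fibre curve. -/

namespace Pool.Agent.ZCy

open scoped Classical Polynomial

variable {O κ σ : Type} [CommRing O] [Field κ] [Fintype σ] {N : ℕ} {GG : Set (Fm N O)}
  {ρ : O →+* κ} {c₀ : Chart O σ N GG} {θ₀ : OB (Option σ) κ}

theorem tftwo_ev {R E E' ι : Type} [CommRing R] [Field E] [Field E'] (j : E →+* E') {φ : R →+* E}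
    {φ' : R →+* E'} (h : ∀ a, j (φ a) = φ' a) {x : ι → E} {x' : ι → E'} (hx : ∀ l, j (x l) = x' l)
    (p : MP ι R) : j (MvPolynomial.eval₂ φ x p) = MvPolynomial.eval₂ φ' x' p := by
  rw [MvPolynomial.eval₂_comp_left, show j.comp φ = φ' from RingHom.ext h,
    show j ∘ x = x' from funext hx]

theorem tftwo_dec {B Ω F E : Type} [Field B] [Field Ω] [Field F] [Field E] [Algebra B Ω]
    [Normal B Ω] (E₀ : IntermediateField B Ω) [FiniteDimensional B E₀] [IsGalois B E₀] [Algebra B F]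
    [Algebra F E] [Algebra F E₀] [IsScalarTower B F E₀] [Normal F E] {θ : F}
    (hθ : IntermediateField.adjoin B {θ} = ⊤) (i : E →ₐ[F] E₀) {W : Vl E} (hW : Dec F W = ⊤)
    {g₀ : Ω ≃ₐ[B] Ω} (h : g₀ (algebraMap F E₀ θ) = algebraMap F E₀ θ) :
    ∃ (W₀ : Vl E₀) (g : Ω ≃ₐ[B] Ω), Over (i : E →+* E₀) W W₀ ∧ (∀ x, g (i x) = g₀ (i x)) ∧
      g.restrictNormal E₀ ∈ Dec B W₀ := by
  have : FiniteDimensional F E₀ := Module.Finite.of_restrictScalars_finite B F E₀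
  have : IsGalois F E₀ := IsGalois.tower_top_of_isGalois B F E₀
  have hi : Sq (RingHom.id F) (i : E →+* E₀) := i.commutes
  obtain ⟨W₀, ho⟩ : ∃ W₀ : Vl E₀, Over (i : E →+* E₀) W W₀ := by
    let := (i : E →+* E₀).toAlgebra
    have : IsScalarTower F E E₀ := .of_algebraMap_eq fun a => (hi a).symm
    have : FiniteDimensional E E₀ := Module.Finite.of_restrictScalars_finite F E E₀
    exact exists_over W
  let φ : F →ₐ[B] Ω := E₀.val.comp (IsScalarTower.toAlgHom B F E₀)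
  have h1 : ∀ a, g₀ (φ a) = φ a := fun a =>
    (IntermediateField.adjoin_le_iff (T := (RingHom.eqLocusField
      ((g₀ : Ω →+* Ω).comp (φ : F →+* Ω)) (φ : F →+* Ω)).toIntermediateField fun b =>
        (congrArg g₀ (φ.commutes b)).trans ((g₀.commutes b).trans (φ.commutes b).symm))).2
      (Set.singleton_subset_iff.2 h) (hθ ▸ IntermediateField.mem_top)
  obtain ⟨s, hs⟩ := exists_twist (K := F) ((E₀.val : E₀ →+* Ω).comp i)
    ((g₀ : Ω →+* Ω).comp ((E₀.val : E₀ →+* Ω).comp i)) fun a => by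
      change g₀ (i (algebraMap F E a)) = i (algebraMap F E a)
      rw [i.commutes]
      exact h1 a
  obtain ⟨r, hr⟩ := exists_rs hi
  obtain ⟨g, hg, e⟩ := hr.dec_onto hi ho (g := s) (hW ▸ Subgroup.mem_top s)
  refine ⟨W₀, (g.restrictScalars B).liftNormal Ω, ho, fun x => ?_, ?_⟩
  · refine ((g.restrictScalars B).liftNormal_commutes Ω (i x)).trans (Eq.trans ?_ (hs x).symm)
    rw [← e]
    exact congrArg Subtype.val (hr g x).symm
  · rw [AlgEquiv.restrict_liftNormal]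
    exact hg

omit [Fintype σ] in
/-- the cover inside the closure contains the fixed field -/
theorem Chart.CovB.covF {c : Chart O σ N GG} {Θ : MP (Option σ) O}
    {V : (OB (Option σ) κ ≃ₐ[RF (Option σ) κ] OB (Option σ) κ) → Prop} (h : c₀.CovB c Θ ρ θ₀ V)
    {E : Type} [Field E] [Algebra (RF (Option σ) κ) E] [Algebra.IsSeparable (RF (Option σ) κ) E]
    (i : E →ₐ[RF (Option σ) κ] OB (Option σ) κ) {θ : E} (hθ : i θ = θ₀)
    (hV : ∀ γ, V γ → ∀ x, γ (i x) = i x) : c.CovF Θ ρ (cE (Option σ) κ E) (c₀.gpt ρ θ) := by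
  obtain ⟨hne, E', _, _, _, _, B, hU, hc, hX, hr, -, hγ⟩ := h
  choose η hη using hr
  have hZ := (tf_rf B _ η hc hη).2
  obtain ⟨j, hj⟩ := te0b_fac (i : E →+* OB (Option σ) κ) B fun x =>
    tf_mem (B := RF (Option σ) κ) B.fieldRange hZ
      ((Algebra.IsSeparable.isSeparable _ x).map i i.injective)
      fun γ e => hV γ (hγ γ fun y => e _ ⟨y, rfl⟩) x
  have h1 : ∀ p, (i : E →+* OB (Option σ) κ) (toE (MP (Option σ) κ) E p) =
      toE (MP (Option σ) κ) _ p := fun p => i.commutes _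
  have h2 := tftwo_ev (i : E →+* OB (Option σ) κ) (φ := (cE (Option σ) κ E).comp ρ)
    (φ' := (cE (Option σ) κ _).comp ρ) (fun a => h1 _) (x := c₀.gpt ρ θ) (x' := c₀.gpt ρ θ₀)
    fun l => hθ ▸ Chart.gpt_map _ h1 θ l
  refine ⟨fun e => hne ?_, E', inferInstance, inferInstance, inferInstance, inferInstance, j, hU,
    fun a => B.injective ((hj _).trans ((h1 _).trans (hc a).symm)),
    fun l => B.injective ((hj _).trans (Eq.trans ?_ (hX l).symm))⟩
  · rw [← h2, e, map_zero]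
  · rw [Chart.xi, map_div₀, h2, h2, Chart.xi]

/-- a nontrivial character is nontrivial on the fibre curve -/
theorem twoF [IsAlgClosed κ] (hG : ∀ G ∈ GG, ∃ m, G.IsHomogeneous m) (hC : CHvS σ GG)
    {cb : PChart κ σ} (hm : c₀.toPChart.IsMap ρ cb) {l r : ℕ} (hc : cb.ConnP l)
    {Θ : MP (Option σ) κ} (hΘ : line (RingHom.id κ) 0 (eT σ κ) Θ ≠ 0)
    (hθ : cb.χ.eval₂ (toE (MP (Option σ) κ) _) θ₀ = 0)
    (E₀ : IntermediateField (RF (Option σ) κ) (OB (Option σ) κ))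
    [FiniteDimensional (RF (Option σ) κ) E₀] [IsGalois (RF (Option σ) κ) E₀]
    (hU : UnrOff (RF (Option σ) κ) (toE (MP (Option σ) κ) E₀) Θ) (hE : θ₀ ∈ E₀) {A : Type}
    [AddCommGroup A] {V : (OB (Option σ) κ ≃ₐ[RF (Option σ) κ] OB (Option σ) κ) → A → Prop}
    (hV : IsChar θ₀ (l ^ r) V) (h1 : ∀ γ, (∀ x ∈ E₀, γ x = x) → V γ 0)
    (h2 : ∀ (c : Chart O σ N GG) (Φ : MP σ O), IsUnit (c.d : O) → c.SM Φ → Φ.map ρ ≠ 0 →
      c₀.CovB c (c.brs Φ) ρ θ₀ (V · 0))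
    {g₀ : OB (Option σ) κ ≃ₐ[RF (Option σ) κ] OB (Option σ) κ} (h3 : g₀ θ₀ = θ₀) (h4 : ¬V g₀ 0) :
    ∃ g : OB (Option σ) κ ≃ₐ[RF (Option σ) κ] OB (Option σ) κ, g θ₀ = θ₀ ∧ ¬V g 0 ∧
      LineG E₀ 0 (eT σ κ) (g.restrictNormal E₀) := by
  obtain ⟨F, E, _, _, _, _, _, _, _, _, _, _, θ, i, hF, e, hp, hi⟩ := e1_field hV E₀ hE h1
  have hB : ∀ a, i (algebraMap (RF (Option σ) κ) E a) = algebraMap _ E₀ a := fun a => by
    rw [IsScalarTower.algebraMap_apply _ F E, i.commutes, ← IsScalarTower.algebraMap_apply]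
  let i' : E →ₐ[RF (Option σ) κ] E₀ := ⟨i, hB⟩
  have : Algebra.IsSeparable (RF (Option σ) κ) E := Algebra.IsSeparable.of_algHom _ _ i'
  let φ : F →ₐ[RF (Option σ) κ] OB (Option σ) κ := E₀.val.comp (IsScalarTower.toAlgHom _ F E₀)
  have hF' : cb.FF F θ := ⟨φ.injective <| by
    change (φ : F →+* OB (Option σ) κ) _ = _
    rw [Polynomial.hom_eval₂, map_zero, show (φ : F →+* OB (Option σ) κ) θ = θ₀ from e, ← hθ]
    exact congrArg (Polynomial.eval₂ · θ₀ cb.χ) (RingHom.ext fun p => φ.commutes _), hF⟩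
  have e' : (i (algebraMap F E θ) : OB (Option σ) κ) = θ₀ := by rw [i.commutes, e]
  have hA : AllCov σ GG ρ (cE (Option σ) κ E) (c₀.gpt ρ (algebraMap F E θ)) :=
    fun c Φ a b d => (h2 c Φ a b d).covF (E₀.val.comp i') e'
      fun γ hγ => (hi γ (hV.fix γ 0 hγ)).1 hγ
  obtain ⟨W, w1, w2, hW⟩ := hc F E θ hF' (fun g => ⟨r, hp g⟩) (tf_unr hG hC hm hF' hA)
    (tf_arc hG hC hm hF' hA)
  obtain ⟨W₀, g, ho, hg, hd⟩ := tftwo_dec E₀ hF i hW (g₀ := g₀) (e.symm ▸ h3)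
  have hp' : ∀ p, toE (MP (Option σ) κ) E₀ p = (i : E →+* E₀) (toE (MP (Option σ) κ) E p) :=
    fun p => (hB _).symm
  have h5 : g θ₀ = θ₀ := by rw [← e', hg, e', h3]
  refine ⟨g, h5, fun h => h4 ((hi g₀ h3).2 fun x => (hg x).symm.trans ((hi g h5).1 h x)),
    zlF (W := W₀) hU (fun h => ?_) hΘ (fun p => ?_) (fun p => ?_) hd⟩
  · simpa using congrFun h none
  · rw [hp', ho]
    exact w1 p
  · rw [hp', ho.lt_one]
    exact w2 p

end Pool.Agent.ZCy
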