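import Pool.Agent.Lib.MP_751085_ag.ZF.T.E0
import Pool.Agent.Lib.MP_751085_ag.ZF.T.Geo1
import Pool.Agent.Lib.MP_751085_ag.ZF.T.G3
import Pool.Agent.Lib.MP_751085_ag.ZF.T.Kx
import Pool.Agent.Lib.MP_751085_ag.ZF.T.Chg
import Pool.Agent.Lib.MP_751085_ag.ZF.T.Two
import Pool.Agent.Lib.MP_751085_ag.ZF.C.Trans
import Pool.Agent.Lib.MP_751085_ag.ZF.L.Rep

/-! The residue is constant, or it separates two points of the fibre curve. -/

namespace Pool.Agent.ZCy.F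

open scoped Classical Polynomial

theorem tfge_line {O κ σ : Type} [CommRing O] [Field κ] (ρ : O →+* κ) (c : PChart O σ)
    {Φ : MP σ O} (h : IsUnit (MvPolynomial.constantCoeff Φ)) :
    (line (RingHom.id O) 0 (eT σ O) (c.brs Φ)).map ρ ≠ 0 := by
  have e : line (RingHom.id O) 0 (eT σ O) = (Polynomial.mapRingHom MvPolynomial.constantCoeff).comp
      (MvPolynomial.optionEquivLeft O σ : MP (Option σ) O →+* (MP σ O)[X]) :=
    MvPolynomial.ringHom_ext (fun r => by simp [line]) fun i => by cases i <;> simp [line]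
  have e1 : line (RingHom.id O) 0 (eT σ O) (up Φ) = Polynomial.C (MvPolynomial.constantCoeff Φ) :=
    RingHom.congr_fun (f := (line (RingHom.id O) 0 (eT σ O)).comp (MvPolynomial.rename some).toRingHom)
      (g := Polynomial.C.comp MvPolynomial.constantCoeff)
      (MvPolynomial.ringHom_ext (fun r => by simp [line]) fun i => by simp [line]) Φ
  rw [PChart.brs, map_mul, e1, Polynomial.map_mul, Polynomial.map_C, e]
  exact mul_ne_zero ((c.tm.1.map _).map ρ).ne_zero (Polynomial.C_ne_zero.2 (h.map ρ).ne_zero)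

theorem tfge_brs {O κ σ : Type} [CommRing O] [Field κ] (ρ : O →+* κ) (c : PChart O σ)
    {Φ : MP σ O} (h : Φ.map ρ ≠ 0) : (c.brs Φ).map ρ ≠ 0 := by
  obtain ⟨c', hc⟩ := c.exists_map ρ
  rw [← hc.brs]
  refine mul_ne_zero (fun e => c'.tm.1.ne_zero ?_)
    ((map_ne_zero_iff _ (MvPolynomial.rename_injective _ (Option.some_injective σ))).2 h)
  rw [e]
  exact map_zero _

variable {k O K κ σ : Type} [Field k] [CommRing O] [IsDomain O] [CDVR O] [Field K] [Algebra O K]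
  [IsFractionRing O K] [Algebra k K] [Field κ] [IsAlgClosed κ] [Fintype σ] {s n l : ℕ}
  {ρ : O →+* κ} {π : O} {X : Var k} {GG : Set (Fm X.N O)} {c₀ : Chart O σ X.N GG} {A : X.KX K c₀}
  {v : Vl A.F} {θ₀ : OB (Option σ) κ} {ρ₀ : v.integer →+* OB (Option σ) κ} {cl : BR X.F}

/-- the cover of another chart -/
theorem kx_covB [Infinite k] (H : THyp) (hs : FinB κ s) (hX : X.Nice n) (hσ : Fintype.card σ + 1 = n)
    (hM : X.Model (K := K) GG) (h : XH π ρ c₀.toPChart A.c.toPChart A.θ)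
    (g : GenR K π ρ A.θ v θ₀ ρ₀) (hcl : cl ∈ X.Bw) (hl : l.Prime) (hu : IsUnit (l : O))
    (h0 : Prim l cl) (c : Chart O σ X.N GG) (Φ : MP σ O) (hsm : c.SM Φ) (hΦ : Φ.map ρ ≠ 0) :
    c₀.CovB c (c.brs Φ) ρ θ₀ fun γ => ResAt v ρ₀ (rs A.γ cl) γ.toRingEquiv 0 ∧ γ θ₀ = θ₀ := by
  obtain ⟨A', ⟨T⟩⟩ := exists_kx H hX hσ hM c Φ hsm h.irr (mt (mp_ker h.ker h.irr Φ).2 hΦ) hcl hl hu h0
  have h' : XH π ρ c.toPChart A'.c.toPChart A'.θ := ⟨h.irr, h.ker, A'.map.p, A'.gi, A'.ff.ff,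
    (xh_irr H.irro h.ker hM.1 A'.map.p A'.gi hsm).1 hΦ⟩
  obtain ⟨v', θ₀', ρ₀', g'⟩ := h'.exists_genRF
  obtain ⟨hb, r, hD⟩ := c.toPChart.bez_brs Φ
  obtain ⟨-, E₀, _, _, k1, k2, k3⟩ := exists_E0 hs g' h' hb hD
    (mt (mp_ker h.ker h.irr _).2 (tfge_brs ρ _ hΦ)) T
  obtain ⟨j, B, j1, j2, j3, j4, j5, j6, j7⟩ := chgF g h g' h' fun ρ₁ r1 r2 => g'.factorF hs h' r1 r2
  have m : ∀ x, ρ₀ x ∈ (B.comp (algebraMap E₀ (OB (Option σ) κ))).range := fun x =>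
    (j7 x).elim fun x' e => ⟨⟨_, IntermediateField.adjoin_simple_le_iff.2 k2 (g'.memF h' x')⟩, e.symm⟩
  have m0 := g.th ⟨_, h.le g.cen.1⟩ rfl ▸ m ⟨_, h.le g.cen.1⟩
  refine ⟨j5, E₀, _, _, ‹_›, ‹_›, B.comp (algebraMap E₀ _), k1, j4, j6, fun i => ?_, m0,
    fun γ hγ => ⟨?_, m0.elim fun x e => e ▸ hγ x⟩⟩
  · have := m ⟨_, g.cen.1.1 (MvPolynomial.X i)⟩
    rwa [g.base _ _ rfl, RingHom.comp_apply, MvPolynomial.map_X] at this
  · obtain ⟨γ', e⟩ := exists_aut_res (L := RF (Option σ) κ) B γ.toRingEquiv (RingEquiv.refl _)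
      fun x => hγ (algebraMap _ E₀ x)
    have := nr_map j g'.cen.nrm g.cen.nrm one_pos
      (fun a _ => by rw [Nat.cast_one, one_mul, ord_congr (j2 a)]) g.red j3 e
      (fun x => (m x).elim fun y ey => ey ▸ hγ y)
      (k3 γ' fun x hx => B.injective ((e x).symm.trans (hγ ⟨x, hx⟩)))
    rwa [lf_comp, j1, one_nsmul] at this

theorem kx_geo [Infinite k] (H : THyp) (hs : FinB κ s) (hρ : LRes ρ s) (hX : X.Nice n)
    (hσ : Fintype.card σ + 1 = n) (hM : X.Model (K := K) GG) (hC : CHvS σ GG)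
    (h : XH π ρ c₀.toPChart A.c.toPChart A.θ) (g : GenR K π ρ A.θ v θ₀ ρ₀) {Φ₀ : MP σ O}
    (hsm : c₀.SM Φ₀) (hΦ : IsUnit (MvPolynomial.constantCoeff Φ₀)) (hcl : cl ∈ X.Bw)
    (hl : l.Prime) (hu : IsUnit (l : O)) (h0 : Prim l cl)
    (T : TRep K π (c₀.brs Φ₀) A.F (rs A.γ cl)) :
    (∃ q₀, ConstR K ρ s v (Option σ) (rs A.γ cl) q₀) ∨
      TwoPt K ρ s c₀.χ (c₀.brs Φ₀) 0 (eT σ O) A.θ v (rs A.γ cl) := by
  obtain ⟨hb, r, hD⟩ := c₀.toPChart.bez_brs Φ₀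
  have hv : Nrm v := g.cen.nrm
  have hΦ' : MvPolynomial.constantCoeff (Φ₀.map ρ) ≠ 0 := by
    rw [MvPolynomial.constantCoeff_map]
    exact (hΦ.map ρ).ne_zero
  obtain ⟨hres, E₀, _, _, hU, hθ, htriv⟩ := exists_E0 hs g h hb hD
    (mt (mp_ker h.ker h.irr _).2 (tfge_brs ρ _ fun e => hΦ' (by rw [e, map_zero]))) T
  by_cases hc : ∀ γ : OB (Option σ) κ ≃ₐ[RF (Option σ) κ] OB (Option σ) κ,
      γ θ₀ = θ₀ → ResAt v ρ₀ (rs A.γ cl) γ.toRingEquiv 0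
  · exact Or.inl (genR_const hs hρ g h hres hc)
  obtain ⟨g₁, hc⟩ := not_forall.1 hc
  obtain ⟨hg₁, hne₁⟩ := Classical.not_imp.1 hc
  obtain ⟨cb, hcb⟩ := c₀.exists_map_image ρ
  have fx : ∀ γ : OB (Option σ) κ ≃ₐ[RF (Option σ) κ] OB (Option σ) κ, γ θ₀ = θ₀ →
      ∀ x, γ.toRingEquiv (ρ₀ x) = ρ₀ x := fun γ e => g.fixF h (fun _ => γ.commutes _) e
  obtain ⟨N, hN⟩ := id h0
  have ha : l ^ N • rs A.γ cl = 0 :=
    (map_nsmul (rs A.γ) _ cl).symm.trans ((congrArg _ hN).trans (map_zero _))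
  have hL := tfge_line ρ c₀.toPChart hΦ
  have e0 : (fun i => ρ ((0 : Option σ → O) i)) = 0 := funext fun _ => map_zero ρ
  have e1 : (fun i => ρ (eT σ O i)) = eT σ κ := funext fun i => by cases i <;> simp
  obtain ⟨g₀, hg₀, hne, hG⟩ := twoF hM.1 hC hcb.p (r := N)
    (H.conn κ σ X.N _ cb (Φ₀.map ρ) l (by
      rintro _ ⟨G, hG, rfl⟩
      exact (hM.1 G hG).imp fun _ e => e.map ρ) (irr_ext _ cb.monic (hcb.p.χ ▸ h.red))
      (hsm.map hcb fun G hG => Ideal.subset_span ⟨G, hG, rfl⟩) hΦ' hl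
      (by simpa using (hu.map ρ).ne_zero))
    (Θ := (c₀.brs Φ₀).map ρ) (by
      rw [tcf_map_line, e0, e1] at hL
      exact (MvPolynomial.eval₂Hom_map_hom _ _ _ _).trans_ne hL)
    (θ₀ := θ₀) (by
      rw [hcb.p.χ, Polynomial.coe_mapRingHom, Polynomial.eval₂_map]
      exact g.rootF h) E₀ hU hθ
    (V := fun γ q => ResAt v ρ₀ (rs A.γ cl) γ.toRingEquiv q ∧ γ θ₀ = θ₀)
    ⟨fun _ _ k => k.2, fun γ e => (nr_exists hres g.red (fx γ e)).imp fun _ k => ⟨k, e⟩,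
      fun _ _ _ k k' => nr_uniq hv k.1 k'.1,
      fun _ _ _ _ k k' => ⟨nr_mul hv k.1 k'.1, by rw [AlgEquiv.mul_apply, k'.2, k.2]⟩,
      fun γ _ k => resAt_tors hv g.red (fx γ k.2) k.1 ha⟩
    (fun γ e => ⟨htriv _ e, e _ hθ⟩)
    (fun c Φ _ => kx_covB H hs hX hσ hM h g hcl hl hu h0 c Φ) hg₁ fun k => hne₁ k.1
  obtain ⟨q, hq⟩ := nr_exists hres g.red (fx g₀ hg₀)
  have h1 : ∀ x, ρ x ^ s = ρ x := fun x => (hρ.rng _).1 ⟨x, rfl⟩
  obtain ⟨m, φ, t, z, γ, hm, hφ, hi', hx⟩ := g3bF hs h1 c₀.monic hb hL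
    ((xh_irr H.irro h.ker hM.1 A.map.p A.gi hsm).2 hΦ) (g.rootF h) E₀ hθ g₀ hg₀
    (by rw [e0, e1]; exact hG)
  refine Or.inr ⟨m, t, z, hm, fun i => (hi' i).1, fun φ' Γ ρ' q' hφ' hΓ hh e => hne ⟨?_, hg₀⟩⟩
  obtain rfl : φ' = φ := RingEquiv.ext fun x => (hφ' x).trans (hφ x).symm
  have h2 : (φ' : κ →+* κ).comp ρ = ρ := RingHom.ext fun x => (hφ _).trans (by
    clear hφ hφ' hi' hm
    induction m with
    | zero => rw [pow_zero, pow_one]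
    | succ m ih => rw [pow_succ, pow_mul, ih, h1])
  choose p hp using fun i => nr_exists hres g.red (g.fixF h (γ := γ i)
    (fun Q => by rw [(hi' i).2.2.1, MvPolynomial.map_map, h2]) (hi' i).2.1)
  have h3 : ∀ i, q' i = p i := fun i =>
    genR_link g h hb (hi' i).1.off (hi' i).2.2.2 hΓ (hh i).2.1 (hp i) (hh i).2.2
  have h4 := nr_mul hv (hp 1) (htriv ((γ 1)⁻¹ * (γ 0 * g₀.toRingEquiv)) fun x hx' =>
    (γ 1).symm_apply_eq.2 (hx x hx').symm)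
  rw [mul_inv_cancel_left, ← h3, ← e, h3] at h4
  exact add_left_cancel (nr_uniq hv (nr_mul hv (hp 0) hq) h4) ▸ hq

end Pool.Agent.ZCy.F
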