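import Pool.Agent.Lib.MP_751085_ag.ZF.T.Const
import Pool.Agent.Lib.MP_751085_ag.ZF.T.Geo

/-! The dichotomy for the values of a class at a good place. -/

namespace Pool.Agent.ZCy.F

open scoped Classical

/-- The class is constant on the points, or it separates two points of the fibre curve. -/
theorem dich (H : THyp) {k O K κ σ : Type} [Field k] [Infinite k] [CommRing O] [IsDomain O]
    [CDVR O] [Field K] [Algebra O K] [IsFractionRing O K] [Algebra k K] [Field κ] [IsAlgClosed κ] [Fintype σ] {s : ℕ}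
    {ρ : O →+* κ} (hs : FinB κ s) (hρ : LRes ρ s) (X : Var k) {n : ℕ} (hX : X.Nice n)
    {GG : Set (Fm X.N O)} (hσ : Fintype.card σ + 1 = n) (hM : X.Model (K := K) GG)
    (hC : CHvS σ GG) (c₀ : Chart O σ X.N GG) {Φ₀ : MP σ O} (hsm : c₀.SM Φ₀)
    (hΦ : IsUnit (MvPolynomial.constantCoeff Φ₀)) {cl : BR X.F} (hcl : cl ∈ X.Bw) {l : ℕ}
    (hl : l.Prime) (hu : IsUnit (l : O)) (h0 : Prim l cl) :
    (∃ q₀, CVal X K ρ s cl q₀) ∨ TVal X K ρ s c₀ (c₀.brs Φ₀) 0 (eT σ O) cl := by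
  obtain ⟨π, hπ⟩ := IsDiscreteValuationRing.exists_irreducible O
  have hΦ' : ¬MvPolynomial.C π ∣ Φ₀ := fun h => hπ.not_isUnit (isUnit_of_dvd_unit
    (by simpa using map_dvd MvPolynomial.constantCoeff h) hΦ)
  obtain ⟨A, ⟨T⟩⟩ := exists_kx H hX hσ hM c₀ Φ₀ hsm hπ hΦ' hcl hl hu h0
  have h : XH π ρ c₀.toPChart A.c.toPChart A.θ := ⟨hπ, hρ.ker, A.map.p, A.gi, A.ff.ff,
    (xh_irr H.irro hρ.ker hM.1 A.map.p A.gi hsm).1 (mt (mp_ker hρ.ker hπ _).1 hΦ')⟩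
  obtain ⟨v, θ₀, ρ₀, g⟩ := h.exists_genRF
  obtain ⟨hb, r, hD⟩ := c₀.toPChart.bez_brs Φ₀
  rcases kx_geo H hs hρ hX hσ hM hC h g hsm hΦ hcl hl hu h0 T with ⟨q₀, hq⟩ | ⟨m, t, z, hm, hp, hq⟩
  · exact Or.inl ⟨q₀, const_val H hs hρ hX hσ hM hC A h hcl hl hu h0 g.cen hq⟩
  refine Or.inr ⟨m, t, z, hm, hp, fun L _ _ _ _ _ Y he hf y ζ hy => ?_⟩
  obtain ⟨φ, hφ⟩ := hs.frob m
  obtain ⟨Γ, hΓ⟩ := exists_coefE (ι := Option σ) φ
  have key : ∀ i, ∃ (ρv : v.integer →+* FP (Option σ) κ) (q : AddCircle (1 : ℚ)),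
      (IsRed v ρv ∧ AtPt K ρ A.θ ρv (tpt ρ 0 (eT σ O) (t i)) (z i) ∧
        ResAt v ρv (rs A.γ cl) Γ q) ∧ LInv L Y.ρ (s ^ m) (X.vl cl L
        fun j => algebraMap Y.R L (c₀.pv (algebraMap O Y.R) (y i) (ζ i) j)) q := fun i => by
    have e : (fun j => Y.ρ (y i j)) = tpt ρ 0 (eT σ O) (t i) := funext (hy i).2.1
    have hu : IsUnit (MvPolynomial.eval₂ (algebraMap O Y.R) (y i) (c₀.brs Φ₀)) := by
      by_contra hu
      have h3 := (Y.res.ker _).2 hu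
      rw [MvPolynomial.eval₂_comp_left, show Y.ρ.comp (algebraMap O Y.R) = ρ from
        RingHom.ext Y.cmp, show Y.ρ ∘ y i = _ from e] at h3
      exact (hp i).off h3
    obtain ⟨v', ρv, q, c1, c2, c3, -, c4, c5⟩ :=
      kx_t1 hs hρ hπ (H.ev k X n hX (by omega)) hcl A hb hD T Y (hy i).1 hu (hf ▸ hφ) hΓ
    obtain rfl := h.eq g.cen c1
    rw [e, (hy i).2.2] at c3
    rw [he, hf, one_smul] at c5
    exact ⟨ρv, q, ⟨c2, c3, c4⟩, c5⟩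
  choose ρv q h3 h4 using key
  exact ⟨q, hq φ Γ ρv q hφ hΓ h3, h4⟩

end Pool.Agent.ZCy.F
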