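import Pool.Agent.Lib.MP_751085_ag.ZF.T.Fin
import Pool.Agent.Lib.MP_751085_ag.ZF.T.Dich
import Pool.Agent.Lib.MP_751085_ag.ZF.N.C4
import Pool.Agent.Lib.MP_751085_ag.ZF.C.Trans

/-! The conclusion at a good place. -/

namespace Pool.Agent.ZCy.F

open Pool.Agent.ZFN Module MvPolynomial IsLocalRing
open scoped Classical

theorem tfma_fin {K : Type} [Field K] {w : Vl K} (hw : Nrm w) (h : FinR w) :
    Finite (ResidueField w.integer) := by
  obtain ⟨t, h1, h2⟩ := h
  refine Finite.of_surjective (fun b : t => residue w.integer ⟨b, h1 b b.2⟩) fun x => ?_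
  obtain ⟨a, rfl⟩ := residue_surjective x
  obtain ⟨b, hb, h3⟩ := h2 a a.2
  refine ⟨⟨b, hb⟩, Eq.symm ?_⟩
  rw [← sub_eq_zero, ← map_sub]
  exact (hw.isVR.lt_one _).1 h3

theorem tfma_unit {F₀ K : Type} [Field F₀] [Finite F₀] [Field K] (φ : F₀ →+* K) (O : Subring K)
    {M : ℕ} (hM : (M : K) ≠ 0) : IsUnit (M : O) := by
  have := Fintype.ofFinite F₀
  have h := congrArg φ (FiniteField.pow_card_sub_one_eq_one (M : F₀) fun e => hM (by
    rw [← map_natCast φ, e, map_zero]))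
  rw [map_pow, map_natCast, map_one] at h
  exact IsUnit.of_pow_eq_one (n := Fintype.card F₀ - 1) (Subtype.ext (by simpa using h))
    (Nat.sub_pos_of_lt Fintype.one_lt_card).ne'

theorem tgood_loc (H : THyp) {k K σ : Type} [Field k] [Infinite k] [Field K] [Algebra k K]
    [Fintype σ] {w : Vl K} (hw : Nrm w) (hc : Cpl w) (hf : FinR w) {X : Var k} {n : ℕ} (hX : X.Nice n)
    (hσ : Fintype.card σ + 1 = n) {O₀ : Subring k} (hO : ∀ a ∈ O₀, w (algebraMap k K a) ≤ 1)
    {c : Chart k σ X.N (X.IK k)} {Φ : MP σ k} {C : Gen k X.N} {g : σ → Fm X.N k} {e : ℕ}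
    (hG : X.GoodV c Φ O₀) (hC : X.Cut C g)
    (hg : ∀ i m, w (algebraMap k K (coeff m (g i - c.l0 ^ e * c.f (some (some i))))) < 1) :
    (∃ m₀ : ℕ, ∀ m, m₀ ≤ m → ∃ (L : IntermediateField K (Cb K)) (x : Fin (X.N + 1) → Cb K),
      FiniteDimensional K L ∧ finrank K L = m ∧ (∀ i, x i ∈ L) ∧ C.var.On x) ∧
    ∀ M : ℕ, IsUnit (M : w.integer) → ∀ a ∈ X.Bw, Prim M a →
      (Kills X K a fun x => C.var.On x) → Kills X K a fun x => X.On x := by
  have := hw.isVR.cdvr hc
  have := tfma_fin hw hf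
  obtain ⟨κ, _, _, s, ρ, hs, hρ⟩ := exists_finB w.integer
  obtain ⟨GG, c', Φ', c'', -, hM, hH, m1, m2, -, hsm, u1, u2, -⟩ := hG.base (O := w.integer) (K := K)
    (((algebraMap k K).comp O₀.subtype).codRestrict _ fun a => hO a a.2) fun _ => rfl
  have hl : ∀ i, ∃ q : Fm X.N w.integer, map (algebraMap w.integer K) q =
      map (algebraMap k K) (g i - c.l0 ^ e * c.f (some (some i))) := fun i =>
    mem_range_map_iff_coeffs_subset.2 fun a ha => by
      obtain ⟨m, -, rfl⟩ := mem_coeffs_iff.1 ha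
      exact ⟨⟨_, (hg i m).le⟩, (coeff_map _ _ _).symm⟩
  choose q hq using hl
  have h1 : ∀ i, map (algebraMap w.integer K) (q i + c'.l0 ^ e * c'.f (some (some i))) =
      map (algebraMap k K) (g i) := fun i => by
    rw [map_add, hq, map_sub, map_mul, map_mul, map_pow, map_pow, ← m1.l0, ← m1.f, ← m2.l0, ← m2.f,
      sub_add_cancel]
  have h2 : ∀ i m, ¬IsUnit (coeff m (q i + c'.l0 ^ e * c'.f (some (some i)) -
      c'.l0 ^ e * c'.f (some (some i)))) := fun i m hu => by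
    have h3 := congrArg (coeff m) (hq i)
    rw [coeff_map, coeff_map] at h3
    rw [add_sub_cancel_right, ← hw.isVR.eq_one] at hu
    exact (hg i m).ne (h3 ▸ hu)
  have E := H.ev k X n hX (by omega)
  refine ⟨curve_pts H hs hρ hX hσ hM hsm u1 u2 hC h1 h2, fun M hu a ha ⟨r, hr⟩ => ?_⟩
  have hu' : IsUnit ((M ^ r : ℕ) : w.integer) := by
    rw [Nat.cast_pow]
    exact hu.pow r
  refine kills_of_prim E (fun x hx => ((hC _ x).1 hx).1) (fun h => hu'.ne_zero (by
    rw [h, Nat.cast_zero])) (fun l hl hd b hb ⟨j, hj⟩ hk => ?_) a ha hr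
  have hl' := isUnit_of_dvd_unit (Nat.cast_dvd_cast hd) hu'
  have hN : IsUnit ((l ^ j : ℕ) : w.integer) := by
    rw [Nat.cast_pow]
    exact hl'.pow j
  rcases dich H hs hρ X hX hσ hM hH c' hsm u1 hb hl hl' ⟨j, hj⟩ with ⟨q₀, h⟩ | h
  · exact h.kills E hs hρ hb hN hj
  · exact absurd hk (h.not_kills E hs hρ hM hC h1 h2 hb hN hj)

attribute [local instance] Place.field Place.alg

theorem tGood_of (H : THyp) : TGood := by
  intro k _ F₀ _ _ _ _ X n hX σ _ hσ v c Φ C g e hG hC hg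
  have : Infinite k := .of_injective _ ((algebraMap (RatFunc F₀) k).injective.comp
    (RatFunc.algebraMap_injective F₀))
  obtain ⟨π, hπ⟩ := plv_nrm v
  obtain ⟨h1, h2⟩ := tgood_loc H (w := plw v) ⟨_, (plw_map v π).trans hπ⟩ (plw_cpl v)
    (plw_finR F₀ v) hX hσ (fun a ha => (plw_map v a).trans_le ((plv_le v a).2 ha)) hG hC
    fun i m => (plw_map v _).trans_lt ((plv_lt v _).2 (hg i m))
  refine ⟨h1, fun M hM => h2 M (tfma_unit ((algebraMap k v.K).comp
    ((algebraMap (RatFunc F₀) k).comp RatFunc.C)) _ fun h => hM ?_)⟩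
  exact (algebraMap k v.K).injective (by rw [map_natCast, h, map_zero])

end Pool.Agent.ZCy.F
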