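import Pool.Agent.Lib.MP_751085_ag.ZF.T.VDefs

/-! Purity for groups of any order, over a field. -/

namespace Pool.Agent.ZCy

open scoped Classical Polynomial PowerSeries

theorem tfpu_unit {A K E : Type} [CommRing A] [Field K] [Field E] [Algebra K E] {α : A →+* K}
    {Θ : A} (hα : IsFr α) (h0 : Θ ≠ 0) : IsUnit (toInt (tE E α) Θ Θ) :=
  IsUnit.of_mul_eq_one ⟨(tE E α Θ)⁻¹, fun _ w _ h2 h3 => by
    rw [map_inv₀, (h3.eq_one _).2 h2, inv_one]⟩ (Subtype.ext (mul_inv_cancel₀ fun h =>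
      h0 (hα.1 (((map_eq_zero (algebraMap K E)).1 h).trans (map_zero α).symm))))

/-- `q` is conjugate to `t ∘ β`, then `flat_sep` -/
theorem pure_flat {A K E T Ω : Type} [CommRing A] [UniqueFactorizationMonoid A]
    [IsNoetherianRing A] [Field K] [Field E] [Algebra K E] [FiniteDimensional K E] [IsGalois K E]
    [CommRing T] [IsDomain T] [Field Ω] {α : A →+* K} {Θ : A} (hα : IsFr α) (h0 : Θ ≠ 0)
    (hu : UnrOff K (tE E α) Θ) (β : IntOff (tE E α) Θ →+* T) (hf : (β.comp (toInt _ Θ)).Flat)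
    (hi : Function.Injective (β.comp (toInt _ Θ))) (t : T →+* Ω) (q : IntOff (tE E α) Θ →+* Ω)
    (h : ∀ a, q (toInt _ Θ a) = t (β (toInt _ Θ a))) {g : E ≃ₐ[K] E}
    (hg : ∀ x, q (gI α Θ g x) = q x) : g = 1 := by
  obtain ⟨r, _, hr⟩ := (stab_intOff α Θ).place_conj (t.comp β) q fun a ha => by
    obtain ⟨m, hm⟩ := exists_pow_mul_mem hα a.2
    obtain ⟨c, hc⟩ := fix_intOff_one hα hm fun g => by
      rw [map_mul, map_pow, ha g trivial, RingHom.comp_apply, AlgEquiv.commutes]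
    have e : toInt _ Θ c = toInt _ Θ Θ ^ m * a := Subtype.ext hc
    refine mul_left_cancel₀ (pow_ne_zero m ((tfpu_unit hα h0).map q).ne_zero) ?_
    rw [← map_pow, ← map_mul, ← e, h, e, map_pow, h, map_mul, map_mul, map_pow, map_pow]
    rfl
  exact mul_eq_left.1 (flat_sep hα hu β hf hi t (g := r * g) (h := r) fun x =>
    (hr (gI α Θ g x)).symm.trans ((hg x).trans (hr x)))

variable {σ k K E Ω : Type} [Finite σ] [Field k] [Field K] [Field E] [Field Ω] [Algebra K E]
  [FiniteDimensional K E] [IsGalois K E] {α : MP σ k →+* K} {Θ : MP σ k}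

/-- purity at a point with values in a field -/
theorem pureF (hα : IsFr α) (h0 : Θ ≠ 0) (hu : UnrOff K (tE E α) Θ) (q : IntOff (tE E α) Θ →+* Ω)
    {g : E ≃ₐ[K] E} (hg : ∀ x, q (gI α Θ g x) = q x) : g = 1 := by
  have e : ∀ p, MvPolynomial.eval₂ (q.comp ((toInt _ Θ).comp MvPolynomial.C))
      (fun i => q (toInt _ Θ (MvPolynomial.X i))) p = q (toInt _ Θ p) := fun p =>
    RingHom.congr_fun (f := MvPolynomial.eval₂Hom _ _) (g := q.comp (toInt _ Θ))
      (MvPolynomial.ringHom_ext (fun a => by simp) fun i => by simp) p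
  obtain ⟨M', _, _, _, _, β, hβ⟩ := znp_hom hα hu _ _
    ((e Θ).trans_ne ((tfpu_unit hα h0).map q).ne_zero)
  have : IsDomain (MvPowerSeries σ M') := NoZeroDivisors.to_isDomain _
  have e2 := RingHom.ext (f := β.comp (toInt _ Θ)) fun p => (hβ p).trans (map_pt _ p)
  refine pure_flat hα h0 hu β (e2 ▸ flat_pt (flat_field _)) (e2 ▸ pt_inj (RingHom.injective _))
    MvPowerSeries.constantCoeff ((algebraMap Ω M').comp q) (fun a => ?_)
    fun x => congrArg (algebraMap Ω M') (hg x)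
  rw [hβ, MvPowerSeries.constantCoeff_map, constantCoeff_pt, e, RingHom.comp_apply]

/-- `le_one_of_intOff` with `j` the identity, a residue map of `w` (`exists_resf`), `pureF` -/
theorem ine_bot_off (hα : IsFr α) (hu : UnrOff K (tE E α) Θ) {w : Vl E}
    (h1 : ∀ p, w (tE E α p) ≤ 1) (h2 : w (tE E α Θ) = 1) : Ine K w = ⊥ := by
  obtain ⟨κ, _, ρ, hρ, -⟩ := exists_resf w
  refine (Subgroup.eq_bot_iff_forall _).2 fun g hg => ?_
  have hx : ∀ x : IntOff (tE E α) Θ, w x ≤ 1 := fun x =>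
    le_one_of_intOff hα (j := RingHom.id E) h1 h2 x.2
  refine pureF hα (fun h => by simp [h] at h2) hu
    (ρ.comp ((IntOff (tE E α) Θ).subtype.codRestrict w.integer hx)) fun x => ?_
  rw [← sub_eq_zero, ← map_sub]
  exact (hρ _).2 (hg.2 x (hx x))

/-- An arc through a rational point off `Θ = 0` lifts to the cover. -/
theorem arcx [IsAlgClosed k] (hα : IsFr α) (hu : UnrOff K (tE E α) Θ) {M 𝕃 : Type} [Field M]
    [Field 𝕃] (f : k →+* M) (ψ : MP σ k →+* M⟦X⟧) (hi : Function.Injective ψ)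
    (hC : ∀ a, ψ (MvPolynomial.C a) = PowerSeries.C (f a)) (y : σ → k)
    (hy : ∀ i, PowerSeries.constantCoeff (ψ (MvPolynomial.X i)) = f (y i))
    (hΘ : MvPolynomial.eval y Θ ≠ 0) (μ : M⟦X⟧ →+* 𝕃) (hμ : Function.Injective μ) :
    ∃ J : E →+* 𝕃, ∀ p, J (tE E α p) = μ (ψ p) := by
  obtain ⟨M', _, _, _, _, β, hβ⟩ := znp_hom hα hu (RingHom.id k) y hΘ
  let e := RingEquiv.ofBijective (algebraMap k M') IsAlgClosed.algebraMap_bijective_of_isIntegral
  have he : ∀ a, f.comp (e.symm : M' →+* k) (algebraMap k M' a) = f a := fun a =>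
    congrArg f (e.symm_apply_apply a)
  obtain ⟨S, h1, h2, -⟩ := ps_subst (τ := Unit)
    (fun i => ψ (MvPolynomial.X i) - PowerSeries.C (f (y i))) fun i =>
      (map_sub PowerSeries.constantCoeff _ _).trans (sub_eq_zero.2 (hy i))
  have e2 : (S.comp ((MvPowerSeries.map (f.comp (e.symm : M' →+* k))).comp β)).comp (toInt _ Θ) =
      ψ := by
    refine MvPolynomial.ringHom_ext (fun a => ?_) fun i => ?_
    · simp only [RingHom.comp_apply, hβ, pt, MvPolynomial.eval₂Hom_C, MvPowerSeries.map_C, h1,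
        RingHom.id_apply]
      exact (congrArg _ (he a)).trans (hC a).symm
    · simp only [RingHom.comp_apply, hβ, pt, MvPolynomial.eval₂Hom_X', MvPowerSeries.map_C, h1,
        h2, map_add, MvPowerSeries.map_X]
      exact (congrArg (fun a => PowerSeries.C a + _) (he (y i))).trans (add_sub_cancel _ _)
  obtain ⟨j, hj⟩ := exists_embT (T := M⟦X⟧) hα _ (e2 ▸ hi)
  refine ⟨(IsFractionRing.lift hμ).comp j, fun p => ?_⟩
  rw [RingHom.comp_apply, ← coe_toInt _ Θ, hj, IsFractionRing.lift_algebraMap]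
  exact congrArg μ (RingHom.congr_fun e2 p)

end Pool.Agent.ZCy
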