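import Pool.Agent.Lib.MP_751085_ag.ZF.T.Base
import Pool.Agent.Lib.MP_751085_ag.ZF.T.Pure

/-! Purity over a discrete valuation ring, for groups of any order. -/

namespace Pool.Agent.ZCy

open scoped Classical Polynomial

section

variable {σ O K E Ω : Type} [Finite σ] [CommRing O] [IsDomain O] [IsDiscreteValuationRing O]
  [Field K] [Field E] [Field Ω] [Algebra K E] [FiniteDimensional K E] [IsGalois K E]
  {α : MP σ O →+* K} {Θ : MP σ O}

/-- base change along `tr φ y`, then `pur` -/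
theorem tzU (hα : IsFr α) (hu : UnrOff K (tE E α) Θ) {R L : Type} [CommRing R] [IsDomain R]
    [CDVR R] [Field L] {ι₀ : R →+* L} (h₀ : IsFr ι₀) {φ : O →+* R} (hφ : Function.Injective φ)
    (y : σ → R) (hy : IsUnit (Θ.eval₂ φ y)) :
    ∃ (L' : Type) (_ : Field L') (_ : Algebra L L') (_ : FiniteDimensional L L') (_ : IsGalois L L')
      (R' : Type) (_ : CommRing R') (_ : IsDomain R') (_ : CDVR R') (f : R →+* R')
      (ι' : R' →+* L') (β : IntOff (tE E α) Θ →+* MvPowerSeries σ R'), Function.Injective ι' ∧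
      (∀ a, ι' (f a) = algebraMap L L' (ι₀ a)) ∧ f.Finite ∧ IsLocalHom f ∧
      ∀ p, β (toInt _ Θ p) = pt (f.comp φ) (fun i => f (y i)) p := by
  have hα' := isFr_alg (MP σ R) (Fr (MP σ R))
  set α' := algebraMap (MP σ R) (Fr (MP σ R))
  have hψi : Function.Injective (tr φ y) := tr_inj hφ
  obtain ⟨φ', hφ'⟩ := hα.exists_lift (β := α'.comp (tr φ y)) (hα'.1.comp hψi)
  obtain ⟨E', _, _, _, _, j, rr, hj, hr, hi, -⟩ := exists_bc E φ'
  have hc : ∀ a, j (tE E α a) = tE E' α' (tr φ y a) := fun a =>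
    (hj (α a)).trans (congrArg (algebraMap _ E') (hφ' a))
  have hu' := unrOff_bc hα (flat_tr (flat_pid hφ)) hψi hc hr hi hu
  have h0 : IsUnit (MvPolynomial.constantCoeff (tr φ y Θ)) := by rwa [constantCoeff_tr]
  obtain ⟨E₀, _, _, _, _, -, β, hβ⟩ := pur h₀ σ hα' h0.ne_zero hu'
  obtain ⟨v, hv⟩ := exists_isVR h₀
  obtain ⟨w, hw, f, -, ho, hf, hfin, hl, -⟩ := exists_cdvr_ext (E := E₀) hv
  have hle : IntOff (tE E₀ ι₀) (MvPolynomial.constantCoeff (tr φ y Θ)) ≤ w.integer :=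
    fun x hx => hv.mem_intOff.1 (by rwa [intOff_of_isUnit h0] at hx) w ho
  let γ : IntOff (tE E α) Θ →+* IntOff (tE E' α') (tr φ y Θ) :=
    (j.comp (IntOff (tE E α) Θ).subtype).codRestrict _ fun x => intOff_map hα hc x.2
  refine ⟨E₀, inferInstance, inferInstance, inferInstance, inferInstance, w.integer, inferInstance,
    inferInstance, hw, f, w.integer.subtype,
    ((MvPowerSeries.map (Subring.inclusion hle)).comp β).comp γ, Subtype.val_injective, hf, hfin,
    hl, fun p => ?_⟩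
  have h1 : (Subring.inclusion hle).comp (toInt _ _) = f := RingHom.ext fun a =>
    Subtype.ext (hf a).symm
  have h2 : γ (toInt _ Θ p) = toInt _ _ (tr φ y p) := Subtype.ext (hc p)
  rw [RingHom.comp_apply, h2, RingHom.comp_apply, hβ, ← map_pt, pt_eq, ← h1,
    MvPowerSeries.map_comp, RingHom.comp_apply]

/-- lift the point to a complete ring, `tzU`, `pure_flat` -/
theorem pureD (hα : IsFr α) (h0 : Θ ≠ 0) (hu : UnrOff K (tE E α) Θ) (q : IntOff (tE E α) Θ →+* Ω)
    (hq : KerM ((q.comp (toInt _ Θ)).comp MvPolynomial.C)) {g : E ≃ₐ[K] E}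
    (hg : ∀ x, q (gI α Θ g x) = q x) : g = 1 := by
  obtain ⟨R, _, _, _, φ, β₀, hφ, -, -, hβ₀⟩ := exists_tlift hq
  choose y hy using fun i => IsLocalRing.residue_surjective
    (β₀ (q (toInt _ Θ (MvPolynomial.X i))))
  have h1 : ∀ p, β₀ (q (toInt _ Θ p)) = IsLocalRing.residue R (p.eval₂ φ y) := fun p =>
    RingHom.congr_fun (MvPolynomial.ringHom_ext (f := (β₀.comp q).comp (toInt _ Θ))
      (g := (IsLocalRing.residue R).comp (MvPolynomial.eval₂Hom φ y))
      (fun a => (hβ₀ a).trans (by simp)) fun i => (hy i).symm.trans (by simp)) p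
  have h2 : IsUnit (Θ.eval₂ φ y) := (IsLocalRing.residue_ne_zero_iff_isUnit _).1
    (h1 Θ ▸ (((isUnit_toInt (φ := tE E α)
      ((map_ne_zero (algebraMap K E)).2 (hα.vfrc_ne h0))).map q).map β₀).ne_zero)
  have h₀ := isFr_alg R (Fr R)
  obtain ⟨L', _, _, _, _, R', _, _, _, f, ι', β, -, h3, -, _, hβ⟩ := tzU hα hu h₀ hφ y h2
  have hf : Function.Injective (f.comp φ) := fun a b e => hφ (h₀.1 ((algebraMap _ L').injective
    ((h3 _).symm.trans ((congrArg ι' e).trans (h3 _)))))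
  have h4 : β.comp (toInt _ Θ) = pt (f.comp φ) fun i => f (y i) := RingHom.ext hβ
  have : IsDomain (MvPowerSeries σ R') := NoZeroDivisors.to_isDomain _
  refine pure_flat hα h0 hu β (h4 ▸ flat_pt (flat_pid hf)) (h4 ▸ pt_inj hf)
    ((IsLocalRing.residue R').comp MvPowerSeries.constantCoeff)
    (((IsLocalRing.ResidueField.map f).comp β₀).comp q) (fun a => ?_) fun x => ?_
  · rw [RingHom.comp_apply, RingHom.comp_apply, h1, IsLocalRing.ResidueField.map_residue, hβ,
      ← map_pt, RingHom.comp_apply, MvPowerSeries.constantCoeff_map, constantCoeff_pt]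
  · rw [RingHom.comp_apply, hg, RingHom.comp_apply _ q]

end

theorem tftz_root {R L : Type} [CommRing R] [IsDomain R] [CDVR R] [Field L] {ι₀ : R →+* L}
    (h : IsFr ι₀) {m : ℕ} (hm : (m : R) ≠ 0) {π : R} (h0 : π ≠ 0) :
    ∃ (L' : Type) (_ : Field L') (_ : Algebra L L') (_ : FiniteDimensional L L') (_ : IsGalois L L')
      (R' : Type) (_ : CommRing R') (_ : IsDomain R') (_ : CDVR R') (f : R →+* R')
      (ι' : R' →+* L') (r : R'), IsFr ι' ∧ (∀ a, ι' (f a) = algebraMap L L' (ι₀ a)) ∧ f.Finite ∧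
      r ^ m = f π := by
  have hm0 : m ≠ 0 := fun e => hm (by simp [e])
  obtain ⟨v, hv⟩ := exists_isVR h
  have hs : (Polynomial.X ^ m - Polynomial.C (ι₀ π)).Separable :=
    Polynomial.separable_X_pow_sub_C _ (fun e => hm (h.1 (by simpa using e))) (h.vfrc_ne h0)
  let p : L[X] := Polynomial.X ^ m - Polynomial.C (ι₀ π)
  have : IsGalois L p.SplittingField := IsGalois.of_separable_splitting_field hs
  obtain ⟨r, hr⟩ := (Polynomial.SplittingField.splits p).exists_eval_eq_zero (by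
    rw [Polynomial.degree_map, Polynomial.degree_X_pow_sub_C (Nat.pos_of_ne_zero hm0)]
    exact_mod_cast hm0)
  have hr' : r ^ m = tE p.SplittingField ι₀ π := by
    simpa [p, sub_eq_zero] using hr
  obtain ⟨w, hw, f, hn, -, h1, h2, -⟩ := exists_cdvr_ext (E := p.SplittingField) hv
  have h5 : w r ≤ 1 := by
    rw [← pow_le_one_iff hm0, ← map_pow, hr', ← h1]
    exact (f π).2
  exact ⟨p.SplittingField, inferInstance, inferInstance, inferInstance, this, w.integer,
    inferInstance, inferInstance, hw, f, w.integer.subtype, ⟨r, h5⟩, hn.isVR.isFr, h1, h2,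
    Subtype.ext (hr'.trans (h1 π).symm)⟩

variable {O K ι E Ω : Type} [CommRing O] [IsDomain O] [IsDiscreteValuationRing O] [Field K]
  [Algebra O K] [IsFractionRing O K] [Finite ι] [Field E] [Field Ω] [Algebra (RF ι K) E]
  [FiniteDimensional (RF ι K) E] [IsGalois (RF ι K) E] {π : O} {Θ : MP ι O} {e : ℕ} {ϖ : E}

/-- `exists_eis`, `tf_base`, `pureD` -/
theorem pure2 (hπ : Irreducible π) (T : TCov K π Θ E e ϖ) (h0 : Θ ≠ 0)
    (q : IntOff (gO O K ι E) Θ →+* Ω) (hq : q (toInt _ Θ (MvPolynomial.C π)) = 0)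
    {g : E ≃ₐ[RF ι K] E} (h1 : g ϖ = ϖ)
    (hg : ∀ x y : IntOff (gO O K ι E) Θ, (y : E) = g x → q y = q x) : g = 1 := by
  have he : e ≠ 0 := fun h => T.unit.ne_zero (by rw [h, Nat.cast_zero])
  obtain ⟨O', _, _, _, i, ϖ₀, h⟩ := exists_eis hπ he
  obtain ⟨K', α', hα', hQ, -, hu, hI, hG⟩ := tf_base hπ T h
  obtain ⟨g', hg'⟩ := hG g h1
  have h2 : g' = 1 := by
    refine pureD hα' (fun e => h0 (MvPolynomial.map_injective i h.inj (e.trans (map_zero _).symm)))
      hu (q.comp (Subring.inclusion hI.le)) (fun a => ⟨fun e u => (u.map _).ne_zero e, fun u => ?_⟩)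
      fun x => hg _ _ (hg' x)
    obtain ⟨b, rfl⟩ : ϖ₀ ∣ a := by
      rw [← Ideal.mem_span_singleton, ← h.irr.maximalIdeal_eq]
      exact u
    rw [map_mul]
    refine mul_eq_zero_of_left ((pow_eq_zero_iff he).1 ?_) _
    rw [← map_pow, h.root, ← hq]
    refine congrArg q (Subtype.ext ?_)
    exact (congrArg _ (MvPolynomial.map_C i π).symm).trans (hQ _)
  exact AlgEquiv.ext fun x => (hg' x).symm.trans (by rw [h2]; rfl)

/-- adjoin a root of `X ^ e - φ π`, then `tf_base` and `tzU` -/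
theorem tzF (hπ : Irreducible π) (T : TCov K π Θ E e ϖ) {R L : Type} [CommRing R] [IsDomain R]
    [CDVR R] [Field L] [Algebra R L] [IsFractionRing R L] {φ : O →+* R}
    (hφ : Function.Injective φ) (y : ι → R) (hy : IsUnit (Θ.eval₂ φ y)) :
    ∃ (L' : Type) (_ : Field L') (_ : Algebra L L') (_ : FiniteDimensional L L')
      (_ : Algebra.IsSeparable L L') (R' : Type) (_ : CommRing R') (_ : IsDomain R')
      (f : R →+* R') (ι' : R' →+* L') (J : E →+* FP ι R'), Function.Injective ι' ∧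
      (∀ a, ι' (f a) = algebraMap L L' (algebraMap R L a)) ∧ f.Finite ∧
      ∀ Q, J (gO O K ι E Q) = ps ι R' (MvPowerSeries.map f (tay φ y Q)) := by
  have he : e ≠ 0 := fun h => T.unit.ne_zero (by rw [h, Nat.cast_zero])
  have h₀ := isFr_alg R L
  obtain ⟨L₁, _, _, _, _, R₁, _, _, _, f₁, ι₁, r, h₁, hf₁, hn₁, hr⟩ :=
    tftz_root h₀ (m := e) (map_natCast φ e ▸ (T.unit.map φ).ne_zero)
      ((map_ne_zero_iff φ hφ).2 hπ.ne_zero)
  obtain ⟨O', _, _, _, i, ϖ₀, h⟩ := exists_eis hπ he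
  obtain ⟨K', α', hα', hQ, -, hu, -, -⟩ := tf_base hπ T h
  obtain ⟨φ', h1, -⟩ := h.lift R₁ (f₁.comp φ) r hr
  have h2 : φ'.comp i = f₁.comp φ := RingHom.ext h1
  have h3 : Function.Injective φ' := h.lift_inj hπ (h2 ▸ fun a b e => hφ (h₀.1
    ((algebraMap _ L₁).injective ((hf₁ _).symm.trans ((congrArg ι₁ e).trans (hf₁ _))))))
  obtain ⟨L', _, _, _, _, R', _, _, _, f, ι', β, hι, hf, hn, -, hβ⟩ :=
    tzU hα' hu h₁ h3 (fun k => f₁ (y k)) (by
      rw [MvPolynomial.eval₂_map, h2, ← MvPolynomial.hom_eval₂]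
      exact hy.map f₁)
  have h4 : Function.Injective (f.comp φ') := fun a b e => h3 (h₁.1 ((algebraMap _ L').injective
    ((hf _).symm.trans ((congrArg ι' e).trans (hf _)))))
  have : IsDomain (MvPowerSeries ι R') := NoZeroDivisors.to_isDomain _
  obtain ⟨J, hJ⟩ := exists_embT hα' β ((RingHom.ext hβ : β.comp (toInt _ _) = _) ▸ pt_inj h4)
  let _ : Algebra L L' := ((algebraMap L₁ L').comp (algebraMap L L₁)).toAlgebra
  have : IsScalarTower L L₁ L' := IsScalarTower.of_algebraMap_eq fun _ => rfl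
  refine ⟨L', inferInstance, inferInstance, FiniteDimensional.trans L L₁ L',
    Algebra.IsSeparable.trans L L₁ L', R', inferInstance, inferInstance, f.comp f₁, ι', J, hι,
    fun a => (hf _).trans (congrArg _ (hf₁ a)), hn.comp hn₁, fun Q => ?_⟩
  rw [← hQ]
  refine (hJ (toInt _ _ (MvPolynomial.map i Q))).trans (congrArg _ ?_)
  rw [hβ, show tay φ y Q = pt φ y Q from rfl, map_pt, pt, pt, MvPolynomial.eval₂Hom_map_hom,
    RingHom.comp_assoc, RingHom.comp_assoc, h2]
  rfl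

end Pool.Agent.ZCy
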