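import Pool.Agent.Lib.MP_751085_ag.ZF.N.Iface

/-! The statement that is exported for the good places. -/

namespace Pool.Agent.ZCy.F

open Pool.Agent.ZFN
open scoped Classical
open MvPolynomial

attribute [local instance] Place.field Place.alg

/-- At a place of good reduction the curve `C` has points of all large degrees, and a class of
order prime to the characteristic that kills the cycles of degree zero of `C` kills those
of `X`. -/
def TGood : Prop := ∀ (k : Type) [Field k] (F₀ : Type) [Field F₀] [Finite F₀]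
  [Algebra (RatFunc F₀) k] [FiniteDimensional (RatFunc F₀) k] (X : Var k) (n : ℕ), X.Nice n →
  ∀ (σ : Type) [Fintype σ], Fintype.card σ + 1 = n → ∀ (v : Place k)
    (c : Chart k σ X.N (X.IK k)) (Φ : MP σ k) (C : Gen k X.N) (g : σ → Fm X.N k) (e : ℕ),
    X.GoodV c Φ v.1.toSubring → X.Cut C g →
    (∀ i m, v.1.valuation (coeff m (g i - c.l0 ^ e * c.f (some (some i)))) < 1) →
    (∃ m₀ : ℕ, ∀ m, m₀ ≤ m → ∃ (L : IntermediateField v.K (Cb v.K))
      (x : Fin (X.N + 1) → Cb v.K), FiniteDimensional v.K L ∧ Module.finrank v.K L = m ∧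
        (∀ i, x i ∈ L) ∧ C.var.On x) ∧
    ∀ M : ℕ, (M : k) ≠ 0 → ∀ a ∈ X.Bw, Prim M a →
      (Kills X v.K a fun x => C.var.On x) → Kills X v.K a fun x => X.On x

end Pool.Agent.ZCy.F
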