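import Pool.Agent.Lib.MP_751085_ag.ZF.T.VDefs

/-! The lemma of Abhyankar as an enlargement, in any characteristic. -/

namespace Pool.Agent.ZCy

open scoped Classical WithZero Polynomial

section

variable {K E : Type} [Field K] [Field E] [Algebra K E] [FiniteDimensional K E] [IsGalois K E]

open Polynomial in
/-- port of `exists_root_field` (ZC/V/AbE); the extension is separable as it is generated by
roots of separable polynomials -/
theorem exists_root_fieldF {π : K} (h0 : π ≠ 0) {e m : ℕ} (hm : (m : K) ≠ 0) (hd : e ∣ m) :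
    ∃ (E' : Type) (_ : Field E') (_ : Algebra K E') (_ : Algebra E E')
      (_ : IsScalarTower K E E') (_ : FiniteDimensional K E') (_ : IsGalois K E') (ϖ ζ : E'),
      ϖ ^ e = algebraMap K E' π ∧ IsPrimitiveRoot ζ m ∧ ∀ g : E' ≃ₐ[K] E',
        (∀ x : E, g (algebraMap E E' x) = algebraMap E E' x) → g ϖ = ϖ → g ζ = ζ → g = 1 := by
  have hm' := hm
  replace hm : m ≠ 0 := fun u => hm' (by rw [u, Nat.cast_zero])
  have he : e ≠ 0 := ne_zero_of_dvd_ne_zero hm hd
  have he' : (e : K) ≠ 0 := ne_zero_of_dvd_ne_zero hm' (Nat.cast_dvd_cast hd)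
  obtain ⟨p, hp, _⟩ := IsGalois.is_separable_splitting_field K E
  have h1 := monic_X_pow_sub_C π he
  have h2 := monic_X_pow_sub_C (1 : K) hm
  set q := (X ^ e - C π) * (X ^ m - C 1) with hq
  let E' := (q.map (algebraMap K E)).SplittingField
  have := IsSplittingField.mul E' p q hp.ne_zero (h1.mul h2).ne_zero (K := E)
  have := IsSplittingField.finiteDimensional E' (p * q)
  have := Normal.of_isSplittingField (E := E') (p * q)
  have : NeZero (m : E') :=
    ⟨by rw [← map_natCast (algebraMap K E')]; exact (_root_.map_ne_zero _).2 hm'⟩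
  have : NeZero m := ⟨hm⟩
  have e1 : (q.map (algebraMap K E)).map (algebraMap E E') =
      (X ^ e - C (algebraMap K E' π)) * (X ^ m - 1) := by
    simp [hq, ← IsScalarTower.algebraMap_apply]
  have h3 := SplittingField.splits (q.map (algebraMap K E))
  have h4 := e1 ▸ (((h1.mul h2).map (algebraMap K E)).map (algebraMap E E')).ne_zero
  rw [e1] at h3
  obtain ⟨ϖ, hϖ⟩ := (h3.of_dvd h4 (dvd_mul_right _ _)).exists_eval_eq_zero
    (by rw [degree_X_pow_sub_C (Nat.pos_of_ne_zero he)]; exact_mod_cast he)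
  obtain ⟨ζ, hζ⟩ := (h3.of_dvd h4 ((cyclotomic.dvd_X_pow_sub_one m E').mul_left _)).exists_eval_eq_zero
    (degree_cyclotomic_pos m E' (Nat.pos_of_ne_zero hm)).ne'
  have hζ' : IsPrimitiveRoot ζ m := isRoot_cyclotomic_iff.1 hζ
  have hϖ' : ϖ ^ e = algebraMap K E' π := by simpa [sub_eq_zero] using hϖ
  have : Algebra.IsSeparable E E' := by
    rw [← separableClosure.eq_top_iff, eq_top_iff, ← IntermediateField.toSubalgebra_le_toSubalgebra,
      IntermediateField.top_toSubalgebra, ← SplittingField.adjoin_rootSet]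
    refine Algebra.adjoin_le fun y hy => IsSeparable.tower_top E (F := K) ?_
    have h7 := aeval_eq_zero_of_mem_rootSet hy
    rw [aeval_map_algebraMap] at h7
    replace h7 := mul_eq_zero.1 ((map_mul (aeval y) (X ^ e - C π) (X ^ m - C 1)).symm.trans h7)
    exact h7.elim (fun h7 => (separable_X_pow_sub_C π he' h0).of_dvd (minpoly.dvd K y h7))
      fun h7 => (separable_X_pow_sub_C 1 hm' one_ne_zero).of_dvd (minpoly.dvd K y h7)
  have : Algebra.IsSeparable K E' := Algebra.IsSeparable.trans K E E'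
  refine ⟨E', inferInstance, inferInstance, inferInstance, inferInstance, inferInstance, {}, ϖ, ζ,
    hϖ', hζ', fun g g1 g2 g3 => ?_⟩
  have h5 : ∀ y : E', y ^ m = 1 → g y = y := fun y hy => by
    obtain ⟨i, -, rfl⟩ := hζ'.eq_pow_of_pow_eq_one hy
    rw [map_pow, g3]
  have h6 : ({ (g : E' →+* E') with commutes' := g1 } : E' →ₐ[E] E') = AlgHom.id E E' := by
    refine AlgHom.ext_of_adjoin_eq_top (SplittingField.adjoin_rootSet _) fun y hy => ?_
    have h7 := aeval_eq_zero_of_mem_rootSet hy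
    rw [← eval_map_algebraMap, e1] at h7
    simp only [eval_mul, eval_sub, eval_pow, eval_X, eval_C, eval_one, mul_eq_zero, sub_eq_zero,
      ← hϖ'] at h7
    refine h7.elim (fun h7 => ?_) (h5 y)
    by_cases h0 : ϖ = 0
    · rw [h0, zero_pow he, pow_eq_zero_iff he] at h7
      rw [h7, map_zero, map_zero]
    · obtain ⟨c, rfl⟩ := hd
      have h8 := h5 (y / ϖ) (by rw [pow_mul, div_pow, h7, div_self (pow_ne_zero _ h0), one_pow])
      rw [map_div₀, g2] at h8
      exact (div_left_inj' h0).1 h8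
  exact AlgEquiv.ext fun x => DFunLike.congr_fun h6 x

/-- port of `abh_enl` -/
theorem abh_enlF {v : Vl K} {π : K} (hπ : v π = WithZero.exp (-1))
    (ht : ∀ w : Vl E, Over (algebraMap K E) v w → Tame K w) {n : ℕ} (hn : v (n : K) = 1) :
    ∃ (e : ℕ) (E' : Type) (_ : Field E') (_ : Algebra K E') (_ : Algebra E E')
      (_ : IsScalarTower K E E') (_ : FiniteDimensional K E') (_ : IsGalois K E') (ϖ ζ : E'),
      v (e : K) = 1 ∧ ϖ ^ e = algebraMap K E' π ∧ IsPrimitiveRoot ζ (n * e) ∧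
      (∀ w : Vl E', Over (algebraMap K E') v w → ∀ g ∈ Ine K w, g ϖ = ϖ → g = 1) ∧
      ∀ w : Vl E', w (algebraMap K E' π) = 1 → w ((n * e : ℕ) : E') = 1 → ∀ g ∈ Ine K w,
        (∀ x : E, g (algebraMap E E' x) = algebraMap E E' x) → g = 1 := by
  obtain ⟨w₀, h0⟩ := exists_over (E := E) v
  have he : Nat.card (Ine K w₀) ≠ 0 := Nat.card_pos.ne'
  have h1 : v (Nat.card (Ine K w₀) : K) = 1 := (h0.eq_one _).1 (by rw [map_natCast]; exact ht _ h0)
  have h2 : ∀ u : Vl E, Over (algebraMap K E) v u → Nat.card (Ine K u) = Nat.card (Ine K w₀) :=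
    fun u hu => by
      obtain ⟨g, hg⟩ := conj h0 hu
      rw [ine_congr (w := w₀.comap (g : E →+* E)) hg, card_ine_comap]
  generalize Nat.card (Ine K w₀) = e at he h1 h2
  have hπ0 : π ≠ 0 := by
    rintro rfl
    exact WithZero.exp_ne_zero (hπ.symm.trans (map_zero v))
  obtain ⟨E', _, _, _, _, _, _, ϖ, ζ, hϖ, hζ, H⟩ :=
    exists_root_fieldF (E := E) hπ0 (m := n * e) (fun u => by
      have h3 := congrArg v u
      rw [Nat.cast_mul, map_mul, hn, h1, map_zero, mul_one] at h3
      exact one_ne_zero h3) (dvd_mul_left e n)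
  have h3 : ∀ w : Vl E', w ((n * e : ℕ) : E') = 1 → ∀ g ∈ Ine K w, g ζ = ζ := fun w hw g hg =>
    vabe_kum hg hw (hζ.pow_eq_one.trans (map_one _).symm) (by simp)
  refine ⟨e, E', _, _, _, ‹_›, ‹_›, ‹_›, ϖ, ζ, h1, hϖ, hζ, fun w hw g hg g2 => ?_,
    fun w hw hM g hg g1 => H g g1 (vabe_kum hg hM (a := π ^ n) ?_ ?_) (h3 w hM g hg)⟩
  · obtain ⟨r, hr⟩ := exists_rs (φ := RingHom.id K) (j := algebraMap E E')
      fun a => (IsScalarTower.algebraMap_apply K E E' a).symm
    have hu : Over (algebraMap K E) v (w.comap (algebraMap E E')) := fun a => by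
      rw [Valuation.comap_apply, ← IsScalarTower.algebraMap_apply]
      exact hw a
    have h4 : ϖ ≠ 0 := by
      rintro rfl
      exact (_root_.map_ne_zero _).2 hπ0 (hϖ.symm.trans (zero_pow he))
    have h5 : r g = 1 := eq_one_of_graded (tame_iff.1 (ht _ hu) _ (hr.ine (Over.comap _ w) hg))
      fun x hx => by
        obtain ⟨a, ha⟩ := pow_card_ine (K := K) (w.comap (algebraMap E E')) x
        rw [h2 _ hu, Valuation.comap_apply, Valuation.comap_apply,
          ← IsScalarTower.algebraMap_apply] at ha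
        have h6 : a ≠ 0 := by
          rintro rfl
          simp [he, hx] at ha
        have h7 : v a = v (π ^ ord v a) := by
          rw [map_zpow₀, hπ, exp_neg_ord v h6, ← WithZero.exp_zsmul]
          simp
        rw [(hw.eq_iff _ _).2 h7, map_zpow₀, ← hϖ, ← zpow_natCast ϖ, ← zpow_mul, mul_comm, zpow_mul,
          zpow_natCast, map_pow, pow_left_inj₀ zero_le zero_le he] at ha
        have h8 := (w.ne_zero_iff).2 (zpow_ne_zero (ord v a) h4)
        have h9 := hg.2 (algebraMap E E' x / ϖ ^ ord v a) (by rw [map_div₀, ha, div_self h8])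
        rw [map_div₀, map_zpow₀, g2, ← sub_div, map_div₀, div_lt_one₀ (zero_lt_iff.2 h8)] at h9
        rwa [Valuation.comap_apply, Valuation.comap_apply, map_sub, hr, ha]
    refine H g (fun x => ?_) g2 (h3 w ?_ g hg)
    · rw [← hr, h5, AlgEquiv.one_apply]
    · rw [← map_natCast (algebraMap K E'), hw.eq_one, Nat.cast_mul, map_mul, hn, h1, mul_one]
  · rw [mul_comm, pow_mul, hϖ, map_pow]
  · rw [map_pow, map_pow, hw, one_pow]

end

/-- the geometric half of `exists_tRep` (ZC/T/Rf1) -/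
theorem exists_tcov {O K ι E : Type} [CommRing O] [IsDomain O] [IsDiscreteValuationRing O]
    [Field K] [Algebra O K] [IsFractionRing O K] [Field E] [Algebra (RF ι K) E]
    [FiniteDimensional (RF ι K) E] [IsGalois (RF ι K) E] {π : O} {Θ : MP ι O} (hπ : Irreducible π)
    (hu : UnrOff (RF ι K) (toE (MP ι K) E) (Θ.map (algebraMap O K)))
    (ht : ∀ w : Vl E, Cen (gO O K ι E) w (MvPolynomial.C π) → Tame (RF ι K) w) {m : ℕ}
    (hm : IsUnit (m : O)) :
    ∃ (e : ℕ) (E' : Type) (_ : Field E') (_ : Algebra (RF ι K) E') (_ : Algebra E E')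
      (_ : IsScalarTower (RF ι K) E E') (_ : FiniteDimensional (RF ι K) E')
      (_ : IsGalois (RF ι K) E') (ϖ ζ : E'), TCov K π Θ E' e ϖ ∧ IsPrimitiveRoot ζ (m * e) := by
  obtain ⟨v, hv, hv1⟩ := gau_exists (frc_gO O K ι) (mp_prime hπ).1 (mp_prime hπ).2
  obtain ⟨e, E', _, _, _, _, _, _, ϖ, ζ, h1, h2, h3, h4, h5⟩ := abh_enlF (E := E) hv1
    (fun w hw => ht w ((trf1_over hπ hv).2 hw)) ((trf1_nat hπ hv).2 hm)
  have he := (trf1_nat hπ hv).1 h1
  have hu' : IsUnit ((m * e : ℕ) : O) := Nat.cast_mul (α := O) _ _ ▸ hm.mul he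
  obtain ⟨r₀, hr₀⟩ := exists_lk_of (γ := RingHom.id (RF ι K)) (j := algebraMap E E')
    fun x => (IsScalarTower.algebraMap_apply _ E E' x).symm
  refine ⟨e, E', _, _, _, ‹_›, ‹_›, ‹_›, ϖ, ζ,
    ⟨?_, h2, he, fun w hw => h4 w ((trf1_over hπ hv).1 hw)⟩, h3⟩
  refine fun P w hP hn hc => (Subgroup.eq_bot_iff_forall _).2 fun g hg => h5 w ?_ ?_ g hg fun x => ?_
  · refine Eq.trans (congrArg w ?_) (trf1_unit hP hc (((map_ne_zero_iff _
      (IsFractionRing.injective O K)).2 hπ.ne_zero).isUnit.map MvPolynomial.C))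
    rw [← MvPolynomial.map_C]
    rfl
  · rw [← map_natCast (toE (MP ι K) E'), ← map_natCast (MvPolynomial.C : K →+* MP ι K),
      ← map_natCast (algebraMap O K)]
    exact trf1_unit hP hc ((hu'.map _).map _)
  · have e1 : (algebraMap E E').comp (toE (MP ι K) E) = toE (MP ι K) E' :=
      RingHom.ext fun p => (IsScalarTower.algebraMap_apply _ E E' _).symm
    have := (nv_up (IsScalarTower.toAlgHom (RF ι K) E E') hr₀.comm
      (Over.comap (algebraMap E E') w)).2 g hg
    rw [hu P _ hP hn (e1 ▸ hc : Cen ((algebraMap E E').comp _) w P), Subgroup.mem_bot] at this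
    rw [← hr₀.comm, this]
    rfl

/-- A Galois extension that contains `L'` and the roots. Take the Galois closure (`exists_gc`),
then `exists_root_fieldF`. -/
theorem exists_gal_split (L L' : Type) [Field L] [Field L'] [Algebra L L'] [FiniteDimensional L L']
    [Algebra.IsSeparable L L'] {π : L} (h0 : π ≠ 0) {e m : ℕ} (hm : ((m * e : ℕ) : L) ≠ 0) :
    ∃ (L₂ : Type) (_ : Field L₂) (_ : Algebra L L₂) (_ : FiniteDimensional L L₂)
      (_ : IsGalois L L₂) (_ : L' →ₐ[L] L₂),
      (((Polynomial.X ^ e - Polynomial.C π) * (Polynomial.X ^ (m * e) - Polynomial.C 1)).map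
        (algebraMap L L₂)).Splits := by
  obtain ⟨N, _, _, _, _, _, _, -⟩ := exists_gc L L'
  obtain ⟨E, _, _, _, _, _, _, ϖ, ζ, h1, h2, -⟩ :=
    exists_root_fieldF (E := N) h0 hm (dvd_mul_left e m)
  have h3 : m * e ≠ 0 := fun u => hm (by rw [u, Nat.cast_zero])
  refine ⟨E, _, _, ‹_›, ‹_›,
    (IsScalarTower.toAlgHom L N E).comp (IsScalarTower.toAlgHom L L' N), ?_⟩
  simp only [Polynomial.map_mul, Polynomial.map_sub, Polynomial.map_pow, Polynomial.map_X,
    Polynomial.map_C]
  exact (X_pow_sub_C_splits_of_isPrimitiveRoot (h2.pow (Nat.pos_of_ne_zero h3) rfl) h1).mul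
    (X_pow_sub_C_splits_of_isPrimitiveRoot h2 (α := 1) ((one_pow _).trans (map_one _).symm))

end Pool.Agent.ZCy
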