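import Pool.Agent.Lib.MP_751085_ag.ZF.T.Ctr

/-! An unramified cover splits along the arcs at infinity. -/

namespace Pool.Agent.ZCy

open scoped Classical Polynomial PowerSeries

variable {O κ σ : Type} [CommRing O] [Field κ] [IsAlgClosed κ] [Fintype σ] {N : ℕ}
  {GG : Set (Fm N O)} {ρ : O →+* κ} {c₀ : Chart O σ N GG}

omit [IsAlgClosed κ] [Fintype σ] in
theorem tfarc_int {M : Type} [Field M] (f : κ →+* M) {x : Fin (N + 1) → M}
    (hx : Zer GG (f.comp ρ) x)
    (h : ∀ i, MvPolynomial.eval₂ (f.comp ρ) x (c₀.f (skip i)) = 0) (j : Fin (N + 1)) :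
    ∃ g : κ[X], g.Monic ∧ ((g.map f).scaleRoots
      (MvPolynomial.eval₂ (f.comp ρ) x (c₀.f (some none)))).eval (x j ^ c₀.d) = 0 := by
  obtain ⟨m, H, h1, h2, h3, h4⟩ := c₀.int j
  have h5 := h4 M _ x hx
  let e : Option (Option σ) → κ := Pi.single (some none) 1
  have he : (fun i => MvPolynomial.eval₂ (f.comp ρ) x (c₀.f i)) =
      fun i => MvPolynomial.eval₂ (f.comp ρ) x (c₀.f (some none)) * f (e i) := by
    funext i
    rcases i with _ | _ | i
    · rw [show e none = 0 from Pi.single_eq_of_ne (by simp) _, map_zero, mul_zero]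
      exact h none
    · rw [show e (some none) = 1 from Pi.single_eq_same _ _, map_one, mul_one]
    · rw [show e (some (some i)) = 0 from Pi.single_eq_of_ne (by simp) _, map_zero, mul_zero]
      exact h (some i)
  refine ⟨H.map (MvPolynomial.eval₂Hom ρ e), h1.map _, Eq.trans ?_ h5⟩
  rw [ev_eq_eval, he]
  refine congrArg _ (Polynomial.ext fun i => ?_)
  rw [Polynomial.coeff_scaleRoots, (h1.map _).natDegree_map, h1.natDegree_map, h2,
    Polynomial.coeff_map, Polynomial.coeff_map, Polynomial.coeff_map, MvPolynomial.coe_eval₂Hom,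
    MvPolynomial.coe_eval₂Hom, fld_scale (h3 i), MvPolynomial.eval₂_comp_left, mul_comm]
  rfl

omit [Fintype σ] in
/-- the points at infinity of a chart are rational -/
theorem Chart.rat_inf {M : Type} [Field M] (f : κ →+* M) {x : Fin (N + 1) → M} (h0 : x ≠ 0)
    (hx : Zer GG (f.comp ρ) x)
    (h : ∀ i, MvPolynomial.eval₂ (f.comp ρ) x (c₀.f (skip i)) = 0) :
    ∃ (t : M) (y : Fin (N + 1) → κ), t ≠ 0 ∧ ∀ j, x j = t * f (y j) := by
  obtain ⟨i, hi⟩ := Function.ne_iff.1 h0
  replace hi : x i ≠ 0 := hi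
  choose g hg hr using tfarc_int f hx h
  generalize MvPolynomial.eval₂ (f.comp ρ) x (c₀.f (some none)) = s at hr
  have hs : s ≠ 0 := by
    rintro rfl
    have := hr i
    rw [Polynomial.scaleRoots_zero, ((hg i).map f).leadingCoeff, one_smul, Polynomial.eval_pow,
      Polynomial.eval_X] at this
    exact pow_ne_zero _ (pow_ne_zero _ hi) this
  have h1 : ∀ j, x j ^ c₀.d / s ∈ f.range := fun j => by
    refine root_mem_range f (hg j).ne_zero (IsAlgClosed.splits _) ?_
    have := hr j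
    rw [← mul_div_cancel₀ (x j ^ c₀.d) hs, Polynomial.scaleRoots_eval_mul,
      Polynomial.eval_map] at this
    exact (mul_eq_zero.1 this).resolve_left (pow_ne_zero _ hs)
  choose a ha using h1
  have h2 : ∀ j, x j / x i ∈ f.range := fun j => by
    refine root_mem_range f (Polynomial.X_pow_sub_C_ne_zero c₀.dpos (a j / a i))
      (IsAlgClosed.splits _) ?_
    rw [Polynomial.eval₂_sub, Polynomial.eval₂_X_pow, Polynomial.eval₂_C, map_div₀, ha, ha,
      div_div_div_cancel_right₀ hs, div_pow, sub_self]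
  choose y hy using h2
  exact ⟨x i, y, hi, fun j => by rw [hy, mul_div_cancel₀ _ hi]⟩

theorem tfarc_xi {R ι K K' : Type} [CommRing R] [Field K] [Field K'] {HH : Set (Fm N R)}
    (c : Chart R ι N HH) (φ : R →+* K) (g : K →+* K') (x : Fin (N + 1) → K) (l : Option ι) :
    g (c.xi φ x l) = c.xi (g.comp φ) (fun i => g (x i)) l := by
  rw [Chart.xi, map_div₀, MvPolynomial.eval₂_comp_left, MvPolynomial.eval₂_comp_left]
  rfl

/-- the centre of the arc is a rational point in a good chart -/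
theorem tf_arc (hG : ∀ G ∈ GG, ∃ m, G.IsHomogeneous m) (hC : CHvS σ GG) {cb : PChart κ σ}
    (hm : c₀.toPChart.IsMap ρ cb) {F E : Type} [Field F] [Field E] [Algebra (RF (Option σ) κ) F]
    [Algebra F E] [Algebra (RF (Option σ) κ) E] [IsScalarTower (RF (Option σ) κ) F E]
    [FiniteDimensional F E] [IsGalois F E] {θ : F} (hF : cb.FF F θ)
    (hA : AllCov σ GG ρ (cE (Option σ) κ E) (c₀.gpt ρ (algebraMap F E θ))) (z : κ)
    (j : F →+* LaurentSeries (RF σ κ)) (hj : PChart.InfEmb (K := κ) θ z j) : Emb E j := by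
  have hV := isVR_lval (RF σ κ)
  set μ := lau (RingHom.id (RF σ κ))
  let u : Vl F := (lval (RF σ κ)).comap j
  have ho : Over j u (lval (RF σ κ)) := fun _ => Iff.rfl
  obtain ⟨e, he⟩ := hV.exists_equiv
  let P : u.integer →+* (RF σ κ)⟦X⟧ := (e.symm : _ →+* _).comp ho.int
  have hP : ∀ y, μ (P y) = j y := fun y =>
    (he _).symm.trans (congrArg Subtype.val (e.apply_symm_apply (ho.int y)))
  let r : u.integer →+* RF σ κ := PowerSeries.constantCoeff.comp P
  have hr : IsRed u r := fun y => (hV.lt (P y)).symm.trans (by rw [hP]; rfl)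
  let f : κ →+* RF σ κ := (algebraMap (MP σ κ) _).comp MvPolynomial.C
  have hc : ∀ p : MP σ κ, j (toE (MP (Option σ) κ) F (up p)) =
      μ (PowerSeries.C (algebraMap _ _ p)) := fun p => by
    rw [hj.cst, lau_C, Algebra.algebraMap_self, MvPolynomial.map_id]
    rfl
  have hc' : ∀ a, j (cE (Option σ) κ F a) = μ (PowerSeries.C (f a)) := fun a => by
    have := hc (MvPolynomial.C a)
    rwa [up, MvPolynomial.rename_C] at this
  let β : κ →+* u.integer := (cE (Option σ) κ F).codRestrict _ fun a =>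
    show lval _ (j _) ≤ 1 by rw [hc']; exact hV.le _
  have hβ : ∀ a, P (β a) = PowerSeries.C (f a) := fun a => hV.2.1 ((hP _).trans (hc' a))
  have hrβ : r.comp (β.comp ρ) = f.comp ρ := RingHom.ext fun a =>
    (congrArg PowerSeries.constantCoeff (hβ _)).trans (PowerSeries.constantCoeff_C _)
  obtain ⟨hz, -, hx0, hl⟩ := Chart.gpt_spec hm hF.1
  obtain ⟨t, x', c, Φ, η, -, hx', hr0, hrz, hd, hsm, -, hη, hrη, -, hoff⟩ :=
    exists_ctr hG hC (β.comp ρ) hr hx0 hz
  rw [hrβ] at hrz hrη hoff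
  have hA1 : ∀ i, ((MvPolynomial.eval₂ (β.comp ρ) x' (c₀.f i) : u.integer) : F) = t ^ c₀.d *
      MvPolynomial.eval₂ ((cE (Option σ) κ F).comp ρ) (c₀.gpt ρ θ) (c₀.f i) := fun i => by
    rw [← fld_scale (c₀.hf i), ← funext hx']
    exact MvPolynomial.eval₂_comp_left u.integer.subtype _ _ _
  have hA2 : ∀ l, u (MvPolynomial.eval₂ (β.comp ρ) x' (c₀.f (some l)) : u.integer) =
      u (toE (MP (Option σ) κ) F (MvPolynomial.X l)) *
        u (MvPolynomial.eval₂ (β.comp ρ) x' (c₀.f none) : u.integer) := fun l => by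
    rw [hA1, hA1, hl, mul_left_comm, map_mul]
  have hA3 : u (MvPolynomial.eval₂ (β.comp ρ) x' (c₀.f none) : u.integer) < 1 := by
    have h1 : u (toE (MP (Option σ) κ) F (MvPolynomial.X none)) = WithZero.exp 1 :=
      (congrArg (lval _) hj.tau).trans (lval_single _ _)
    have h2 := (hA2 none).symm.trans_le (MvPolynomial.eval₂ (β.comp ρ) x' _).2
    rw [h1] at h2
    exact lt_of_not_ge fun h =>
      (one_lt_mul_of_lt_of_le' (WithZero.exp_lt_exp.2 zero_lt_one) h).not_ge h2
  obtain ⟨s, y, hs, hy⟩ := Chart.rat_inf (c₀ := c₀) f hr0 hrz fun i => by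
    rw [← hrβ]
    refine (MvPolynomial.eval₂_comp_left r _ x' _).symm.trans ((hr _).2 ?_)
    rcases i with _ | i
    · exact hA3
    · refine (hA2 (some i)).trans_lt ((mul_le_of_le_one_left' ?_).trans_lt hA3)
      have := hc (MvPolynomial.X i)
      rw [up, MvPolynomial.rename_X] at this
      exact (congrArg (lval _) this).trans_le (hV.le _)
  have hy' : c.xi (f.comp ρ) (fun i => r (x' i)) = fun l => f (c.xi ρ y l) := by
    rw [funext hy, tchg_scale c _ hs]
    exact funext fun l => (tfarc_xi c ρ f y l).symm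
  have hΘ : MvPolynomial.eval (c.xi ρ y) ((c.brs Φ).map ρ) ≠ 0 := fun h => hoff (by
    rw [MvPolynomial.eval_map] at h
    rw [hy']
    exact (MvPolynomial.eval₂_comp_left f ρ _ _).symm.trans ((congrArg f h).trans (map_zero f)))
  obtain ⟨-, E', _, _, _, _, jE, hu, hc1, hc2⟩ := hA c Φ hd hsm fun h => hΘ (by
    rw [PChart.brs, map_mul, up, MvPolynomial.map_rename, h, map_zero, mul_zero, map_zero])
  have ht : ∀ p, algebraMap F E (toE (MP (Option σ) κ) F p) = toE (MP (Option σ) κ) E p :=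
    fun p => (IsScalarTower.algebraMap_apply _ F E _).symm
  obtain ⟨h1, h2⟩ := tf_rf (jE.comp (algebraMap F E)) (cE (Option σ) κ F) (fun l => (η l : F))
    (fun a => (congrArg jE (ht _)).trans (hc1 a)) fun l => by
      rw [← hc2, hη, RingHom.comp_apply, tfarc_xi, funext (Chart.gpt_map _ ht θ)]
      exact congrArg (fun φ => jE (c.xi φ _ l)) (RingHom.ext fun a => ht _)
  let ψ : MP (Option σ) κ →+* (RF σ κ)⟦X⟧ :=
    MvPolynomial.eval₂Hom (PowerSeries.C.comp f) fun l => P (η l)
  have hψ : ∀ p, μ (ψ p) = j (MvPolynomial.eval₂ (cE (Option σ) κ F) (fun l => (η l : F)) p) :=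
    fun p => by
      rw [MvPolynomial.eval₂_comp_left j]
      refine (MvPolynomial.eval₂_comp_left μ _ _ p).trans ?_
      rw [show μ.comp (PowerSeries.C.comp f) = j.comp (cE (Option σ) κ F) from
        RingHom.ext fun a => (hc' a).symm]
      exact congrArg (fun v => MvPolynomial.eval₂ _ v p) (funext fun l => hP (η l))
  have hi : Function.Injective ψ := fun p q h => toE_inj E' (by
    rw [← h1, ← h1, j.injective ((hψ p).symm.trans ((congrArg μ h).trans (hψ q)))])
  have hα := isFr_alg (MP (Option σ) κ) (RF (Option σ) κ)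
  obtain ⟨J, hJ⟩ := arcx hα hu f ψ hi (fun a => MvPolynomial.eval₂Hom_C _ _ a) (c.xi ρ y)
    (fun l => (congrArg PowerSeries.constantCoeff (MvPolynomial.eval₂Hom_X' _ _ l)).trans
      ((hrη l).trans (congrFun hy' l))) hΘ μ hV.2.1
  refine tf_arc_sub jE h2 j J fun a w hw => ?_
  obtain ⟨p, q, hq, hpq⟩ := hα.2 a
  have h3 : algebraMap _ E' a * toE (MP (Option σ) κ) E' q = toE (MP (Option σ) κ) E' p :=
    (map_mul _ _ _).symm.trans (congrArg (algebraMap _ E') hpq)
  have h4 := congrArg J h3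
  rw [← hw, ← h1, ← h1] at h3
  have h5 := congrArg j ((jE.comp (algebraMap F E)).injective ((map_mul _ _ _).trans h3))
  rw [map_mul, ← hψ, ← hψ] at h5
  rw [map_mul, hJ, hJ] at h4
  exact mul_right_cancel₀ (fun h => hq (hi (hV.2.1 (h.trans (by rw [map_zero, map_zero])))))
    (h4.trans h5.symm)

end Pool.Agent.ZCy
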