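import Pool.Agent.Lib.MP_751085_ag.ZF.T.Root

/-! A tame cover is unramified over the ring with the root adjoined. -/

namespace Pool.Agent.ZCy

open scoped Classical Polynomial

theorem tfba_int {O O' ι : Type} [CommRing O] [CommRing O'] {i : O →+* O'} (h : i.IsIntegral) :
    (MvPolynomial.map (σ := ι) i).IsIntegral := by
  let := i.toAlgebra
  have : Algebra.IsIntegral O O' := ⟨h⟩
  let : Algebra (MP ι O) (MP ι O') := MvPolynomial.algebraMvPolynomial
  exact (inferInstance : Algebra.IsIntegral (MP ι O) (MP ι O')).1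

theorem tfba_inj {A A' E : Type} [CommRing A] [CommRing A'] [IsDomain A'] [Field E] {ψ : A →+* A'}
    (h : ψ.IsIntegral) {β : A' →+* E} (hi : Function.Injective (β.comp ψ)) :
    Function.Injective β := by
  let := ψ.toAlgebra
  have : Algebra.IsIntegral A A' := ⟨h⟩
  have := (β.comp ψ).domain_nontrivial
  exact (RingHom.injective_iff_ker_eq_bot β).2
    (Ideal.eq_bot_of_comap_eq_bot (R := A)
      ((RingHom.injective_iff_ker_eq_bot (β.comp ψ)).1 hi))

theorem tfba_fr {A' F E : Type} [CommRing A'] [IsDomain A'] [Field F] [Field E] [Algebra F E]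
    {β : A' →+* E} {t : A'} (h : ∀ y : F, ∃ a b, b ≠ 0 ∧ algebraMap F E y * β b = β a) {x : E}
    (hx : x ∈ IntermediateField.adjoin F {β t}) : ∃ a b, b ≠ 0 ∧ x * β b = β a := by
  induction hx using IntermediateField.adjoin_induction with
  | mem x hx => exact ⟨t, 1, one_ne_zero, by rw [map_one, mul_one, Set.mem_singleton_iff.1 hx]⟩
  | algebraMap y => exact h y
  | add x y _ _ hx hy =>
    obtain ⟨a, b, hb, e⟩ := hx
    obtain ⟨c, d, hd, e'⟩ := hy
    exact ⟨a * d + c * b, b * d, mul_ne_zero hb hd, by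
      simp only [map_add, map_mul, ← e, ← e']; ring⟩
  | inv x _ hx =>
    obtain ⟨a, b, hb, e⟩ := hx
    rcases eq_or_ne a 0 with rfl | ha
    · rcases eq_or_ne x 0 with rfl | h0
      · exact ⟨0, 1, one_ne_zero, by simp⟩
      · exact ⟨0, b, hb, by rw [(mul_eq_zero.1 (e.trans (map_zero β))).resolve_left h0]; simp⟩
    · rcases eq_or_ne x 0 with rfl | h0
      · exact ⟨0, 1, one_ne_zero, by simp⟩
      · exact ⟨b, a, ha, by rw [← e, inv_mul_cancel_left₀ h0]⟩
  | mul x y _ _ hx hy =>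
    obtain ⟨a, b, hb, e⟩ := hx
    obtain ⟨c, d, hd, e'⟩ := hy
    exact ⟨a * c, b * d, mul_ne_zero hb hd, by simp only [map_mul, ← e, ← e']; ring⟩

/-- `K'` is generated by `ϖ`. -/
theorem tf_base {O O' K ι E : Type} [CommRing O] [IsDomain O] [IsDiscreteValuationRing O]
    [CommRing O'] [IsDomain O'] [IsDiscreteValuationRing O'] [Field K] [Algebra O K]
    [IsFractionRing O K] [Finite ι] [Field E] [Algebra (RF ι K) E] [FiniteDimensional (RF ι K) E]
    [IsGalois (RF ι K) E] {π : O} {Θ : MP ι O} {e : ℕ} {ϖ : E} (hπ : Irreducible π)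
    (T : TCov K π Θ E e ϖ) {i : O →+* O'} {ϖ₀ : O'} (h : Eis π e i ϖ₀) :
    ∃ (K' : IntermediateField (RF ι K) E) (α' : MP ι O' →+* K'), IsFr α' ∧
      (∀ Q, tE E α' (MvPolynomial.map i Q) = gO O K ι E Q) ∧
      tE E α' (MvPolynomial.C ϖ₀) = ϖ ∧ UnrOff K' (tE E α') (Θ.map i) ∧
      IntOff (tE E α') (Θ.map i) = IntOff (gO O K ι E) Θ ∧
      ∀ g : E ≃ₐ[RF ι K] E, g ϖ = ϖ → ∃ g' : E ≃ₐ[K'] E, ∀ x, g' x = g x := by
  have hα := (isFr_alg O K).mv (isFr_alg (MP ι K) (RF ι K))
  obtain ⟨φ', h1, h2⟩ := h.lift E ((gO O K ι E).comp MvPolynomial.C) ϖ T.root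
  obtain ⟨β, b1, b2⟩ : ∃ β : MP ι O' →+* E, (∀ a, β (MvPolynomial.C a) = φ' a) ∧
      ∀ j, β (MvPolynomial.X j) = gO O K ι E (MvPolynomial.X j) :=
    ⟨MvPolynomial.eval₂Hom φ' _, MvPolynomial.eval₂Hom_C _ _, MvPolynomial.eval₂Hom_X' _ _⟩
  have e1 : β.comp (MvPolynomial.map i) = gO O K ι E := MvPolynomial.ringHom_ext
    (fun a => by rw [RingHom.comp_apply, MvPolynomial.map_C, b1, h1]; rfl)
    fun j => by rw [RingHom.comp_apply, MvPolynomial.map_X, b2]
  have e2 : ∀ Q, β (MvPolynomial.map i Q) = gO O K ι E Q := RingHom.congr_fun e1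
  have e3 : β (MvPolynomial.C ϖ₀) = ϖ := (b1 _).trans h2
  have hϖ := IntermediateField.mem_adjoin_simple_self (RF ι K) ϖ
  set K' := IntermediateField.adjoin (RF ι K) {ϖ}
  have m0 : ∀ Q, gO O K ι E Q ∈ K' := fun Q => K'.algebraMap_mem _
  have m1 : ∀ Q, β Q ∈ K' := fun Q => by
    induction Q using MvPolynomial.induction_on with
    | C a =>
      obtain ⟨p, rfl⟩ := h.gen a
      rw [b1, Polynomial.hom_eval₂, h2, Polynomial.eval₂_eq_sum_range]
      exact sum_mem fun n _ => mul_mem (by rw [RingHom.comp_apply, h1]; exact m0 _) (pow_mem hϖ n)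
    | add p q hp hq => rw [map_add]; exact add_mem hp hq
    | mul_X p j hp => rw [map_mul, b2]; exact mul_mem hp (m0 _)
  have hi := tfba_int (ι := ι) h.int
  have i1 : Function.Injective β :=
    tfba_inj hi (e1 ▸ (algebraMap (RF ι K) E).injective.comp hα.1)
  have hα' : IsFr (β.codRestrict K' m1) := ⟨fun a b e => i1 (congrArg Subtype.val e), fun x => by
    obtain ⟨a, b, hb, e⟩ := tfba_fr (β := β) (t := MvPolynomial.C ϖ₀) (fun y => by
      obtain ⟨a, b, hb, e⟩ := hα.2 y
      refine ⟨MvPolynomial.map i a, _,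
        (map_ne_zero_iff _ (MvPolynomial.map_injective i h.inj)).2 hb, ?_⟩
      rw [e2, e2 a]
      exact (map_mul _ _ _).symm.trans (congrArg (algebraMap (RF ι K) E) e))
      (x := x) (by rw [e3]; exact x.2)
    exact ⟨a, b, hb, Subtype.ext e⟩⟩
  refine ⟨K', β.codRestrict K' m1, hα', e2, e3, fun P' w hP hn hc => ?_, le_antisymm
    (fun x hx P w _ hn hc => le_one_of_intOff hα' (j := RingHom.id E) (fun a => ?_) ?_ hx)
    fun x hx => intOff_map hα (j := RingHom.id E) (fun a => (e2 a).symm) hx, fun g hg =>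
      ⟨{ g with commutes' := fun x => ?_ }, fun _ => rfl⟩⟩
  · obtain ⟨r, hr⟩ := exists_rs (j := RingHom.id E) (φ := algebraMap (RF ι K) K') fun _ => rfl
    have ri : Function.Injective r := fun a b e => AlgEquiv.ext fun x =>
      (hr a x).symm.trans ((AlgEquiv.congr_fun e x).trans (hr b x))
    have hΘ : w (gO O K ι E Θ) = 1 := e2 Θ ▸ (hc.eq_one _).2 hn
    have hs := cen_of_flat (flat_mv (flat_pid h.inj)) (MvPolynomial.map_injective i h.inj) hP
      (φ' := β) hc
    simp only [e1, e2] at hs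
    have hp : Prime (MvPolynomial.C π : MP ι O) := (MvPolynomial.prime_C_iff ι).2 hπ.prime
    by_cases hw : w (gO O K ι E (MvPolynomial.C π)) = 1
    · exact ine_bot_of_cen hα hr ri (unrOff_of_frac_mv (isFr_alg O K) hπ T.unr)
        ((congrArg w (map_mul (gO O K ι E) _ _)).trans (by rw [map_mul, hw, hΘ, one_mul])) hs
    · obtain ⟨P, hP, hc⟩ := hs.resolve_left fun h => hw (h _ hp.ne_zero)
      refine eq_bot_iff.2 fun g hg => Subgroup.mem_bot.2 (ri ((T.faith w (hc.assoc
        (hP.associated_of_dvd hp (not_not.1 fun hn => hw ((hc.eq_one _).2 hn)))) _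
          (hr.ine (fun _ => Iff.rfl) hg) ?_).trans (map_one r).symm))
      exact (hr g ϖ).trans (g.commutes ⟨ϖ, hϖ⟩)
  · obtain ⟨p, hm, hp⟩ := hi a
    refine le_one_of_int hc.1 ⟨p, hm, ?_⟩
    rw [← e1]
    exact (Polynomial.hom_eval₂ p _ β a).symm.trans (by rw [hp, map_zero])
  · exact (congrArg w (e2 Θ)).trans ((hc.eq_one _).2 hn)
  · obtain ⟨x, hx⟩ := x
    change g x = x
    induction hx using IntermediateField.adjoin_induction with
    | mem x hx => rw [Set.mem_singleton_iff.1 hx, hg]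
    | algebraMap y => exact g.commutes y
    | add x y _ _ hx hy => rw [map_add, hx, hy]
    | inv x _ hx => rw [map_inv₀, hx]
    | mul x y _ _ hx hy => rw [map_mul, hx, hy]

end Pool.Agent.ZCy
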