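import Pool.Agent.Lib.MP_751085_ag.ZF.T.T1
import Pool.Agent.Lib.MP_751085_ag.ZF.T.Kx
import Pool.Agent.Lib.MP_751085_ag.ZF.T.Chg
import Pool.Agent.Lib.MP_751085_ag.ZF.R3

/-! Classes whose residue comes from the constants. -/

namespace Pool.Agent.ZCy.F

open scoped Classical Polynomial

variable {k O K κ σ : Type} [Field k] [CommRing O] [IsDomain O] [CDVR O] [Field K]
  [Algebra O K] [IsFractionRing O K] [Algebra k K] [Field κ] [IsAlgClosed κ] [Fintype σ] {s : ℕ}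
  {ρ : O →+* κ} {π : O} {X : Var k} {GG : Set (Fm X.N O)}

/-- a class with constant residue has constant values -/
theorem const_val [Infinite k] (H : THyp) (hs : FinB κ s) (hρ : LRes ρ s) {n : ℕ} (hX : X.Nice n)
    (hσ : Fintype.card σ + 1 = n) (hM : X.Model (K := K) GG) (hC : CHvS σ GG)
    {c₀ : Chart O σ X.N GG} (A : X.KX K c₀) (h : XH π ρ c₀.toPChart A.c.toPChart A.θ)
    {cl : BR X.F} (hcl : cl ∈ X.Bw) {l : ℕ} (hl : l.Prime) (hN : IsUnit (l : O)) (h0 : Prim l cl)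
    {v : Vl A.F} (hv : Cen1 (gO O K (Option σ) A.F) v (MvPolynomial.C π))
    {q₀ : AddCircle (1 : ℚ)} (hq : ConstR K ρ s v (Option σ) (rs A.γ cl) q₀) :
    CVal X K ρ s cl q₀ := by
  intro L _ _ _ _ _ Y x hx
  have hE := H.ev k X n hX (by omega)
  obtain ⟨c₁, Φ₁, y, z, u, -, hsm, h1, h2, hu, h3, hΦ, hD⟩ := Var.exists_intptF hρ h.irr hM hC Y hx
  obtain ⟨A', ⟨T⟩⟩ := exists_kx H hX hσ hM c₁ Φ₁ hsm h.irr hΦ hcl hl hN h0
  obtain ⟨hb, r, hr⟩ := c₁.toPChart.bez_brs Φ₁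
  obtain ⟨φ, hφ⟩ := hs.frob Y.f
  obtain ⟨Γ, hΓ⟩ := exists_coefE (ι := Option σ) φ
  obtain ⟨v', ρ', q, hv', r1, r2, r3, r4, r5⟩ :=
    kx_t1 hs hρ h.irr hE hcl A' hb hr T Y h1 h2 hφ hΓ
  obtain ⟨j, j1, j2, j3, -⟩ := A.cmpF h.irr A'
    (fun d => hD ((mp_prime h.irr).1.dvd_of_dvd_pow (d.trans hr))) hv'
  obtain rfl := h.eq hv j3
  obtain ⟨γ, hγ⟩ := exists_taut (Ω := AlgebraicClosure (FP (Option σ) κ)) Γ
  let i := algebraMap (FP (Option σ) κ) (AlgebraicClosure (FP (Option σ) κ))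
  obtain ⟨ρ₁, s1, s2⟩ := (r1.tcomp i).comap j (w := v'.comap j) fun _ => Iff.rfl
  have s3 : ∀ a, γ (i.comp ρ' a) = i.comp ρ' a := fun a => (hγ _).trans (congrArg i (r3 a))
  have s4 := hq _ (i.comp ((ps _ κ).comp MvPowerSeries.C)) ρ₁ γ Y.f s1
    (fun a b e => (s2 b ⟨j b, b.2⟩ rfl).trans (congrArg i
      ((r2.1 (MvPolynomial.C a) _ ((congrArg j e).trans (j2 a))).trans
        (congrArg (ps _ κ) (MvPolynomial.eval₂Hom_C _ _ a)))))
    (fun a => by rw [s2 a ⟨j a, a.2⟩ rfl, s3]) fun a => (hγ _).trans (congrArg i ((hΓ _).trans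
      (congrArg (ps _ κ) ((MvPowerSeries.map_C _ a).trans (congrArg _ (hφ a))))))
  have s5 := ResAt.map j one_pos (fun a _ => by rw [Nat.cast_one, one_mul]; rfl)
    (r1.tcomp i) (ι := RingHom.id _) (fun a b e => (s2 a b e).symm) (fun _ => rfl) s3 s4
  rw [lf_comp, j1, one_nsmul] at s5
  rwa [(r4.comp i hγ).uniq s5, h3, hE.val_smul cl hcl L x u hx hu, ← mul_nsmul'] at r5

end Pool.Agent.ZCy.F
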