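import Pool.Agent.Lib.MP_751085_ag.ZF.T.Sub
import Pool.Agent.Lib.MP_751085_ag.ZF.T.Pure

/-! The centre of a valuation on the special fibre lies in a good chart. -/

namespace Pool.Agent.ZCy

open scoped Classical Polynomial

variable {O κ σ : Type} [CommRing O] [Field κ] [Fintype σ] {N : ℕ} {GG : Set (Fm N O)}

/-- divide `x` by a coordinate of largest value and reduce -/
theorem exists_ctr (hG : ∀ G ∈ GG, ∃ m, G.IsHomogeneous m) (hC : CHvS σ GG) {E Ω : Type} [Field E]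
    [Field Ω] {u : Vl E} (φ : O →+* u.integer) {r : u.integer →+* Ω} (hr : IsRed u r)
    {x : Fin (N + 1) → E} (h0 : x ≠ 0) (hx : Zer GG (u.integer.subtype.comp φ) x) :
    ∃ (t : E) (x' : Fin (N + 1) → u.integer) (c : Chart O σ N GG) (Φ : MP σ O)
      (η : Option σ → u.integer), t ≠ 0 ∧ (∀ j, (x' j : E) = t * x j) ∧
      (fun j => r (x' j)) ≠ 0 ∧ Zer GG (r.comp φ) (fun j => r (x' j)) ∧ IsUnit (c.d : O) ∧ c.SM Φ ∧
      MvPolynomial.eval₂ (u.integer.subtype.comp φ) x (c.f none) ≠ 0 ∧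
      (∀ l, (η l : E) = c.xi (u.integer.subtype.comp φ) x l) ∧
      (∀ l, r (η l) = c.xi (r.comp φ) (fun j => r (x' j)) l) ∧
      c.Off (c.brs Φ) (r.comp φ) fun j => r (x' j) := by
  obtain ⟨i, hi⟩ := Finite.exists_max fun j => u (x j)
  have h1 : x i ≠ 0 := fun e => h0 (funext fun j => u.zero_iff.1 (by simpa [e] using hi j))
  obtain ⟨x', hx'⟩ : ∃ x' : Fin (N + 1) → u.integer, ∀ j, (x' j : E) = (x i)⁻¹ * x j :=
    ⟨fun j => ⟨_, by
      rw [Valuation.mem_integer_iff, map_mul, map_inv₀]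
      exact inv_mul_le_one_of_le₀ (hi j) zero_le⟩, fun _ => rfl⟩
  have key : ∀ {G : Fm N O} {m : ℕ}, G.IsHomogeneous m →
      ((MvPolynomial.eval₂ φ x' G : u.integer) : E) =
        (x i)⁻¹ ^ m * MvPolynomial.eval₂ (u.integer.subtype.comp φ) x G := fun hm =>
    (MvPolynomial.eval₂_comp_left u.integer.subtype φ x' _).trans
      ((congrArg (MvPolynomial.eval₂ _ · _) (funext hx')).trans (fld_scale hm _ _ _))
  have h2 : (fun j => r (x' j)) ≠ 0 := fun e => one_ne_zero ((map_one r).symm.trans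
    ((congrArg r (Subtype.ext ((hx' i).trans (inv_mul_cancel₀ h1)).symm)).trans (congrFun e i)))
  have h3 : Zer GG (r.comp φ) fun j => r (x' j) := Zer.comp (fun G h => by
    obtain ⟨m, hm⟩ := hG G h
    exact Subtype.ext ((key hm).trans (mul_eq_zero_of_right _ (hx G h)))) r
  obtain ⟨c, Φ, hd, hS, hO⟩ := hC Ω _ _ h2 h3
  have e := fun l => MvPolynomial.eval₂_comp_left r φ x' (c.f l)
  have h4 := (hr.ne_zero _).1 ((e none).trans_ne hO.1)
  have h5 := u.ne_zero_iff.1 (h4.trans_ne one_ne_zero)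
  obtain ⟨η, hη⟩ : ∃ η : Option σ → u.integer, ∀ l, η l * MvPolynomial.eval₂ φ x' (c.f none) =
      MvPolynomial.eval₂ φ x' (c.f (some l)) :=
    ⟨fun l => ⟨(MvPolynomial.eval₂ φ x' (c.f (some l)) : u.integer) /
      (MvPolynomial.eval₂ φ x' (c.f none) : u.integer), by
        rw [Valuation.mem_integer_iff, map_div₀, h4, div_one]
        exact (MvPolynomial.eval₂ φ x' _).2⟩, fun l => Subtype.ext (div_mul_cancel₀ _ h5)⟩
  rw [key (c.hf _)] at h5
  refine ⟨_, x', c, Φ, η, inv_ne_zero h1, hx', h2, h3, hd, hS, right_ne_zero_of_mul h5, fun l => ?_,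
    fun l => eq_div_of_mul_eq hO.1 ?_, hO⟩
  · have h6 := congrArg Subtype.val (hη l)
    rw [Subring.coe_mul, key (c.hf _), key (c.hf _), mul_left_comm] at h6
    exact eq_div_of_mul_eq (right_ne_zero_of_mul h5) (mul_left_cancel₀ (left_ne_zero_of_mul h5) h6)
  · exact ((congrArg _ (e none).symm).trans (map_mul r _ _).symm).trans
      ((congrArg r (hη l)).trans (e _))

variable {ρ : O →+* κ} {c₀ : Chart O σ N GG} {cb : PChart κ σ} {F E : Type} [Field F] [Field E]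
  [Algebra (RF (Option σ) κ) F]

theorem Chart.gpt_spec (hm : c₀.toPChart.IsMap ρ cb) {θ : F}
    (hθ : cb.χ.eval₂ (toE (MP (Option σ) κ) F) θ = 0) :
    Zer GG ((cE (Option σ) κ F).comp ρ) (c₀.gpt ρ θ) ∧
      MvPolynomial.eval₂ ((cE (Option σ) κ F).comp ρ) (c₀.gpt ρ θ) (c₀.f none) ≠ 0 ∧
      c₀.gpt ρ θ ≠ 0 ∧ ∀ l, MvPolynomial.eval₂ ((cE (Option σ) κ F).comp ρ) (c₀.gpt ρ θ)
        (c₀.f (some l)) = toE (MP (Option σ) κ) F (MvPolynomial.X l) *
          MvPolynomial.eval₂ ((cE (Option σ) κ F).comp ρ) (c₀.gpt ρ θ) (c₀.f none) := by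
  have e := fld_hom (toE (MP (Option σ) κ) F)
  have h1 : ev ((cE (Option σ) κ F).comp ρ)
      (fun i => toE (MP (Option σ) κ) F (MvPolynomial.X i)) θ c₀.χ = 0 := by
    rw [← ev_mq, ← hm.χ, ev_def, e, hθ]
  have h2 := (c₀.ne F _ _ θ h1 (by
    rw [← MvPolynomial.eval₂_map, ← hm.D, ← MvPolynomial.coe_eval₂Hom, e]
    exact (map_ne_zero_iff _ (toE_inj F)).2 cb.D_ne)).1
  rw [ev_sb] at h2
  refine ⟨tchg_zer c₀ h1, h2, fun h => h2 ?_, fun l => ?_⟩
  · have h3 := fld_scale (c₀.hf none) ((cE (Option σ) κ F).comp ρ) 0 (c₀.gpt ρ θ)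
    rw [zero_pow c₀.dpos.ne', zero_mul] at h3
    exact (congrArg (MvPolynomial.eval₂ _ · _) (h.trans (funext fun _ => (zero_mul _).symm))).trans h3
  · have h3 := map_dvd (ev ((cE (Option σ) κ F).comp ρ)
      (fun i => toE (MP (Option σ) κ) F (MvPolynomial.X i)) θ) (c₀.dv_f l)
    rwa [h1, zero_dvd_iff, map_sub, map_mul, ev_C, MvPolynomial.eval₂_X, ev_sb, ev_sb,
      sub_eq_zero] at h3

omit [Fintype σ] in
theorem Chart.gpt_map [Algebra (RF (Option σ) κ) E] (j : F →+* E)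
    (hj : ∀ p, j (toE (MP (Option σ) κ) F p) = toE (MP (Option σ) κ) E p) (θ : F) (i : Fin (N + 1)) :
    j (c₀.gpt ρ θ i) = c₀.gpt ρ (j θ) i := by
  have e : j.comp ((cE (Option σ) κ F).comp ρ) = (cE (Option σ) κ E).comp ρ :=
    RingHom.ext fun a => hj _
  rw [Chart.gpt, Chart.pv, map_ev, e, funext fun i => hj (MvPolynomial.X i)]
  rfl

omit [Fintype σ] in
/-- a subfield that contains the constants and the variables contains all rational functions -/
theorem tf_rf {ι E' : Type} [Field E'] [Algebra (RF ι κ) E'] (j : F →+* E') (β : κ →+* F)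
    (η : ι → F) (h1 : ∀ a, j (β a) = cE ι κ E' a)
    (h2 : ∀ l, j (η l) = toE (MP ι κ) E' (MvPolynomial.X l)) :
    (∀ p, j (MvPolynomial.eval₂ β η p) = toE (MP ι κ) E' p) ∧
      ∀ a : RF ι κ, ∃ y, j y = algebraMap (RF ι κ) E' a := by
  have h : ∀ p, j (MvPolynomial.eval₂ β η p) = toE (MP ι κ) E' p :=
    RingHom.congr_fun (MvPolynomial.ringHom_ext (f := j.comp (MvPolynomial.eval₂Hom β η))
      (fun a => (congrArg j (MvPolynomial.eval₂_C _ _ a)).trans (h1 a))
      fun l => (congrArg j (MvPolynomial.eval₂_X _ _ l)).trans (h2 l))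
  refine ⟨h, fun a => ?_⟩
  obtain ⟨p, q, -, rfl⟩ := IsFractionRing.div_surjective (MP ι κ) a
  exact ⟨MvPolynomial.eval₂ β η p / MvPolynomial.eval₂ β η q, by
    rw [map_div₀, map_div₀, h p, h q]; rfl⟩

/-- the centre of `u` lies in a good chart; purity -/
theorem tf_unr (hG : ∀ G ∈ GG, ∃ m, G.IsHomogeneous m) (hC : CHvS σ GG)
    (hm : c₀.toPChart.IsMap ρ cb) [Algebra F E] [Algebra (RF (Option σ) κ) E]
    [IsScalarTower (RF (Option σ) κ) F E] [FiniteDimensional F E] [IsGalois F E] {θ : F}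
    (hF : cb.FF F θ) (hA : AllCov σ GG ρ (cE (Option σ) κ E) (c₀.gpt ρ (algebraMap F E θ)))
    (u : Vl E) (hu : Triv (cE (Option σ) κ E) u) : Ine F u = ⊥ := by
  have hj : ∀ p, algebraMap F E (toE (MP (Option σ) κ) F p) = toE (MP (Option σ) κ) E p :=
    fun p => (IsScalarTower.algebraMap_apply _ F E _).symm
  obtain ⟨h1, -, h0, -⟩ := Chart.gpt_spec hm (θ := algebraMap F E θ) (by
    rw [← (RingHom.ext hj : (algebraMap F E).comp _ = _), ← Polynomial.hom_eval₂, hF.1, map_zero])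
  obtain ⟨Ω, _, r, hr, -⟩ := exists_resf u
  let β : κ →+* u.integer := (cE (Option σ) κ E).codRestrict _ fun a =>
    (eq_or_ne a 0).elim (fun e => by rw [e, map_zero]; exact zero_mem _) fun e => (hu a e).le
  obtain ⟨-, x', c, Φ, η, -, -, -, -, hd, hS, -, h2, h3, -, h4⟩ :=
    exists_ctr hG hC (β.comp ρ) hr h0 h1
  rw [← funext h3, ← RingHom.comp_assoc, ← MvPolynomial.eval₂_map] at h4
  obtain ⟨-, E', _, _, _, _, j, hU, h5, h6⟩ := hA c Φ hd hS fun e => h4 (by
    rw [PChart.brs, map_mul, map_up, e, up, map_zero, mul_zero, MvPolynomial.eval₂_zero])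
  have key : ∀ p, toE (MP (Option σ) κ) E' p = j (MvPolynomial.eval₂ β η p : u.integer) :=
    fun p => ((tf_rf j _ (fun l => η l) h5 fun l => (congrArg j (h2 l)).trans (h6 l)).1 p).symm.trans
      (congrArg j (MvPolynomial.eval₂_comp_left u.integer.subtype β η p).symm)
  refine tf_unr_sub j (tf_rf (j.comp (algebraMap F E)) (cE (Option σ) κ F)
    (c.xi ((cE (Option σ) κ F).comp ρ) (c₀.gpt ρ θ)) (fun a => (congrArg j (hj _)).trans (h5 a))
    fun l => (congrArg j ?_).trans (h6 l)).2 fun u' ho => ine_bot_off (isFr_alg _ _) hU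
      (fun p => ((congrArg u' (key p)).trans_le ((ho _).2 (MvPolynomial.eval₂ β η p).2)))
      ((congrArg u' (key _)).trans ((ho.eq_one _).2 ((hr.ne_zero _).1
        ((MvPolynomial.eval₂_comp_left r β η _).trans_ne h4))))
  have e : (algebraMap F E).comp ((cE (Option σ) κ F).comp ρ) = (cE (Option σ) κ E).comp ρ :=
    RingHom.ext fun a => hj _
  have e' : algebraMap F E ∘ c₀.gpt ρ θ = c₀.gpt ρ (algebraMap F E θ) :=
    funext (Chart.gpt_map _ hj θ)
  rw [Chart.xi, Chart.xi, map_div₀, MvPolynomial.eval₂_comp_left, MvPolynomial.eval₂_comp_left, e, e']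

end Pool.Agent.ZCy
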