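import Pool.Agent.Lib.MP_751085_ag.ZF.T.VDefs
import Pool.Agent.Lib.MP_751085_ag.ZF.K.Iface
import Pool.Agent.Lib.MP_751085_ag.ZF.EIf

/-! Good places in any characteristic: definitions that involve Brauer groups. -/

namespace Pool.Agent.ZCy.F

open Pool.Agent.ZFy
open scoped Classical WithZero Polynomial
open groupCohomology

/-- the residue of the class `β` of the local field `K` takes the value `x` at Frobenius -/
def LInv {R κ : Type} (K : Type) [CommRing R] [Field κ] [Field K] [Algebra R K] (ρ : R →+* κ)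
    (s : ℕ) (β : BR K) (x : AddCircle (1 : ℚ)) : Prop :=
  ∃ (v : Vl K) (ρ' : v.integer →+* κ) (γ : κ ≃+* κ), IsVR (algebraMap R K) v ∧
    RedA (algebraMap R K) ρ' ρ ∧ (∀ z, γ z = z ^ s) ∧ ResAt v ρ' β γ x

/-- residue data on a given extension -/
structure RDat {F E : Type} [Field F] [Field E] [Algebra F E] (v : Vl F) (w : Vl E) (a : BR F) where
  e : ℚ
  c : (E ≃ₐ[F] E) × (E ≃ₐ[F] E) → Eˣ
  lam : (E ≃ₐ[F] E) → ℚ
  e_pos : 0 < e
  idq : Idq (algebraMap F E) v w e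
  coc : IsMulCocycle₂ c
  cls_eq : cls F c = a
  infl : Infl (Dec F w) (Ine F w) c
  ord_eq : ∀ g ∈ Dec F w, ∀ h ∈ Dec F w,
    (ord w (c (g, h) : E) : ℚ) = e * (lam g + lam h - lam (g * h))

section

variable {F E Ω Ω' : Type} [Field F] [Field E] [Algebra F E] [Field Ω] [Field Ω'] {v : Vl F}
  {w : Vl E} {a : BR F}

/-- the bundled residue data -/
def RDat.rd [FiniteDimensional F E] [IsGalois F E] (R : RDat v w a) : RD v a :=
  { E := E, w := w, e := R.e, c := R.c, lam := R.lam, e_pos := R.e_pos, idq := R.idq,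
    coc := R.coc, cls_eq := R.cls_eq, infl := R.infl, ord_eq := R.ord_eq }

theorem RDat.resAt [FiniteDimensional F E] [IsGalois F E] (R : RDat v w a) {ρ : v.integer →+* Ω}
    {ρ' : w.integer →+* Ω} (h : IsRed w ρ') (hc : Cmp (algebraMap F E) ρ ρ' id) {d : E ≃ₐ[F] E}
    (hd : d ∈ Dec F w) {γ : Ω ≃+* Ω} (hγ : Cmp d ρ' ρ' γ) :
    ResAt v ρ a γ (R.lam d : AddCircle (1 : ℚ)) := ⟨R.rd, ρ', d, h, hc, hd, hγ, rfl⟩

theorem ResAt.comp {ρ : v.integer →+* Ω} {γ : Ω ≃+* Ω} {q : AddCircle (1 : ℚ)}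
    (h : ResAt v ρ a γ q) (β : Ω →+* Ω') {γ' : Ω' ≃+* Ω'} (hβ : ∀ x, γ' (β x) = β (γ x)) :
    ResAt v (β.comp ρ) a γ' q := by
  obtain ⟨R, ρ', d, h1, h2, h3, h4, h5⟩ := h
  exact ⟨R, β.comp ρ', d, h1.tcomp β, fun x y e => congrArg β (h2 x y e), h3,
    fun x y e => (congrArg β (h4 x y e)).trans (hβ _).symm, h5⟩

end

/-- a representation by roots of unity on a tame cover -/
structure TRep {O ι : Type} [CommRing O] (K : Type) [Field K] [Algebra O K] (π : O) (Θ : MP ι O)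
    (F : Type) [Field F] [Algebra (RF ι K) F] (a : BR F) : Type 1
    extends MuC (Θ.map (algebraMap O K)) F where
  e : ℕ
  ϖ : Eˣ
  ζ : Eˣ
  cls_eq : cls F c = a
  cov : TCov K π Θ E e ϖ
  prim : IsPrimitiveRoot ζ (m * e)
  unit : IsUnit ((m * e : ℕ) : O)

section

variable {O K ι F κ : Type} [CommRing O] [Field K] [Algebra O K] [Field F] [Algebra (RF ι K) F]
  [Field κ]

variable (K) in
/-- the residue of `a` is the inflation of the character of the constants with value `q₀` at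
Frobenius -/
def ConstR (ρ₀ : O →+* κ) (s : ℕ) (v : Vl F) (ι : Type) [Algebra (RF ι K) F] (a : BR F)
    (q₀ : AddCircle (1 : ℚ)) : Prop :=
  ∀ (𝕂 : Type) [Field 𝕂] [IsAlgClosed 𝕂] (β : κ →+* 𝕂) (ρ : v.integer →+* 𝕂) (γ : 𝕂 ≃+* 𝕂) (f : ℕ),
    IsRed v ρ → RedA ((gO O K ι F).comp MvPolynomial.C) ρ (β.comp ρ₀) → (∀ x, γ (ρ x) = ρ x) →
    (∀ z, γ (β z) = β (z ^ s ^ f)) → ResAt v ρ a γ (f • q₀)

variable (K) in
/-- the residue of `cl` has different values at the Frobenius elements of two points of the curve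
over the line -/
def TwoPt (ρ₀ : O →+* κ) (s : ℕ) (χ : (MP ι O)[X]) (Θ : MP ι O) (a b : ι → O) (θ : F) (v : Vl F)
    (cl : BR F) : Prop :=
  ∃ (m : ℕ) (t z : Fin 2 → κ), 0 < m ∧ (∀ i, LPt ρ₀ χ Θ a b (s ^ m) (t i) (z i)) ∧
    ∀ (φ : κ ≃+* κ) (Γ : FP ι κ ≃+* FP ι κ) (ρ : Fin 2 → v.integer →+* FP ι κ)
      (q : Fin 2 → AddCircle (1 : ℚ)), (∀ x, φ x = x ^ s ^ m) → CoefL (φ : κ →+* κ) Γ →
      (∀ i, IsRed v (ρ i) ∧ AtPt K ρ₀ θ (ρ i) (tpt ρ₀ a b (t i)) (z i) ∧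
        ResAt v (ρ i) cl Γ (q i)) → q 0 ≠ q 1

end

/-- the statements of other blocks that are used -/
structure THyp : Prop where
  chf : CHFp
  ev : EV
  kt : ThmKTp
  gm : ∀ (O σ : Type) [CommRing O] [Fintype σ] (N : ℕ) (GG : Set (Fm N O)) (c : Chart O σ N GG)
    (Φ : MP σ O), (∀ G ∈ GG, ∃ m, G.IsHomogeneous m) → c.SM Φ → GoodM c.toPChart Φ
  conn : CONN
  irro : IRRO

variable {k O κ σ : Type} [Field k] [CommRing O] [Field κ] (X : Var k) (K : Type) [Field K]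
  [Algebra k K] [Algebra O K] (ρ : O →+* κ) (s : ℕ)

/-- the values of the class at all points are given by one character of the constants -/
def CVal (cl : BR X.F) (q₀ : AddCircle (1 : ℚ)) : Prop :=
  ∀ (L : Type) [Field L] [Algebra K L] [Algebra k L] [IsScalarTower k K L] [FiniteDimensional K L]
    (Y : LExt K ρ s L) (x : Fin (X.N + 1) → L), X.On x →
      LInv L Y.ρ (s ^ Y.f) (X.vl cl L x) ((Y.e * Y.f) • q₀)

/-- the class has different values at all lifts of two points of the curve over the line -/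
def TVal {GG : Set (Fm X.N O)} (c₀ : Chart O σ X.N GG) (Θ : MP (Option σ) O)
    (a b : Option σ → O) (cl : BR X.F) : Prop :=
  ∃ (m : ℕ) (t z : Fin 2 → κ), 0 < m ∧ (∀ i, LPt ρ c₀.χ Θ a b (s ^ m) (t i) (z i)) ∧
    ∀ (L : Type) [Field L] [Algebra K L] [Algebra k L] [IsScalarTower k K L] [FiniteDimensional K L]
      (Y : LExt K ρ s L), Y.e = 1 → Y.f = m → ∀ (y : Fin 2 → Option σ → Y.R) (ζ : Fin 2 → Y.R),
      (∀ i, ev (algebraMap O Y.R) (y i) (ζ i) c₀.χ = 0 ∧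
        (∀ j, Y.ρ (y i j) = tpt ρ a b (t i) j) ∧ Y.ρ (ζ i) = z i) →
      ∃ q : Fin 2 → AddCircle (1 : ℚ), q 0 ≠ q 1 ∧ ∀ i, LInv L Y.ρ (s ^ m) (X.vl cl L
        fun j => algebraMap Y.R L (c₀.pv (algebraMap O Y.R) (y i) (ζ i) j)) (q i)

end Pool.Agent.ZCy.F
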