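import Pool.Agent.Lib.MP_751085_ag.ZF.T.Defs
import Pool.Agent.Lib.MP_751085_ag.ZF.R6c
import Pool.Agent.Lib.MP_751085_ag.ZF.E.N1

/-! What block T uses of block R. -/

namespace Pool.Agent.ZCy.F

open scoped Classical WithZero Polynomial

set_option linter.unusedVariables false
set_option linter.unusedSectionVars false

variable {K K' Ω Ω' : Type} [Field K] [Field K'] [Field Ω] [Field Ω'] {v : Vl K}
  {ρ : v.integer →+* Ω} {a a' : BR K} {γ : Ω ≃+* Ω} {q q' : AddCircle (1 : ℚ)}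

theorem nr_uniq [IsAlgClosed Ω] (hv : Nrm v) (h : ResAt v ρ a γ q) (h' : ResAt v ρ a γ q') :
    q = q' :=
  h.uniq h'

theorem nr_sub [IsAlgClosed Ω] (hv : Nrm v) (h : ResAt v ρ a γ q) (h' : ResAt v ρ a' γ q') :
    ResAt v ρ (a - a') γ (q - q') :=
  h.sub h'

theorem nr_add [IsAlgClosed Ω] (hv : Nrm v) (h : ResAt v ρ a γ q) (h' : ResAt v ρ a' γ q') :
    ResAt v ρ (a + a') γ (q + q') :=
  h.add h'

theorem nr_zero [IsAlgClosed Ω] (hv : Nrm v) (hρ : IsRed v ρ) (hγ : ∀ x, γ (ρ x) = ρ x) :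
    ResAt v ρ 0 γ 0 :=
  resAt_zero hρ hγ

theorem nr_mul [IsAlgClosed Ω] (hv : Nrm v) {γ' : Ω ≃+* Ω} (h : ResAt v ρ a γ q)
    (h' : ResAt v ρ a γ' q') : ResAt v ρ a (γ * γ') (q + q') :=
  h.mul h'

theorem nr_exists [IsAlgClosed Ω] (h : HasRes v a) (hρ : IsRed v ρ) (hγ : ∀ x, γ (ρ x) = ρ x) :
    ∃ q, ResAt v ρ a γ q :=
  h.resAt hρ hγ

theorem nr_map [IsAlgClosed Ω'] (φ : K →+* K') {v' : Vl K'} {ρ' : v'.integer →+* Ω'} {e : ℕ}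
    (hv : Nrm v) (hv' : Nrm v') (he : 0 < e) (hi : Idq φ v v' e) (hρ' : IsRed v' ρ') {ι : Ω →+* Ω'}
    (hc : Cmp φ ρ ρ' ι) {γ' : Ω' ≃+* Ω'} (hγ : ∀ x, γ' (ι x) = ι (γ x))
    (hγ' : ∀ x, γ' (ρ' x) = ρ' x) (h : ResAt v ρ a γ q) : ResAt v' ρ' (rs φ a) γ' (e • q) :=
  ResAt.map φ he hi hρ' hc hγ hγ' h

theorem nr_R4b [IsAlgClosed Ω] {s : ℕ} (hv : LocV v ρ s) (hγ : ∀ x, γ x = x ^ s) {N : ℕ}
    (hN : v (N : K) = 1) (ha : N • a = 0) (h : ResAt v ρ a γ 0) : a = 0 :=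
  hv.eq_zero_of_frobF hγ hN ha h

/-- corestriction keeps the value of the residue at Frobenius -/
theorem nr_LI [IsAlgClosed Ω] [Algebra K K'] [FiniteDimensional K K'] {v' : Vl K'}
    {ρ' : v'.integer →+* Ω} {s s' : ℕ} (hv : LocV v ρ s) (hv' : LocV v' ρ' s')
    (ho : Over (algebraMap K K') v v')
    (hef : ∃ e f : ℕ, 0 < e ∧ Idq (algebraMap K K') v v' e ∧ s' = s ^ f ∧
      e * f = Module.finrank K K') (hc : Cmp (algebraMap K K') ρ ρ' id)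
    (hγ : ∀ x, γ x = x ^ s) {γ' : Ω ≃+* Ω} (hγ' : ∀ x, γ' x = x ^ s') {b : BR K'} {N : ℕ}
    (hN : v (N : K) = 1) (hb : N • b = 0) (h : ResAt v' ρ' b γ' q) :
    ResAt v ρ (corN K K' b) γ q :=
  hv.resAt_trF hv' ho (T := corN K K') corN_res hef hc hγ hγ' hN hb h

theorem nr_lam (hv : Nrm v) (R : RD v a) :
    (∀ g ∈ Dec K R.w, ∀ h ∈ Dec K R.w,
      ((R.lam (g * h) : ℚ) : AddCircle (1 : ℚ)) = (R.lam g : ℚ) + (R.lam h : ℚ)) ∧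
    ∀ g ∈ Ine K R.w, ((R.lam g : ℚ) : AddCircle (1 : ℚ)) = 0 :=
  ⟨R.isRD.lam_mul, R.isRD.lam_zero⟩

theorem resAt_tors [IsAlgClosed Ω] (hv : Nrm v) (hρ : IsRed v ρ) (hγ : ∀ x, γ (ρ x) = ρ x)
    (h : ResAt v ρ a γ q) {N : ℕ} (ha : N • a = 0) : N • q = 0 :=
  (ha ▸ h.nsmul N).uniq (resAt_zero hρ hγ)

end Pool.Agent.ZCy.F
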