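import Pool.Agent.Lib.MP_751085_ag.ZF.T.Defs
import Pool.Agent.Lib.MP_751085_ag.ZF.T.Abh
import Pool.Agent.Lib.MP_751085_ag.ZF.A2

/-! Tame representations and their residue data, in any characteristic. -/

namespace Pool.Agent.ZCy.F

open Pool.Agent.ZFy
open scoped Classical WithZero Polynomial
open groupCohomology

variable {O K ι F : Type} [CommRing O] [IsDomain O] [IsDiscreteValuationRing O] [Field K]
  [Algebra O K] [IsFractionRing O K] {π : O} [Field F] [Algebra (RF ι K) F] {Θ : MP ι O} {a : BR F}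

/-- enlargement to a tame representation -/
theorem exists_tRep (hπ : Irreducible π) (R : MuC (Θ.map (algebraMap O K)) F)
    (hc : cls F R.c = a) (hm : IsUnit (R.m : O))
    (ht : ∀ w : Vl R.E, Cen (gO O K ι R.E) w (MvPolynomial.C π) → Tame (RF ι K) w) :
    Nonempty (TRep K π Θ F a) := by
  obtain ⟨e, E, _, _, _, _, _, _, ϖ, ζ, T, h3⟩ := exists_tcov hπ R.unr ht hm
  have hu : IsUnit ((R.m * e : ℕ) : O) := Nat.cast_mul (α := O) _ _ ▸ hm.mul T.unit
  have h0 : R.m * e ≠ 0 := fun u => hu.ne_zero (by rw [u, Nat.cast_zero])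
  have hϖ : ϖ ≠ 0 := fun u => (mp_prime (ι := ι) hπ).1.ne_zero
    (((algebraMap (RF ι K) E).injective.comp (frc_gO O K ι).inj)
      ((T.root.symm.trans (by rw [u, zero_pow (right_ne_zero_of_mul h0)])).trans
        (map_zero (gO O K ι E)).symm))
  let : Algebra F E := ((algebraMap R.E E).comp (algebraMap F R.E)).toAlgebra
  have : IsScalarTower (RF ι K) F E := IsScalarTower.of_algebraMap_eq fun x =>
    (IsScalarTower.algebraMap_apply _ R.E E x).trans
      (congrArg _ (IsScalarTower.algebraMap_apply _ F R.E x))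
  have : FiniteDimensional F R.E := Module.Finite.of_restrictScalars_finite (RF ι K) _ _
  have : IsGalois F R.E := IsGalois.tower_top_of_isGalois (RF ι K) _ _
  have : FiniteDimensional F E := Module.Finite.of_restrictScalars_finite (RF ι K) _ _
  have : IsGalois F E := IsGalois.tower_top_of_isGalois (RF ι K) _ _
  obtain ⟨r, hr⟩ := exists_pull (G := R.E ≃ₐ[F] R.E) (G' := E ≃ₐ[F] E) (γ := RingHom.id F)
    (j := algebraMap R.E E) fun _ => rfl
  exact ⟨{ E := E, m := R.m, c := pull (algebraMap R.E E) r R.c, hm := R.hm, unr := T.unr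
           coc := pull_coc hr R.coc, pow := fun p => by rw [pull, ← map_pow, R.pow, map_one]
           cls_eq := (rs_cls (RingHom.id F) (j := algebraMap R.E E) (fun _ => rfl) hr
             R.coc).symm.trans ((res_id _).trans hc)
           e := e, ϖ := Units.mk0 ϖ hϖ, ζ := (h3.isUnit h0).unit, cov := T
           prim := IsPrimitiveRoot.coe_units_iff.1 h3, unit := hu }⟩

/-- residue data of a tame representation -/
theorem TRep.rdat (hπ : Irreducible π) (T : TRep K π Θ F a)
    {w : Vl T.E} (hw : Cen (gO O K ι T.E) w (MvPolynomial.C π)) {v : Vl F}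
    (h0 : 0 < ord w (gO O K ι T.E (MvPolynomial.C π)))
    (hv : Idq (algebraMap F T.E) v w (ord w (gO O K ι T.E (MvPolynomial.C π)))) :
    ∃ R : RDat v w a, R.e = ord w (gO O K ι T.E (MvPolynomial.C π)) ∧
      ∀ p, ∃ k : ℤ, (R.c p / T.ϖ ^ k) ^ (T.m * T.e) = 1 := by
  have : FiniteDimensional F T.E := Module.Finite.of_restrictScalars_finite (RF ι K) _ _
  have : IsGalois F T.E := IsGalois.tower_top_of_isGalois (RF ι K) _ _
  have hz : T.m * T.e ≠ 0 := fun u => T.unit.ne_zero (by rw [u, Nat.cast_zero])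
  have : NeZero (T.m * T.e) := ⟨hz⟩
  have hϖ : ∀ g : T.E ≃ₐ[F] T.E, g • T.ϖ ^ T.e = T.ϖ ^ T.e := fun g => Units.ext (by
    change g (T.ϖ ^ T.e : T.Eˣ) = _
    rw [Units.val_pow_eq_pow_val, T.cov.root]
    exact (g.restrictScalars (RF ι K)).commutes _)
  obtain ⟨u, k, h1, h2⟩ := rform0 (D := Dec F w) (I := Ine F w) (fun _ h => h.1)
    (fun g hg i hi => ⟨mul_mem (mul_mem hg hi.1) (inv_mem hg), fun x hx => by
      have := hi.2 (g⁻¹ x) ((inv_mem hg x).trans_le hx)
      rw [← hg, map_sub] at this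
      simpa using this⟩) T.coc T.pow (Nat.pos_of_ne_zero hz) hϖ T.prim
    (fun a h => T.prim.zpowers_eq ▸ h)
    (fun i hi => Units.ext (trf1_fix hi ((trf1_nat hπ hw).2 T.unit)
      (congrArg Units.val T.prim.pow_eq_one)))
    fun i hi h => AlgEquiv.ext fun x => DFunLike.congr_fun (T.cov.faith w hw
      (i.restrictScalars _) ⟨hi.1, hi.2⟩ (congrArg Units.val h)) x
  have key : ∀ p, ((T.c * dd fun g => u g * T.ϖ ^ k g) p /
      T.ϖ ^ (k p.1 + k p.2 - k (p.1 * p.2))) ^ (T.m * T.e) = 1 := fun p => by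
    have e : (T.c * dd fun g => u g * T.ϖ ^ k g) p / T.ϖ ^ (k p.1 + k p.2 - k (p.1 * p.2)) =
        T.c p * (p.1 • u p.2 / u (p.1 * p.2) * u p.1) * (p.1 • T.ϖ / T.ϖ) ^ k p.2 := by
      simp only [Pi.mul_apply, dd, smul_mul', smul_zpow']
      apply Additive.ofMul.injective
      simp only [ofMul_mul, ofMul_div, ofMul_zpow]
      module
    have e1 : T.c p ^ (T.m * T.e) = 1 := by rw [pow_mul, T.pow, one_pow]
    have e2 : ((p.1 • T.ϖ / T.ϖ) ^ k p.2) ^ (T.m * T.e) = 1 := by
      rw [← zpow_natCast, zpow_comm, zpow_natCast, mul_comm, pow_mul, div_pow, ← smul_pow', hϖ,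
        div_self', one_pow, one_zpow]
    rw [e, mul_pow, mul_pow, mul_pow, div_pow, ← smul_pow', e1, e2, h1, h1, h1, smul_one]
    simp
  refine ⟨⟨_, _, fun g => k g / T.e, by exact_mod_cast h0, hv, coc_mul T.coc (dd_coc _),
    (cls_mul_dd T.coc _).trans T.cls_eq, h2, fun g _ h _ => ?_⟩, rfl, fun p => ⟨_, key p⟩⟩
  have h3 := (ord_eq_zero_v w (Units.ne_zero _)).2 (root_val hz (congrArg Units.val (key (g, h))))
  rw [Units.val_div_eq_div_val, ord_div_v w (Units.ne_zero _) (Units.ne_zero _),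
    Units.val_zpow_eq_zpow_val, ord_zpow_v, sub_eq_zero] at h3
  have h4 : (T.e : ℚ) ≠ 0 := Nat.cast_ne_zero.2 (right_ne_zero_of_mul hz)
  rw [h3, ← T.cov.root, ord_pow_v]
  push_cast
  field_simp

end Pool.Agent.ZCy.F
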