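import Pool.Agent.Lib.MP_751085_ag.ZF.T.E0u
import Pool.Agent.Lib.MP_751085_ag.ZF.T.Rf1
import Pool.Agent.Lib.MP_751085_ag.ZF.T.Gen
import Pool.Agent.Lib.MP_751085_ag.ZF.T.Need

/-! The geometric part of the residue lives on a cover with the given branch locus. -/

namespace Pool.Agent.ZCy.F

open scoped Classical Polynomial

variable {O K κ σ F : Type} [CommRing O] [IsDomain O] [IsDiscreteValuationRing O] [Field K]
  [Algebra O K] [IsFractionRing O K] [Field κ] [IsAlgClosed κ] [Fintype σ] [Field F]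
  [Algebra (RF (Option σ) K) F] {s : ℕ} {π : O} {ρ : O →+* κ} {c₀ : PChart O σ} {c : PChart K σ}
  {θ : F} {v : Vl F} {a : BR F} {θ₀ : OB (Option σ) κ} {ρ₀ : v.integer →+* OB (Option σ) κ}

theorem exists_E0 (hs : FinB κ s) (g : GenR K π ρ θ v θ₀ ρ₀) (h : XH π ρ c₀ c θ)
    {Θ : MP (Option σ) O} (hb : Bez c₀.χ Θ) {r : ℕ} (hD : c₀.D ∣ Θ ^ r)
    (h0 : ¬MvPolynomial.C π ∣ Θ) (T : TRep K π Θ F a) :
    HasRes v a ∧ ∃ E₀ : IntermediateField (RF (Option σ) κ) (OB (Option σ) κ),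
      FiniteDimensional (RF (Option σ) κ) E₀ ∧ IsGalois (RF (Option σ) κ) E₀ ∧
      UnrOff (RF (Option σ) κ) (toE (MP (Option σ) κ) E₀) (Θ.map ρ) ∧ θ₀ ∈ E₀ ∧
      ∀ γ : OB (Option σ) κ ≃+* OB (Option σ) κ, (∀ x ∈ E₀, γ x = x) → ResAt v ρ₀ a γ 0 := by
  have : FiniteDimensional F T.E := FiniteDimensional.right (RF (Option σ) K) F T.E
  have : IsGalois F T.E := IsGalois.tower_top_of_isGalois (RF (Option σ) K) F T.E
  obtain ⟨p, -, hp, _, -⟩ := hs.ex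
  obtain ⟨hP, hF⟩ := mp_prime (ι := Option σ) h.irr
  have hv := g.cen.nrm
  obtain ⟨w, ho⟩ := lv_exists (E := T.E) v
  have e0 : ∀ Q, gO O K (Option σ) T.E Q = algebraMap F T.E (gO O K (Option σ) F Q) := fun Q =>
    IsScalarTower.algebraMap_apply _ _ _ _
  have hw : Cen (gO O K (Option σ) T.E) w (MvPolynomial.C π) :=
    (RingHom.ext e0 : _ = (algebraMap F T.E).comp _) ▸ (cen_of_over ho).2 g.cen.1
  obtain ⟨v', hv', h1, hi⟩ := exists_cen1F h.irr h.map h.ff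
    (fun d => h0 (hP.dvd_of_dvd_pow (d.trans hD))) hw
  rw [h.eq g.cen hv'] at hi
  obtain ⟨R, -⟩ := T.rdat h.irr hw h1 hi
  obtain ⟨ρW, hρW, hc⟩ := nv_redext ho g.red
  have h2 : RedA (gO O K (Option σ) T.E) ρW
      ((toE (MP (Option σ) κ) (OB (Option σ) κ)).comp (MvPolynomial.map ρ)) := fun Q y e =>
    (hc ⟨_, g.cen.1.1 Q⟩ y (e.trans (e0 Q))).trans (g.base Q _ rfl)
  have hθ : ρW ⟨_, (ho θ).2 (h.le g.cen.1)⟩ = θ₀ :=
    (hc ⟨θ, h.le g.cen.1⟩ _ rfl).trans (g.th _ rfl)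
  have hm : minpoly (RF (Option σ) κ) θ₀ ∣
      c₀.χ.map ((toE (MP (Option σ) κ) (RF (Option σ) κ)).comp (MvPolynomial.map ρ)) :=
    minpoly.dvd _ _ (by rw [Polynomial.aeval_def, Polynomial.eval₂_map]; exact g.rootF h)
  obtain ⟨E₀, _, _, k1, k2, k3⟩ := exists_e0F h.irr h.ker hp T.cov h0 hw hρW h2
  have k4 : θ₀ ∈ E₀ := hθ ▸ k3 _
    (hθ.symm ▸ (te0_sep _ hb (mt (te0_ker h.ker h.irr Θ).1 h0)).of_dvd hm)
  refine ⟨⟨R.rd⟩, E₀, ‹_›, ‹_›, k1, k4, fun γ e => ?_⟩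
  have k5 := k2 (AlgEquiv.ofRingEquiv (f := γ) fun x => e _ (E₀.algebraMap_mem x)) e
  exact (nr_lam hv R.rd).2 1 (one_mem _) ▸ R.resAt hρW hc (one_mem _) fun x y exy =>
    (congrArg ρW (Subtype.ext exy)).trans (k5 x).symm

end Pool.Agent.ZCy.F
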