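import Pool.Agent.Lib.MP_751085_ag.ZF.T.Sub

/-! The separable part of the residue field of a cover along the special fibre. -/

namespace Pool.Agent.ZCy

open scoped Classical Polynomial

variable {O K κ ι E : Type} [CommRing O] [IsDomain O] [IsDiscreteValuationRing O] [Field K]
  [Algebra O K] [IsFractionRing O K] [Field κ] [Field E] [Algebra (RF ι K) E]
  [FiniteDimensional (RF ι K) E] [IsGalois (RF ι K) E] {π : O} {ρ : O →+* κ} {W : Vl E}
  {ρW : W.integer →+* OB ι κ}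

/-- residues of elements of the base field are rational functions -/
theorem e0_base (hπ : Irreducible π) (hρ : KerM ρ)
    (hW : Cen (gO O K ι E) W (MvPolynomial.C π))
    (h2 : RedA (gO O K ι E) ρW ((toE (MP ι κ) (OB ι κ)).comp (MvPolynomial.map ρ)))
    (a : RF ι K) (y : W.integer) (e : (y : E) = algebraMap (RF ι K) E a) :
    ∃ b : RF ι κ, ρW y = algebraMap (RF ι κ) (OB ι κ) b := by
  obtain ⟨hP, hF⟩ := mp_prime (ι := ι) hπ
  obtain ⟨a', b, hb, e1⟩ := gau_desc (frc_gO O K ι) hP hF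
    (v := W.comap (algebraMap (RF ι K) E)) hW (x := a) (e ▸ y.2 :)
  have e2 : y * ⟨_, hW.1 b⟩ = ⟨_, hW.1 a'⟩ := Subtype.ext (by
    have := congrArg (algebraMap (RF ι K) E) e1
    rw [map_mul, ← e] at this
    exact this)
  have e3 := congrArg ρW e2
  have h0 : ((toE (MP ι κ) (OB ι κ)).comp (MvPolynomial.map ρ)) b ≠ 0 := fun h =>
    hb ((mp_ker hρ hπ b).1 ((map_eq_zero_iff _ (IsFractionRing.injective _ _)).1
      ((map_eq_zero (algebraMap (RF ι κ) (OB ι κ))).1 h)))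
  rw [map_mul, h2 b ⟨_, hW.1 b⟩ rfl, h2 a' ⟨_, hW.1 a'⟩ rfl, ← eq_div_iff h0] at e3
  exact ⟨_, e3.trans (map_div₀ (algebraMap (RF ι κ) (OB ι κ)) _ _).symm⟩

/-- `exists_dec`, `e0_base` -/
theorem e0_dec (hπ : Irreducible π) (hρ : KerM ρ) (hW : Cen (gO O K ι E) W (MvPolynomial.C π))
    (h1 : IsRed W ρW)
    (h2 : RedA (gO O K ι E) ρW ((toE (MP ι κ) (OB ι κ)).comp (MvPolynomial.map ρ)))
    (γ : OB ι κ ≃ₐ[RF ι κ] OB ι κ) : ∃ d ∈ Dec (RF ι K) W, Cmp d ρW ρW γ := by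
  refine exists_dec (K := RF ι K) h1 (γ : OB ι κ →+* OB ι κ) fun a y e => ?_
  obtain ⟨b, hb⟩ := e0_base hπ hρ hW h2 a y e
  rw [hb]
  exact γ.commutes b

/-- a finite stable set of separable elements generates a Galois extension -/
theorem e0_gal {B Ω : Type} [Field B] [Field Ω] [Algebra B Ω] [IsAlgClosure B Ω] {S : Finset Ω}
    (hsep : ∀ x ∈ S, IsSeparable B x) (hst : ∀ γ : Ω ≃ₐ[B] Ω, ∀ x ∈ S, γ x ∈ S) :
    FiniteDimensional B (IntermediateField.adjoin B (S : Set Ω)) ∧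
      IsGalois B (IntermediateField.adjoin B (S : Set Ω)) := by
  have h1 : FiniteDimensional B (IntermediateField.adjoin B (S : Set Ω)) :=
    IntermediateField.finiteDimensional_adjoin fun x hx => (hsep x hx).isIntegral
  have h2 : Normal B (IntermediateField.adjoin B (S : Set Ω)) :=
    IntermediateField.normal_iff_forall_map_le'.2 fun σ => by
      rw [IntermediateField.adjoin_map]
      exact IntermediateField.adjoin.mono _ _ _ (Set.image_subset_iff.2 fun x hx => hst σ x hx)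
  have h3 := (IntermediateField.isSeparable_adjoin_iff_isSeparable B Ω).2 hsep
  exact ⟨h1, {}⟩

/-- the separable part of the residue field -/
theorem e0_setF (hπ : Irreducible π) (hρ : KerM ρ) {p : ℕ} (hp : p.Prime) [CharP κ p]
    (hW : Cen (gO O K ι E) W (MvPolynomial.C π)) (h1 : IsRed W ρW)
    (h2 : RedA (gO O K ι E) ρW ((toE (MP ι κ) (OB ι κ)).comp (MvPolynomial.map ρ))) :
    ∃ E₀ : IntermediateField (RF ι κ) (OB ι κ), FiniteDimensional (RF ι κ) E₀ ∧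
      IsGalois (RF ι κ) E₀ ∧ E₀ ≤ IntermediateField.adjoin (RF ι κ) (Set.range ρW) ∧
      (∀ γ : OB ι κ ≃ₐ[RF ι κ] OB ι κ, (∀ x ∈ E₀, γ x = x) → ∀ y, γ (ρW y) = ρW y) ∧
      ∀ y, IsSeparable (RF ι κ) (ρW y) → ρW y ∈ E₀ := by
  have : CharP (RF ι κ) p := charP_of_injective_ringHom
    ((algebraMap (MP ι κ) (RF ι κ)).comp MvPolynomial.C).injective p
  have hR : ∀ γ : OB ι κ ≃ₐ[RF ι κ] OB ι κ, ∀ x ∈ ρW.range, γ x ∈ ρW.range := by
    rintro γ _ ⟨y, rfl⟩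
    obtain ⟨d, hd, cd⟩ := e0_dec hπ hρ hW h1 h2 γ
    exact ⟨⟨d y, (hd y).trans_le y.2⟩, cd y _ rfl⟩
  have ez : ∀ i : {d : E ≃ₐ[RF ι K] E // d ∈ Dec (RF ι K) W ∧ d ∉ Ine (RF ι K) W},
      ∃ y : W.integer, ¬W (i.1 y - y) < 1 := fun i => by
    by_contra hn
    exact i.2.2 ⟨i.2.1, fun x hx => not_not.1 (not_exists.1 hn ⟨x, hx⟩)⟩
  choose y hy using ez
  obtain ⟨S, -, s2, s3, s4⟩ := exists_sep_set hp ρW.range hR (zero_mem _)
    (map_zero (algebraMap (RF ι κ) (OB ι κ)) ▸ isSeparable_algebraMap 0) (fun i => ρW (y i))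
    fun i => ⟨_, rfl⟩
  obtain ⟨k1, k2⟩ := e0_gal (fun x hx => (s2 x hx).2) s3
  have k3 : ∀ γ : OB ι κ ≃ₐ[RF ι κ] OB ι κ,
      (∀ x ∈ IntermediateField.adjoin (RF ι κ) (S : Set (OB ι κ)), γ x = x) →
      ∀ z, γ (ρW z) = ρW z := fun γ e z => by
    obtain ⟨d, hd, cd⟩ := e0_dec hπ hρ hW h1 h2 γ
    have hI : d ∈ Ine (RF ι K) W := by_contra fun hn => hy ⟨d, hd, hn⟩ ((h1
      (⟨d (y ⟨d, hd, hn⟩), (hd _).trans_le (y _).2⟩ - y ⟨d, hd, hn⟩)).1 (by
        rw [map_sub, cd _ _ rfl]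
        exact sub_eq_zero.2 (s4 γ (fun x hx => e x (IntermediateField.subset_adjoin _ _ hx)) _)))
    have := (h1 (⟨d z, (hd _).trans_le z.2⟩ - z)).2 (hI.2 z z.2)
    rwa [map_sub, cd _ _ rfl, sub_eq_zero] at this
  exact ⟨_, k1, k2, IntermediateField.adjoin.mono _ _ _ fun x hx => (s2 x hx).1, k3,
    fun z hz => tf_mem (IntermediateField.adjoin (RF ι κ) (S : Set (OB ι κ))).toSubfield
      (IntermediateField.algebraMap_mem _) hz fun γ e => k3 γ e z⟩

end Pool.Agent.ZCy
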