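import Pool.Agent.Lib.MP_751085_ag.ZF.T.E0s
import Pool.Agent.Lib.MP_751085_ag.ZF.T.Tz

/-! The residue cover of a tame cover is unramified off the branch locus. -/

namespace Pool.Agent.ZCy

open scoped Classical Polynomial

/-- a power of the Frobenius that depends only on the degree makes an element separable -/
theorem e0_pow {B Ω : Type} [Field B] [Field Ω] [Algebra B Ω] {p : ℕ} (hp : p.Prime) [CharP B p]
    {x : Ω} {n : ℕ} {f : B[X]} (hf : f ≠ 0) (hn : f.natDegree ≤ n)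
    (hx : Polynomial.aeval x f = 0) : IsSeparable B (x ^ p ^ n) := by
  have hi : IsIntegral B x := IsAlgebraic.isIntegral ⟨f, hf, hx⟩
  obtain ⟨k, g, hg, e⟩ := Polynomial.exists_separable_of_irreducible p (minpoly.irreducible hi)
    hp.ne_zero
  have h1 := (Polynomial.natDegree_le_of_dvd (minpoly.dvd B x hx) hf).trans hn
  have h2 := minpoly.natDegree_pos hi
  have h3 := minpoly.aeval B x
  rw [← e, Polynomial.natDegree_expand] at h1 h2
  rw [← e, Polynomial.expand_aeval] at h3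
  obtain ⟨j, rfl⟩ := Nat.exists_eq_add_of_le ((Nat.lt_pow_self hp.one_lt).le.trans
    ((Nat.le_mul_of_pos_left _ (Nat.pos_of_mul_pos_right h2)).trans h1))
  rw [pow_add, pow_mul]
  exact mem_separableClosure_iff.1
    (pow_mem (mem_separableClosure_iff.2 (hg.of_dvd (minpoly.dvd B _ h3))) _)

variable {O K κ ι E : Type} [CommRing O] [IsDomain O] [IsDiscreteValuationRing O] [Field K]
  [Algebra O K] [IsFractionRing O K] [Field κ] [Finite ι] [Field E] [Algebra (RF ι K) E]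
  [FiniteDimensional (RF ι K) E] [IsGalois (RF ι K) E] {π : O} {ρ : O →+* κ} {W : Vl E}
  {ρW : W.integer →+* OB ι κ} {Θ : MP ι O} {e : ℕ} {ϖ : E}

theorem tfe0u_char (ι : Type) (p : ℕ) [CharP κ p] : CharP (RF ι κ) p :=
  charP_of_injective_ringHom ((algebraMap (MP ι κ) (RF ι κ)).comp MvPolynomial.C).injective p

/-- reduce the characteristic polynomial -/
theorem e0_sep (hπ : Irreducible π) (hρ : KerM ρ) {p : ℕ} (hp : p.Prime) [CharP κ p]
    (hW : Cen (gO O K ι E) W (MvPolynomial.C π))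
    (h2 : RedA (gO O K ι E) ρW ((toE (MP ι κ) (OB ι κ)).comp (MvPolynomial.map ρ)))
    (y : W.integer) (hy : ∀ g : E ≃ₐ[RF ι K] E, W (g y) ≤ 1) :
    IsSeparable (RF ι κ) (ρW y ^ p ^ Nat.card (E ≃ₐ[RF ι K] E)) := by
  have := tfe0u_char (κ := κ) ι p
  obtain ⟨F, hF⟩ : ∃ F : W.integer[X], F = ∏ g : E ≃ₐ[RF ι K] E,
    (Polynomial.X - Polynomial.C ⟨g y, hy g⟩) := ⟨_, rfl⟩
  have hm : F.Monic := hF ▸ Polynomial.monic_prod_X_sub_C _ _
  have e : MulSemiringAction.charpoly (E ≃ₐ[RF ι K] E) (y : E) = F.map W.integer.subtype := by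
    simp [hF, MulSemiringAction.charpoly_eq, Polynomial.map_prod]
  obtain ⟨f, h3, h4, h5⟩ := Polynomial.lifts_and_natDegree_eq_and_monic
    (f := algebraMap (RF ι κ) (OB ι κ)) (p := F.map ρW)
    ((Polynomial.lifts_iff_coeff_lifts _).2 fun i => by
      obtain ⟨a, ha⟩ := vint_coeff (K := RF ι K) (y : E) i
      rw [e, Polynomial.coeff_map] at ha
      rw [Polynomial.coeff_map]
      exact (e0_base hπ hρ hW h2 a _ ha.symm).imp fun _ => Eq.symm) (hm.map _)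
  refine e0_pow hp h5.ne_zero ?_ ?_
  · rw [h4, hm.natDegree_map, hF, Polynomial.natDegree_finsetProd_X_sub_C_eq_card,
      Nat.card_eq_fintype_card, Finset.card_univ]
  · rw [← Polynomial.eval_map_algebraMap, h3, Polynomial.eval_map, Polynomial.eval₂_at_apply, hF,
      Polynomial.eval_prod, Finset.prod_eq_zero (Finset.mem_univ 1) (by simp), map_zero]

/-- a power of the residue map sends the integers off `Θ` to `E₀`; purity -/
theorem e0_unrF (hπ : Irreducible π) (hρ : KerM ρ) {p : ℕ} (hp : p.Prime) [CharP κ p]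
    (T : TCov K π Θ E e ϖ) (h0 : ¬MvPolynomial.C π ∣ Θ)
    (hW : Cen (gO O K ι E) W (MvPolynomial.C π)) (h1 : IsRed W ρW)
    (h2 : RedA (gO O K ι E) ρW ((toE (MP ι κ) (OB ι κ)).comp (MvPolynomial.map ρ)))
    (E₀ : IntermediateField (RF ι κ) (OB ι κ)) [FiniteDimensional (RF ι κ) E₀]
    [IsGalois (RF ι κ) E₀] (hle : E₀ ≤ IntermediateField.adjoin (RF ι κ) (Set.range ρW))
    (hsep : ∀ y, IsSeparable (RF ι κ) (ρW y) → ρW y ∈ E₀) :
    UnrOff (RF ι κ) (toE (MP ι κ) E₀) (Θ.map ρ) := by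
  intro P w₀ hP hΘ hw₀
  refine (Subgroup.eq_bot_iff_forall _).2 fun g₀ hg₀ => ?_
  have := tfe0u_char (κ := κ) ι p
  have : ExpChar (OB ι κ) p := .prime hp
  have hα := (isFr_alg O K).mv (isFr_alg (MP ι K) (RF ι K))
  have hC := (mp_prime (ι := ι) hπ).1
  obtain ⟨γ, hγ⟩ : ∃ γ : OB ι κ ≃ₐ[RF ι κ] OB ι κ, ∀ x : E₀, γ x = g₀ x :=
    ⟨g₀.liftNormal _, g₀.liftNormal_commutes _⟩
  obtain ⟨d, hd, cd⟩ := e0_dec hπ hρ hW h1 h2 γ
  obtain ⟨i, hi, e1⟩ := tf_onto (w := W) (fun h => T.unit.ne_zero (by rw [h, Nat.cast_zero]))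
    (hα.vfrc_ne hC.ne_zero) T.root ((hW.2 _).2 dvd_rfl)
    (fun a ha => Cen.val_zpow (v := W.comap (algebraMap (RF ι K) E)) hα hC hW ha) d
  have c1 : Cmp (i⁻¹ * d : E ≃ₐ[RF ι K] E) ρW ρW γ := fun x y e =>
    ((h1.eq_iff y ⟨d x, (hd x).trans_le x.2⟩).2
      (e ▸ (inv_mem hi).2 _ ((hd x).trans_le x.2))).trans (cd x _ rfl)
  obtain ⟨inc, hinc⟩ : ∃ inc : IntOff (gO O K ι E) Θ →+* W.integer, ∀ x, (inc x : E) = x :=
    ⟨Subring.inclusion fun x hx => hx _ W hC h0 hW, fun _ => rfl⟩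
  obtain ⟨n, hn⟩ : ∃ n, ∀ x, ρW (inc x) ^ p ^ n ∈ E₀ := ⟨Nat.card (E ≃ₐ[RF ι K] E), fun x => by
    have h := e0_sep hπ hρ hp hW h2 (inc x) fun g => by
      rw [hinc]
      exact x.2 _ (W.comap (g : E →+* E)) hC h0 (by simpa [Cen] using hW)
    rw [← map_pow] at h ⊢
    exact hsep _ h⟩
  obtain ⟨r, r0⟩ : ∃ r : IntOff (gO O K ι E) Θ →+* E₀, ∀ x, (r x : OB ι κ) = ρW (inc x) ^ p ^ n :=
    ⟨((iterateFrobenius _ p n).comp (ρW.comp inc)).codRestrict E₀ hn, fun _ => rfl⟩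
  have r1 : ∀ a, r (toInt _ Θ a) = toE (MP ι κ) E₀ (a.map ρ) ^ p ^ n := fun a =>
    Subtype.ext ((r0 _).trans (by rw [h2 a _ (hinc _)]; rfl))
  have r2 : ∀ x, w₀ (r x) ≤ 1 := fun x => by
    obtain ⟨m, f, hf, h3⟩ := exists_int_of_intOff hα x.2
    have h4 : f.eval₂ (toInt _ Θ) (toInt _ Θ Θ ^ m * x) = 0 :=
      Subtype.ext ((Polynomial.hom_eval₂ f _ (IntOff (gO O K ι E) Θ).subtype _).trans h3)
    have h5 := le_one_of_int (v := w₀) (f := r.comp (toInt _ Θ)) (fun a => by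
      rw [RingHom.comp_apply, r1, map_pow]
      exact pow_le_one' (hw₀.1 _) _) ⟨f, hf, by rw [← Polynomial.hom_eval₂, h4, map_zero]⟩
    rwa [map_mul, map_pow, r1, map_mul, map_pow, map_pow, (hw₀.eq_one _).2 hΘ, one_pow, one_pow,
      one_mul] at h5
  obtain ⟨κ₀, _, ρ₀, hρ₀, -⟩ := exists_resf w₀
  have h3 := pure2 hπ T (fun h => h0 (h ▸ dvd_zero _)) (ρ₀.comp (r.codRestrict w₀.integer r2))
    ((hρ₀ _).2 (lt_of_eq_of_lt (congrArg w₀ ((r1 _).trans (by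
      rw [(mp_ker hρ hπ _).2 dvd_rfl, map_zero, zero_pow (pow_ne_zero _ hp.ne_zero)])))
        (w₀.map_zero.trans_lt zero_lt_one)))
    (g := i⁻¹ * d) (by rw [AlgEquiv.mul_apply, ← e1, ← AlgEquiv.mul_apply, inv_mul_cancel]; rfl)
    fun x y e => (hρ₀.eq_iff _ _).2 (by
      have h4 : r y = g₀ (r x) := Subtype.ext (by
        rw [← hγ, r0, r0, map_pow, c1 (inc x) (inc y) (by rw [hinc, hinc, e])])
      exact lt_of_eq_of_lt (congrArg (fun z => w₀ (z - r x)) h4) (hg₀.2 _ (r2 x)))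
  rw [h3] at c1
  have h4 : IntermediateField.adjoin (RF ι κ) (Set.range ρW) ≤
      IntermediateField.fixedField (Subgroup.zpowers γ) := by
    rw [IntermediateField.adjoin_le_iff]
    rintro _ ⟨y, rfl⟩ ⟨f, hf⟩
    exact (Subgroup.zpowers_le (g := γ) (H := MulAction.stabilizer _ (ρW y))).2 (c1 y y rfl).symm hf
  exact AlgEquiv.ext fun x => Subtype.ext ((hγ x).symm.trans
    (h4 (hle x.2) ⟨γ, Subgroup.mem_zpowers γ⟩))

theorem exists_e0F (hπ : Irreducible π) (hρ : KerM ρ) {p : ℕ} (hp : p.Prime) [CharP κ p]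
    (T : TCov K π Θ E e ϖ) (h0 : ¬MvPolynomial.C π ∣ Θ)
    (hW : Cen (gO O K ι E) W (MvPolynomial.C π)) (h1 : IsRed W ρW)
    (h2 : RedA (gO O K ι E) ρW ((toE (MP ι κ) (OB ι κ)).comp (MvPolynomial.map ρ))) :
    ∃ E₀ : IntermediateField (RF ι κ) (OB ι κ), FiniteDimensional (RF ι κ) E₀ ∧
      IsGalois (RF ι κ) E₀ ∧ UnrOff (RF ι κ) (toE (MP ι κ) E₀) (Θ.map ρ) ∧
      (∀ γ : OB ι κ ≃ₐ[RF ι κ] OB ι κ, (∀ x ∈ E₀, γ x = x) → ∀ y, γ (ρW y) = ρW y) ∧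
      ∀ y, IsSeparable (RF ι κ) (ρW y) → ρW y ∈ E₀ := by
  obtain ⟨E₀, _, _, h3, h4, h5⟩ := e0_setF hπ hρ hp hW h1 h2
  exact ⟨E₀, ‹_›, ‹_›, e0_unrF hπ hρ hp T h0 hW h1 h2 E₀ h3 h5, h4, h5⟩

end Pool.Agent.ZCy
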