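import Pool.Agent.Lib.MP_751085_ag.ZF.T.Gen
import Pool.Agent.Lib.MP_751085_ag.ZF.T.Defs
import Pool.Agent.Lib.MP_751085_ag.ZC.UCrv1
import Pool.Agent.Lib.MP_751085_ag.ZC.T.Cheb
import Pool.Agent.Lib.MP_751085_ag.ZC.T.Chg

/-! Points of the reduced fibre curve and their lifts. -/

namespace Pool.Agent.ZCy.F

open Pool.Agent.ZeroCyc IsLocalRing MvPolynomial
open scoped Classical Polynomial

section

variable {O R S σ : Type} [CommRing O] [CommRing R] [CommRing S]

/-- `τ` is fixed, the other variables and `Z` are the unknowns -/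
noncomputable def tfhvE (φ : O →+* R) (t : R) : (MP (Option σ) O)[X] →+* MP (Option σ) R :=
  ev (C.comp φ) (fun j => j.elim (C t) fun i => X (some i)) (X none)

theorem tfhv_ev (φ : O →+* R) (t : R) (ψ : R →+* S) (x : Option σ → S)
    (p : (MP (Option σ) O)[X]) : eval₂ ψ x (tfhvE φ t p) =
      ev (ψ.comp φ) (fun j => j.elim (ψ t) fun i => x (some i)) (x none) p := by
  have e : (eval₂Hom ψ x).comp (C.comp φ) = ψ.comp φ := by
    ext y
    simp
  have h := map_ev (eval₂Hom ψ x) (C.comp φ) (fun j => j.elim (C t) fun i => X (some i)) (X none) p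
  rw [e, eval₂Hom_X'] at h
  refine h.trans ?_
  congr 2
  funext j
  cases j <;> simp

theorem tfhv_map (φ : O →+* R) (t : R) (ψ : R →+* S) (p : (MP (Option σ) O)[X]) :
    map ψ (tfhvE φ t p) = tfhvE (ψ.comp φ) (ψ t) p := by
  have e : (map (σ := Option σ) ψ).comp (C.comp φ) = C.comp (ψ.comp φ) := by
    ext1 y
    simp
  have h := map_ev (map (σ := Option σ) ψ) (C.comp φ) (fun j => j.elim (C t) fun i => X (some i))
    (X none) p
  rw [e, map_X] at h
  refine h.trans ?_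
  unfold tfhvE
  congr 2
  funext j
  cases j <;> simp

theorem tfhv_tpt (ψ : O →+* S) (t : S) :
    tpt ψ 0 (eT σ O) t = fun j => j.elim t fun _ => 0 := by
  funext j
  cases j <;> simp [tpt]

end

variable {O R κ σ : Type} [CommRing O] [CommRing R] [Field κ] [Fintype σ] {N : ℕ}
  {GG : Set (Fm N O)}

/-- Hensel lifting to the curve `g = 0` -/
theorem hv_lift [IsLocalRing R] [IsAdicComplete (maximalIdeal R) R] (c : Chart O σ N GG)
    (φ : O →+* R) {ρ : R →+* κ} (hρ : KerM ρ) {g : σ → Fm N O} {e : ℕ}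
    (hg : ∀ i m, ρ (φ (coeff m (g i - c.l0 ^ e * c.f (some (some i))))) = 0) (t z : R)
    (h0 : ev (ρ.comp φ) (tpt (ρ.comp φ) 0 (eT σ O) (ρ t)) (ρ z) c.χ = 0)
    (hD : eval₂ (ρ.comp φ) (tpt (ρ.comp φ) 0 (eT σ O) (ρ t)) c.D ≠ 0) :
    ∃ (y : Option σ → R) (ζ : R), ev φ y ζ c.χ = 0 ∧
      (∀ j, ρ (y j) = tpt (ρ.comp φ) 0 (eT σ O) (ρ t) j) ∧ ρ ζ = ρ z ∧
      ∀ i, eval₂ φ (c.pv φ y ζ) (g i) = 0 := by
  choose q hq using c.dv_f
  set ψ := ρ.comp φ with hψ
  rw [tfhv_tpt] at h0 hD ⊢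
  let P : Option σ → (MP (Option σ) O)[X] := fun j => j.elim c.χ fun i =>
    sb c.pp (g i) - sb c.pp c.l0 ^ e * (c.χ * q (some i))
  let x₀ : Option σ → R := fun j => j.elim z fun _ => 0
  let v : MP (Option σ) κ →+* κ := eval fun j => ρ (x₀ j)
  have hm : ∀ a, a ∈ maximalIdeal R ↔ ρ a = 0 := fun a => (hρ a).symm
  have hv : ∀ p, v (tfhvE ψ (ρ t) p) =
      ev ψ (fun j => j.elim (ρ t) fun _ => 0) (ρ z) p := fun p => by
    refine (tfhv_ev ψ (ρ t) (RingHom.id κ) _ p).trans ?_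
    congr 2
    funext j
    cases j <;> simp [x₀]
  have hj : ∀ p : MP (Option σ) R, ρ (eval₂ (RingHom.id R) x₀ p) = v (map ρ p) := fun p => by
    rw [eval₂_comp_left, RingHom.comp_id, eval₂_eq_eval_map]
    rfl
  have hP : ∀ i, tfhvE ψ (ρ t) (P (some i)) =
      tfhvE ψ (ρ t) (sb c.pp c.l0 ^ e * sb c.pp (c.f none)) * X (some i) := fun i => by
    have e0 : tfhvE ψ (ρ t) (sb c.pp (g i - c.l0 ^ e * c.f (some (some i)))) = 0 := by
      rw [tfhvE, ev_sb, eval₂_eq]
      exact Finset.sum_eq_zero fun m _ => by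
        rw [RingHom.comp_apply, show ψ _ = 0 from hg i m, map_zero, zero_mul]
    have e1 : tfhvE ψ (ρ t) (Polynomial.C (X (some i))) = X (some i) := by
      rw [tfhvE, ev_def, Polynomial.eval₂_C, eval₂Hom_X']
      rfl
    have e2 := congrArg (tfhvE ψ (ρ t)) (hq (some i))
    simp only [P, Option.elim_some, map_sub, map_mul, map_pow, e1] at e0 e2 ⊢
    linear_combination e0 + tfhvE ψ (ρ t) (sb c.pp c.l0) ^ e * e2
  have hx : ∀ i, v (X (some i)) = 0 := fun i => by simp [v, x₀]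
  obtain ⟨n1, n2⟩ := c.ne κ ψ _ _ h0 hD
  have n3 := U.crv_der_ne ψ h0 hD
  rw [← hv] at n1 n2 n3
  obtain ⟨x, h1, h2⟩ := U.newton_det (maximalIdeal R) (RingHom.id R) (fun j => tfhvE φ t (P j)) x₀
    (fun j => by
      rw [hm, hj, tfhv_map, ← hψ]
      cases j with
      | none => exact (hv _).trans h0
      | some i => rw [hP, map_mul, hx, mul_zero])
    (not_not.1 fun hn => by
      have h3 := (hρ _).2 hn
      rw [RingHom.map_det, ← Matrix.exists_mulVec_eq_zero_iff] at h3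
      obtain ⟨w, hw, h3⟩ := h3
      have h4 : ∀ j, ∑ l, v (pderiv l (tfhvE ψ (ρ t) (P j))) * w l = 0 := fun j => by
        refine Eq.trans (Finset.sum_congr rfl fun l _ => ?_) (congrFun h3 j)
        simp only [RingHom.mapMatrix_apply, Matrix.map_apply, jac, Matrix.of_apply, hj]
        rw [← pderiv_map, tfhv_map]
      have h5 : ∀ i, w (some i) = 0 := fun i => by
        have h6 := h4 (some i)
        rw [hP, Finset.sum_eq_single (some i) (fun l _ hl => by
          rw [pderiv_mul, pderiv_X_of_ne hl.symm, mul_zero, add_zero, map_mul v, hx, mul_zero,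
            zero_mul]) (fun h => absurd (Finset.mem_univ _) h),
          pderiv_mul, pderiv_X_self, map_add, map_mul v, hx, mul_zero, zero_add, mul_one, map_mul,
          map_mul v, map_pow, map_pow] at h6
        exact (mul_eq_zero.1 h6).resolve_left (mul_ne_zero (pow_ne_zero _ n2) n1)
      have h6 := h4 none
      rw [Fintype.sum_option, Finset.sum_eq_zero fun i _ => by rw [h5, mul_zero], add_zero,
        show pderiv none (tfhvE ψ (ρ t) (P none)) = tfhvE ψ (ρ t) (Polynomial.derivative c.χ) from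
          U.crv_der _ _ _ _ (fun a => by simp) (fun j => by cases j <;> simp) (by simp) _] at h6
      exact hw (funext fun j => by
        cases j with
        | none => exact (mul_eq_zero.1 h6).resolve_left n3
        | some i => exact h5 i))
  simp only [tfhv_ev, RingHom.id_comp, RingHom.id_apply] at h1
  have h3 : ∀ j, ρ (x j) = ρ (x₀ j) := fun j => by
    rw [← sub_eq_zero, ← map_sub]
    exact (hm _).1 (h2 j)
  refine ⟨_, _, h1 none, fun j => ?_, h3 none, fun i => ?_⟩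
  · cases j with
    | none => rfl
    | some i => exact (h3 (some i)).trans (map_zero ρ)
  · have h4 := h1 (some i)
    have h5 : ev φ _ _ c.χ = 0 := h1 none
    simp only [P, Option.elim_some, map_sub, map_mul, h5, zero_mul, mul_zero, sub_zero] at h4
    rwa [ev_sb] at h4

section

variable {k K : Type} [Field k] [Field K] [Algebra O K] [Algebra k K] {X : Var k} {s : ℕ}
  {ρ : O →+* κ} {HH : Set (Fm X.N O)}

/-- points of the fibre curve over all large finite fields -/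
theorem hv_pts (H : THyp) [IsDomain O] [CDVR O] [IsFractionRing O K] [IsAlgClosed κ]
    (hs : FinB κ s) (hρ : LRes ρ s) {n : ℕ} (hX : X.Nice n) (hσ : Fintype.card σ + 1 = n)
    (hM : X.Model (K := K) HH) (c : Chart O σ X.N HH) {Φ : MP σ O} (hsm : c.SM Φ)
    (hΦ : IsUnit (constantCoeff Φ)) (hΨ : IsUnit (constantCoeff c.Ψ)) :
    ∃ m₀ : ℕ, ∀ m, m₀ ≤ m → ∃ t z : κ, LPt ρ c.χ (c.brs Φ) 0 (eT σ O) (s ^ m) t z := by
  obtain ⟨c', hc'⟩ := c.exists_map (algebraMap O K) (GG' := X.IK K)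
    (fun G hG => hM.2 ▸ Ideal.subset_span hG) fun Ω _ ψ x hx => Zer.map_image.1 fun G hG =>
      hx.span (hM.2 ▸ Ideal.subset_span hG)
  have hi := (xh_irr H.irro hρ.ker hM.1 hc'.p (H.chf k X n hX K σ c' hσ).1 hsm).2 hΦ
  obtain ⟨m₀, hm⟩ := ffpts hs (fun x => (hρ.rng _).1 ⟨x, rfl⟩) (c.monic.map _)
    ((c.toPChart.bez_brs Φ).1.map _) hi fun e => by
      have h := eval₂_line ρ 0 (eT σ O) 0 (c.brs Φ)
      rw [← Polynomial.eval_map, e, Polynomial.eval_zero, tfhv_tpt,
        show (fun j : Option σ => j.elim (0 : κ) fun _ => 0) = fun _ => 0 from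
          funext fun j => by cases j <;> rfl, ← coe_eval₂Hom, eval₂Hom_zero'_apply,
        PChart.brs, map_mul, constantCoeff_rename] at h
      exact ((hΨ.mul hΦ).map ρ).ne_zero h.symm
  refine ⟨m₀, fun m h => ?_⟩
  obtain ⟨t, z, h1, h2, h3, h4⟩ := hm m h
  refine ⟨t, z, h1, h2, ?_, by rwa [eval₂_line] at h4⟩
  rw [Polynomial.eval₂_map, show (Polynomial.eval₂RingHom ρ t).comp
    (line (RingHom.id O) 0 (eT σ O)) = eval₂Hom ρ (tpt ρ 0 (eT σ O) t) from
      RingHom.ext (eval₂_line ρ 0 _ t)] at h3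
  exact h3

/-- lifts of the points of the fibre curve to the curve `C` -/
theorem hv_curve (hρ : KerM ρ) (hM : X.Model (K := K) HH) (c : Chart O σ X.N HH) (Φ : MP σ O)
    {C : Gen k X.N} {g : σ → Fm X.N k} (hC : X.Cut C g) {gO : σ → Fm X.N O} {e : ℕ}
    (h1 : ∀ i, map (algebraMap O K) (gO i) = map (algebraMap k K) (g i))
    (h2 : ∀ i m, ¬IsUnit (coeff m (gO i - c.l0 ^ e * c.f (some (some i)))))
    {L : Type} [Field L] [Algebra K L] [Algebra k L] [IsScalarTower k K L] (E : LExt K ρ s L)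
    {t z : κ} (hP : LPt ρ c.χ (c.brs Φ) 0 (eT σ O) (s ^ E.f) t z) :
    ∃ (y : Option σ → E.R) (ζ : E.R), (ev (algebraMap O E.R) y ζ c.χ = 0 ∧
      (∀ j, E.ρ (y j) = tpt ρ 0 (eT σ O) t j) ∧ E.ρ ζ = z) ∧
      C.var.On fun j => algebraMap E.R L (c.pv (algebraMap O E.R) y ζ j) := by
  obtain ⟨t, rfl⟩ := (E.res.rng t).2 hP.ht
  obtain ⟨z, rfl⟩ := (E.res.rng z).2 hP.hz
  have e1 : E.ρ.comp (algebraMap O E.R) = ρ := RingHom.ext E.cmp
  have hD : eval₂ ρ (tpt ρ 0 (eT σ O) (E.ρ t)) c.D ≠ 0 := by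
    obtain ⟨r, hr⟩ := (c.toPChart.bez_brs Φ).2
    have := map_dvd (eval₂Hom ρ (tpt ρ 0 (eT σ O) (E.ρ t))) hr
    rw [map_pow] at this
    exact ne_zero_of_dvd_ne_zero (pow_ne_zero _ hP.off) this
  obtain ⟨y, ζ, g1, g2, g3, g4⟩ := hv_lift c (algebraMap O E.R) E.res.ker (g := gO) (e := e)
    (fun i m => (E.cmp _).trans ((hρ _).2 (h2 i m))) t z (e1.symm ▸ hP.on) (e1.symm ▸ hD)
  rw [e1] at g2
  refine ⟨y, ζ, ⟨g1, g2, g3⟩, ?_⟩
  have e2 : (algebraMap E.R L).comp (algebraMap O E.R) =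
      (algebraMap K L).comp (algebraMap O K) := RingHom.ext E.tow
  set x : Fin (X.N + 1) → L := fun j => algebraMap E.R L (c.pv (algebraMap O E.R) y ζ j) with hx
  have hk : ∀ G : Fm X.N k, aeval x G = eval₂ (algebraMap K L) x (map (algebraMap k K) G) :=
    fun G => by rw [eval₂_map, ← IsScalarTower.algebraMap_eq, aeval_def]
  have hO : ∀ G : Fm X.N O, eval₂ (algebraMap K L) x (map (algebraMap O K) G) =
      algebraMap E.R L (eval₂ (algebraMap O E.R) (c.pv (algebraMap O E.R) y ζ) G) := fun G => by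
    rw [eval₂_map, eval₂_comp_left, e2]
    rfl
  refine (hC L x).2 ⟨⟨fun h0 => ?_, fun G hG => ?_⟩, fun i => by rw [hk, ← h1, hO, g4, map_zero]⟩
  · have h3 : ev ρ (tpt ρ 0 (eT σ O) (E.ρ t)) (E.ρ z) (sb c.pp c.l0) =
        E.ρ (ev (algebraMap O E.R) y ζ (sb c.pp c.l0)) := by
      rw [map_ev, e1, funext g2, g3]
    refine (c.ne κ ρ _ _ hP.on hD).2 ?_
    rw [h3, ev_sb, show (fun j => ev (algebraMap O E.R) y ζ (c.pp j)) = 0 from funext fun j =>
      IsFractionRing.injective E.R L ((congrFun h0 j).trans (map_zero _).symm), eval₂_zero_apply,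
      constantCoeff_eq, c.hl.coeff_eq_zero (by simp), map_zero, map_zero]
  · have hz : Zer (map (algebraMap O K) '' HH) (algebraMap K L) x := by
      rintro _ ⟨G, hG, rfl⟩
      rw [hO, tchg_zer c g1 G hG, map_zero]
    rw [hk]
    exact hz.span (hM.2 ▸ Ideal.subset_span ⟨G, hG, rfl⟩)

end

end Pool.Agent.ZCy.F
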