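import Pool.Agent.Lib.MP_751085_ag.ZF.T.Pair
import Pool.Agent.Lib.MP_751085_ag.ZF.T.Hv
import Pool.Agent.Lib.MP_751085_ag.ZF.T.Iface

/-! From the dichotomy to the cycles of degree zero. -/

namespace Pool.Agent.ZCy.F

open Pool.Agent.ZFN Module MvPolynomial
open scoped Classical

variable {k K : Type} [Field k] [Field K] [Algebra k K] {X : Var k}

theorem tffi_on {L : IntermediateField K (Cb K)} {v : Fin (X.N + 1) → L} :
    X.On (fun i => (v i : Cb K)) ↔ X.On v := by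
  have : IsScalarTower k L (Cb K) := IsScalarTower.of_algebraMap_eq fun _ => rfl
  refine and_congr (not_congr ⟨fun h => funext fun i => Subtype.ext (congrFun h i),
    fun h => funext fun i => congrArg Subtype.val (congrFun h i)⟩) (forall₂_congr fun G _ => ?_)
  exact (congrArg (· = 0) (aeval_algebraMap_apply (Cb K) v G)).to_iff.trans
    (map_eq_zero (algebraMap L (Cb K)))

theorem tffi_ptv (a : BR X.F) {L : IntermediateField K (Cb K)} (v : Fin (X.N + 1) → L) :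
    X.ptv a L (fun i => (v i : Cb K)) = corN K L (X.vl a L v) := dif_pos fun i => (v i).2

theorem tffi_grp (A : Type) [AddCommGroup A] {I : Type} [Fintype I] (m : I → ℤ) (a b : I → A)
    (u : ℕ) : (∑ j, m j • (a j + b j) = ∑ j, m j • a j + ∑ j, m j • b j) ∧
      ∑ j, m j • u • a j = u • ∑ j, m j • a j :=
  ⟨by simp only [smul_add, Finset.sum_add_distrib], by
    rw [Finset.smul_sum]
    exact Finset.sum_congr rfl fun j _ => smul_comm _ _ _⟩

variable {P : (Fin (X.N + 1) → Cb K) → Prop} {a b : BR X.F}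

theorem tffi_add (E : EvApi X) (hP : ∀ x, P x → X.On x) (ha : a ∈ X.Bw) (hb : b ∈ X.Bw)
    (h : Kills X K a P) (h' : Kills X K b P) : Kills X K (a + b) P := fun I _ m L x hx h0 => by
  have e : ∀ j, X.ptv (a + b) (L j) (x j) = X.ptv a (L j) (x j) + X.ptv b (L j) (x j) := fun j => by
    let v : Fin (X.N + 1) → L j := fun i => ⟨x j i, (hx j).2.1 i⟩
    refine (tffi_ptv _ v).trans ?_
    rw [E.val_add a ha b hb _ v (tffi_on.1 (hP _ (hx j).2.2)), map_add, ← tffi_ptv, ← tffi_ptv]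
  rw [Finset.sum_congr rfl fun j _ => congrArg (fun t : BR K => m j • t) (e j),
    (tffi_grp (BR K) m _ _ 0).1, h I m L x hx h0, h' I m L x hx h0]
  exact add_zero (0 : BR K)

theorem tffi_nsmul (E : EvApi X) (hP : ∀ x, P x → X.On x) (ha : a ∈ X.Bw) (h : Kills X K a P)
    (u : ℕ) : Kills X K (u • a) P := fun I _ m L x hx h0 => by
  have e : ∀ j, X.ptv (u • a) (L j) (x j) = u • X.ptv a (L j) (x j) := fun j => by
    let v : Fin (X.N + 1) → L j := fun i => ⟨x j i, (hx j).2.1 i⟩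
    refine (tffi_ptv _ v).trans ?_
    rw [E.val_nsmul a ha u _ v (tffi_on.1 (hP _ (hx j).2.2))]
    exact (map_nsmul (corN K (L j)) u _).trans (congrArg _ (tffi_ptv a v).symm)
  rw [Finset.sum_congr rfl fun j _ => congrArg (fun t : BR K => m j • t) (e j),
    (tffi_grp (BR K) m _ 0 u).2, h I m L x hx h0]
  exact (tfpa_kill (BR K) u).1

theorem tffi_split (A : Type) [AddCommGroup A] {m n : ℕ} (h : m.Coprime n) (hn : 1 < n) {a : A}
    (h0 : (m * n) • a = 0) (hm : 1 < m) : ∃ u w : ℕ, a = u • a + w • a ∧ n • u • a = 0 ∧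
      m • w • a = 0 := by
  obtain ⟨u, -, hu⟩ := Nat.exists_mul_mod_eq_one_of_coprime h hn
  obtain ⟨w, -, hw⟩ := Nat.exists_mul_mod_eq_one_of_coprime h.symm hm
  refine ⟨m * u, n * w, ?_, ?_, ?_⟩
  · have e : m * u + n * w ≡ 1 [MOD m * n] := by
      rw [← Nat.modEq_and_modEq_iff_modEq_mul h]
      refine ⟨?_, ?_⟩
      · rw [Nat.ModEq, Nat.mul_add_mod, hw, Nat.mod_eq_of_lt hm]
      · rw [Nat.ModEq, add_comm, Nat.mul_add_mod, hu, Nat.mod_eq_of_lt hn]
    rw [← add_nsmul, nsmul_eq_nsmul_of_modEq e h0, one_nsmul]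
  · rw [← mul_nsmul', show n * (m * u) = u * (m * n) by ring, mul_nsmul', h0, nsmul_zero]
  · rw [← mul_nsmul', show m * (n * w) = w * (m * n) by ring, mul_nsmul', h0, nsmul_zero]

/-- reduction to the primary parts -/
theorem kills_of_prim (E : EvApi X) (hP : ∀ x, P x → X.On x) {M : ℕ} (hM : M ≠ 0)
    (h : ∀ l : ℕ, l.Prime → l ∣ M → ∀ a ∈ X.Bw, Prim l a → Kills X K a P →
      Kills X K a fun x => X.On x) : ∀ a ∈ X.Bw, M • a = 0 → Kills X K a P →
        Kills X K a fun x => X.On x := by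
  induction M using Nat.recOnPosPrimePosCoprime with
  | prime_pow p n hp hn => exact fun a ha h0 => h p hp (dvd_pow_self p hn.ne') a ha ⟨n, h0⟩
  | zero => exact absurd rfl hM
  | one =>
    intro a ha h0 _ I _ m L x hx _
    refine Finset.sum_eq_zero fun j _ => ?_
    let v : Fin (X.N + 1) → L j := fun i => ⟨x j i, (hx j).2.1 i⟩
    have e := E.val_kill ha h0 _ (tffi_on.1 (hx j).2.2 : X.On v)
    rw [one_nsmul] at e
    rw [show X.ptv a (L j) (x j) = _ from tffi_ptv a v, e, map_zero]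
    exact zsmul_zero (α := BR K) _
  | coprime m n hm hn hc h1 h2 =>
    intro a ha h0 hk
    obtain ⟨u, w, e, e1, e2⟩ := tffi_split (BR X.F) hc hn h0 hm
    rw [e]
    exact tffi_add E (fun _ => id) (nsmul_mem ha u) (nsmul_mem ha w)
      (h2 (by omega) (fun l hl hd => h l hl (hd.mul_left m)) _ (nsmul_mem ha u) e1
        (tffi_nsmul E hP ha hk u))
      (h1 (by omega) (fun l hl hd => h l hl (hd.mul_right n)) _ (nsmul_mem ha w) e2
        (tffi_nsmul E hP ha hk w))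

variable {O κ : Type} [CommRing O] [IsDomain O] [CDVR O] [Algebra O K] [IsFractionRing O K]
  [Field κ] [IsAlgClosed κ] {s N : ℕ} {ρ : O →+* κ}

theorem tffi_sum (hs : FinB κ s) (hρ : LRes ρ s) {I : Type} (t : Finset I) {β : I → BR K}
    {q : I → AddCircle (1 : ℚ)} (h : ∀ j, LInv K ρ s (β j) (q j) ∧ N • β j = 0) :
    LInv K ρ s (∑ j ∈ t, β j) (∑ j ∈ t, q j) ∧ N • ∑ j ∈ t, β j = 0 := by
  induction t using Finset.induction_on with
  | empty => exact ⟨LInv.zero hs hρ, (tfpa_kill (BR K) N).1⟩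
  | insert j t hj ih =>
    rw [Finset.sum_insert hj, Finset.sum_insert hj]
    exact ⟨(h j).1.add hs hρ ih.1, (tfpa_kill (BR K) N).2.1 _ _ (h j).2 ih.2⟩

theorem CVal.kills (E : EvApi X) (hs : FinB κ s) (hρ : LRes ρ s) (ha : a ∈ X.Bw)
    (hN : IsUnit (N : O)) (h0 : N • a = 0) {q : AddCircle (1 : ℚ)} (hq : CVal X K ρ s a q) :
    Kills X K a fun x => X.On x := fun I _ m L x hx hm => by
  obtain ⟨h1, h2⟩ := tffi_sum (N := N) hs hρ Finset.univ (β := fun j => m j • X.ptv a (L j) (x j))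
    (q := fun j => (m j * (finrank K (L j) : ℤ)) • q) fun j => by
      have := (hx j).1
      have : IsScalarTower k K (L j) := IsScalarTower.of_algebraMap_eq fun _ => rfl
      obtain ⟨Y⟩ := exists_lextF (K := K) hs hρ (L j)
      let v : Fin (X.N + 1) → L j := fun i => ⟨x j i, (hx j).2.1 i⟩
      have hv : X.On v := tffi_on.1 (hx j).2.2
      rw [show X.ptv a (L j) (x j) = _ from tffi_ptv a v, mul_smul, natCast_zsmul, ← Y.deg]
      exact ⟨(LInv.cor hs hρ Y hN (E.val_kill ha h0 _ hv) (hq _ Y _ hv)).zsmul hs hρ _,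
        (tfpa_kill (BR K) N).2.2 _ _ ((map_nsmul (corN K (L j)) N _).symm.trans
          ((congrArg _ (E.val_kill ha h0 _ hv)).trans (map_zero _)))⟩
  rw [← Finset.sum_smul, hm, zero_smul] at h1
  exact h1.inj hs hρ hN h2 (tfpa_kill (BR K) N).1 (LInv.zero hs hρ)

variable {σ : Type} [Fintype σ] {GG : Set (Fm X.N O)} {c : Chart O σ X.N GG} {Φ : MP σ O}
  {C : Gen k X.N} {g : σ → Fm X.N k} {gO : σ → Fm X.N O} {e : ℕ}

theorem TVal.not_kills (E : EvApi X) (hs : FinB κ s) (hρ : LRes ρ s) (hM : X.Model (K := K) GG)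
    (hC : X.Cut C g) (h1 : ∀ i, map (algebraMap O K) (gO i) = map (algebraMap k K) (g i))
    (h2 : ∀ i m, ¬IsUnit (coeff m (gO i - c.l0 ^ e * c.f (some (some i))))) (ha : a ∈ X.Bw)
    (hN : IsUnit (N : O)) (h0 : N • a = 0) (hT : TVal X K ρ s c (c.brs Φ) 0 (eT σ O) a) :
    ¬Kills X K a fun x => C.var.On x := fun hk => by
  obtain ⟨m, t, z, hm, hP, hT⟩ := hT
  obtain ⟨L, hL, Y, e1, rfl⟩ := tfin_unxF (K := K) hs hρ hm
  have : IsScalarTower k K L := IsScalarTower.of_algebraMap_eq fun _ => rfl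
  choose y ζ g1 g2 using fun i => hv_curve hρ.ker hM c Φ hC h1 h2 Y (hP i)
  obtain ⟨q, hq, hI⟩ := hT L Y e1 rfl y ζ g1
  have hw := fun i => LInv.cor hs hρ Y hN (E.val_kill ha h0 L ((hC L _).1 (g2 i)).1) (hI i)
  have h3 := hk (Fin 2) ![1, -1] (fun _ => L) _
    (fun i => ⟨hL, fun j => Subtype.prop _, (tffi_on (X := C.var)).2 (g2 i)⟩) (by simp)
  rw [Fin.sum_univ_two, tffi_ptv, tffi_ptv] at h3
  have h4 := hw 0
  rw [show corN K L _ = corN K L _ from sub_eq_zero.1 ((sub_eq_add_neg _ _).trans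
    ((congrArg₂ (· + ·) (one_zsmul _).symm (neg_one_zsmul _).symm).trans h3))] at h4
  exact hq (h4.uniq hs hρ (hw 1))

/-- points of all large degrees on the curve -/
theorem curve_pts (H : THyp) (hs : FinB κ s) (hρ : LRes ρ s) {n : ℕ} (hX : X.Nice n)
    (hσ : Fintype.card σ + 1 = n) (hM : X.Model (K := K) GG) (hsm : c.SM Φ)
    (hΦ : IsUnit (constantCoeff Φ)) (hΨ : IsUnit (constantCoeff c.Ψ)) (hC : X.Cut C g)
    (h1 : ∀ i, map (algebraMap O K) (gO i) = map (algebraMap k K) (g i))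
    (h2 : ∀ i m, ¬IsUnit (coeff m (gO i - c.l0 ^ e * c.f (some (some i))))) :
    ∃ m₀ : ℕ, ∀ m, m₀ ≤ m → ∃ (L : IntermediateField K (Cb K)) (x : Fin (X.N + 1) → Cb K),
      FiniteDimensional K L ∧ finrank K L = m ∧ (∀ i, x i ∈ L) ∧ C.var.On x := by
  obtain ⟨m₀, hm₀⟩ := hv_pts H hs hρ hX hσ hM c hsm hΦ hΨ
  refine ⟨m₀ + 1, fun m hm => ?_⟩
  obtain ⟨L, hL, Y, e1, rfl⟩ := tfin_unxF (K := K) hs hρ (show 0 < m by omega)
  have : IsScalarTower k K L := IsScalarTower.of_algebraMap_eq fun _ => rfl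
  obtain ⟨t, z, hP⟩ := hm₀ Y.f (by omega)
  obtain ⟨y, ζ, -, g2⟩ := hv_curve hρ.ker hM c Φ hC h1 h2 Y hP
  exact ⟨L, _, hL, by rw [← Y.deg, e1, one_mul], fun j => Subtype.prop _,
    (tffi_on (X := C.var)).2 g2⟩

end Pool.Agent.ZCy.F
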