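import Pool.Agent.Lib.MP_751085_ag.ZF.T.VDefs

/-! The integers of any finite extension of a complete discretely valued field. -/

namespace Pool.Agent.ZCy

open scoped Classical WithZero Polynomial
open IsLocalRing

theorem tffi_pi {R ι : Type} [CommRing R] [Fintype ι] (I : Ideal R) [IsPrecomplete I R] :
    IsPrecomplete I (ι → R) := ⟨fun x hx => by
  choose L hL using fun i => IsPrecomplete.prec (I := I) (M := R) inferInstance
    (f := fun n => x n i) fun {m n} h => SModEq.sub_mem.2 (by
      have := Submodule.mem_map_of_mem (f := LinearMap.proj (R := R) (φ := fun _ : ι => R) i)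
        (SModEq.sub_mem.1 (hx h))
      rw [Submodule.map_smul''] at this
      exact Submodule.smul_mono le_rfl le_top this)
  refine ⟨L, fun n => SModEq.sub_mem.2 ?_⟩
  rw [pi_eq_sum_univ' (x n - L)]
  refine Submodule.sum_mem _ fun i _ => Submodule.smul_mem_smul ?_ trivial
  simpa using SModEq.sub_mem.1 (hL i n)⟩

/-- a separated lattice over a complete discrete valuation ring is finite and complete -/
theorem tffi_fin {R K E B : Type} [CommRing R] [IsDomain R] [CDVR R] [Field K] [Algebra R K]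
    [IsFractionRing R K] [AddCommGroup E] [Module K E] [Module R E] [IsScalarTower R K E]
    [FiniteDimensional K E] [AddCommGroup B] [Module R B] [IsHausdorff (maximalIdeal R) B]
    (F : B →ₗ[R] E) (hF : Function.Injective F) :
    Module.Finite R B ∧ IsPrecomplete (maximalIdeal R) B := by
  let _ := Ideal.Quotient.field (maximalIdeal R)
  let N : Submodule R B := maximalIdeal R • ⊤
  let c := Module.Basis.ofVectorSpace (R ⧸ maximalIdeal R) (B ⧸ N)
  choose b hb using fun i => N.mkQ_surjective (c i)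
  have h1 : LinearIndependent K (F ∘ b) :=
    Ideal.FinrankQuotientMap.linearIndependent_of_nontrivial K (S := R ⧸ maximalIdeal R)
      (RingHom.ker_ne_top _) F hF N.mkQ (by
        rw [show N.mkQ ∘ b = c from funext hb]
        exact c.linearIndependent)
  have := h1.finite_of_isNoetherian
  have := Fintype.ofFinite (Module.Basis.ofVectorSpaceIndex (R ⧸ maximalIdeal R) (B ⧸ N))
  have := tffi_pi (ι := Module.Basis.ofVectorSpaceIndex (R ⧸ maximalIdeal R) (B ⧸ N))
    (maximalIdeal R)
  have h2 : Function.Surjective (N.mkQ ∘ₗ Fintype.linearCombination R b) := fun y => by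
    choose a ha using fun i => Ideal.Quotient.mk_surjective (c.repr y i)
    refine ⟨a, ?_⟩
    rw [← c.sum_repr y, LinearMap.comp_apply, Fintype.linearCombination_apply, map_sum]
    refine Finset.sum_congr rfl fun i _ => ?_
    rw [← ha, ← hb]
    rfl
  refine ⟨.of_surjective _ (surjective_of_mkQ_comp_surjective h2),
    AdicCompletion.of_surjective_iff.1 fun y => ?_⟩
  obtain ⟨x, rfl⟩ := AdicCompletion.map_surjective_of_mkQ_comp_surjective h2 y
  obtain ⟨x, rfl⟩ := AdicCompletion.of_surjective _ _ x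
  exact ⟨_, (AdicCompletion.map_of _ _ _).symm⟩

theorem exists_cdvr_extF {R K E : Type} [CommRing R] [IsDomain R] [CDVR R] [Field K] [Field E]
    [Algebra K E] [FiniteDimensional K E] {ι : R →+* K} {v : Vl K} (h : IsVR ι v) :
    ∃ (w : Vl E) (_ : CDVR w.integer) (f : R →+* w.integer), Nrm w ∧ Over (algebraMap K E) v w ∧
      (∀ a, (f a : E) = tE E ι a) ∧ f.Finite ∧ IsLocalHom f := by
  obtain ⟨w, n, ho⟩ := exists_over_nrm (E := E) h.1
  let f : R →+* w.integer := (tE E ι).codRestrict _ fun a => (ho _).2 (h.le_one a)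
  let _ := ι.toAlgebra
  let _ := (tE E ι).toAlgebra
  let _ := f.toAlgebra
  have := h.isFr.frac
  have : IsScalarTower R K E := IsScalarTower.of_algebraMap_eq fun _ => rfl
  have : IsScalarTower R w.integer E := IsScalarTower.of_algebraMap_eq fun _ => rfl
  obtain ⟨e, he, hi⟩ := ho.idx h.1
  obtain ⟨p, hp⟩ := vcv_uni h
  have key : ∀ (k : ℕ) (y z : w.integer),
      y ≡ z [SMOD (maximalIdeal R ^ k • ⊤ : Submodule R w.integer)] ↔
        w (z - y) ≤ WithZero.exp (-((e * k : ℕ) : ℤ)) := fun k y z => by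
    have h1 : w (w.integer.subtype (algebraMap R w.integer (p ^ k))) =
        WithZero.exp (-((e * k : ℕ) : ℤ)) := by
      have h2 := (vcv_pow_dvd h hp p k).1
      refine (hi (ι (p ^ k)) (v.ne_zero_iff.1 (h2 ▸ WithZero.exp_ne_zero))).trans ?_
      rw [h2, ← WithZero.exp_nsmul]
      simp
    rw [SModEq.sub_mem, Ideal.smul_top_eq_map, (h.irreducible_iff.2 hp).maximalIdeal_eq,
      Ideal.span_singleton_pow, Ideal.map_span, Set.image_singleton, Submodule.restrictScalars_mem,
      Ideal.mem_span_singleton, n.isVR.dvd_iff, h1, map_sub, w.map_sub_swap]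
    rfl
  have hk : ∀ k : ℕ, k ≤ e * k := fun k => Nat.le_mul_of_pos_left k (Nat.pos_of_ne_zero he)
  have hk' : ∀ k : ℕ, WithZero.exp (-((e * k : ℕ) : ℤ)) ≤ WithZero.exp (-(k : ℤ)) := fun k =>
    WithZero.exp_le_exp.2 (by have := hk k; omega)
  have : IsHausdorff (maximalIdeal R) w.integer := ⟨fun x hx =>
    Subtype.ext (eq_zero_of_le_exp w fun k => by simpa using ((key k _ _).1 (hx k)).trans (hk' k))⟩
  obtain ⟨h1, h2⟩ := tffi_fin (K := K) (IsScalarTower.toAlgHom R w.integer E).toLinearMap
    Subtype.val_injective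
  refine ⟨w, n.isVR.cdvr fun x hx => ?_, f, n, ho, fun _ => rfl, h1,
    ⟨fun a ha => (h.eq_one a).1 ((ho.eq_one _).1 ((n.isVR.eq_one _).2 ha))⟩⟩
  obtain ⟨L, hL⟩ := h2.prec (f := fun k => ⟨x (e * k) - x 0, by
      simpa [Valuation.mem_integer_iff] using vcv_chain hx (e * k).zero_le⟩) fun {k l} hkl =>
    (key _ _ _).2 (by simpa using vcv_chain hx (Nat.mul_le_mul_left e hkl))
  refine ⟨L + x 0, fun k => ?_⟩
  rw [show (L : E) + x 0 - x k = (L - (x (e * k) - x 0)) + (x (e * k) - x k) by ring]
  exact w.map_add_le (((key _ _ _).1 (hL k)).trans (hk' k)) (vcv_chain hx (hk k))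

theorem cdvr_intF (R K E : Type) [CommRing R] [IsDomain R] [CDVR R] [Field K] [Field E]
    [Algebra K E] [FiniteDimensional K E] [Algebra R K] [IsFractionRing R K] [Algebra R E]
    [IsScalarTower R K E] : CDVR (integralClosure R E) ∧ Module.Finite R (integralClosure R E) ∧
      IsLocalHom (algebraMap R (integralClosure R E)) := by
  obtain ⟨v, h⟩ := exists_isVR (isFr_alg R K)
  obtain ⟨w, _, f, n, ho, hf, hfin, -⟩ := exists_cdvr_extF (E := E) h
  let _ := f.toAlgebra
  have : IsScalarTower R w.integer E := IsScalarTower.of_algebraMap_eq fun a =>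
    (IsScalarTower.algebraMap_apply R K E a).trans (hf a).symm
  have : Module.Finite R w.integer := hfin
  have hi : ∀ x : E, w x ≤ 1 ↔ IsIntegral R x := fun x =>
    ⟨fun hx => (IsIntegral.of_finite R (⟨x, hx⟩ : w.integer)).algebraMap,
      le_one_of_int fun a => (algebraMap R w.integer a).2.trans_eq' (congrArg w
        (IsScalarTower.algebraMap_apply R w.integer E a).symm)⟩
  have hw : IsVR (algebraMap (integralClosure R E) E) w := ⟨n, Subtype.val_injective, fun x => by
    rw [hi]
    exact ⟨fun hx => ⟨⟨x, hx⟩, rfl⟩, fun ⟨y, hy⟩ => hy ▸ y.2⟩⟩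
  have : IsIntegralClosure w.integer R E := ⟨Subtype.val_injective, fun {x} =>
    ⟨fun hx => ⟨⟨x, (hi x).2 hx⟩, rfl⟩, fun ⟨y, hy⟩ => hy ▸ (hi y).1 y.2⟩⟩
  refine ⟨hw.cdvr n.isVR.cpl, .equiv
    (IsIntegralClosure.equiv R w.integer E (integralClosure R E)).toLinearEquiv,
    ⟨fun a ha => (h.eq_one a).1 ((ho.eq_one _).1 ?_)⟩⟩
  rw [← IsScalarTower.algebraMap_apply, IsScalarTower.algebraMap_apply R (integralClosure R E) E]
  exact (hw.eq_one _).2 ha

end Pool.Agent.ZCy
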