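import Pool.Agent.Lib.MP_751085_ag.ZF.T.Finc

/-! Finite extensions of local fields in any characteristic. -/

namespace Pool.Agent.ZCy

open scoped Classical WithZero Polynomial

set_option linter.unusedSectionVars false

section

variable {O K κ : Type} [CommRing O] [IsDomain O] [CDVR O] [Field K] [Algebra O K]
  [IsFractionRing O K] [Field κ] [IsAlgClosed κ] {s : ℕ} {ρ : O →+* κ}

theorem exists_lextF (hs : FinB κ s) (hρ : LRes ρ s) (L : Type) [Field L] [Algebra K L]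
    [FiniteDimensional K L] : Nonempty (LExt K ρ s L) := by
  let : Algebra O L := ((algebraMap K L).comp (algebraMap O K)).toAlgebra
  have : IsScalarTower O K L := IsScalarTower.of_algebraMap_eq fun _ => rfl
  obtain ⟨_, _, -⟩ := cdvr_intF O K L
  have : IsFractionRing (integralClosure O L) L :=
    integralClosure.isFractionRing_of_finite_extension K L
  exact tlex_mk hs hρ L (integralClosure O L)

theorem exists_unxF (hs : FinB κ s) (hρ : LRes ρ s) {m : ℕ} (hm : 0 < m) :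
    ∃ (L : Type) (_ : Field L) (_ : Algebra K L) (_ : FiniteDimensional K L) (Y : LExt K ρ s L),
      Y.e = 1 ∧ Y.f = m := by
  obtain ⟨i, hi, hc, hf⟩ := tlex_res hs hρ
  obtain ⟨p, hp⟩ := CharP.exists (IsLocalRing.ResidueField O)
  have : Fact p.Prime := ⟨CharP.char_is_prime (IsLocalRing.ResidueField O) p⟩
  have : NeZero m := ⟨hm.ne'⟩
  obtain ⟨α, hα⟩ := Field.exists_primitive_element_of_finite_top (IsLocalRing.ResidueField O)
    (FiniteField.Extension (IsLocalRing.ResidueField O) p m)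
  have hint : IsIntegral (IsLocalRing.ResidueField O) α := Algebra.IsIntegral.isIntegral α
  have hdeg := (Field.primitive_element_iff_minpoly_natDegree_eq _ α).1 hα
  rw [FiniteField.finrank_extension] at hdeg
  have hirr := minpoly.irreducible hint
  have hmon := minpoly.monic hint
  generalize minpoly (IsLocalRing.ResidueField O) α = g at hdeg hirr hmon
  obtain ⟨P, hPg, hPd, hP⟩ := Polynomial.lifts_and_natDegree_eq_and_monic
    (f := IsLocalRing.residue O) (p := g)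
    (Polynomial.mem_lifts_of_surjective IsLocalRing.residue_surjective g) hmon
  have hPi : Irreducible P := hP.irreducible_of_irreducible_map (IsLocalRing.residue O) P
    (hPg ▸ hirr)
  have hK : Irreducible (P.map (algebraMap O K)) :=
    hP.irreducible_iff_irreducible_map_fraction_map.1 hPi
  have : Fact (Irreducible (P.map (algebraMap O K))) := ⟨hK⟩
  have : FiniteDimensional K (AdjoinRoot (P.map (algebraMap O K))) :=
    (AdjoinRoot.powerBasis hK.ne_zero).finite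
  have hrk : Module.finrank K (AdjoinRoot (P.map (algebraMap O K))) = m := by
    rw [(AdjoinRoot.powerBasis hK.ne_zero).finrank, AdjoinRoot.powerBasis_dim, hP.natDegree_map,
      hPd, hdeg]
  obtain ⟨Y⟩ := exists_lextF (K := K) hs hρ (AdjoinRoot (P.map (algebraMap O K)))
  have hroot : P.eval₂ ((algebraMap K (AdjoinRoot (P.map (algebraMap O K)))).comp (algebraMap O K))
      (AdjoinRoot.root _) = 0 := by
    rw [← Polynomial.eval₂_map]
    exact AdjoinRoot.eval₂_root _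
  obtain ⟨y, hy⟩ := tlex_int Y hP hroot
  have hy0 : P.eval₂ (algebraMap O Y.R) y = 0 := by
    apply IsFractionRing.injective Y.R (AdjoinRoot (P.map (algebraMap O K)))
    rw [Polynomial.hom_eval₂, hy, map_zero, ← hroot]
    congr 1
    exact RingHom.ext Y.tow
  let : Algebra (IsLocalRing.ResidueField O) κ := i.toAlgebra
  have hz : Polynomial.aeval (Y.ρ y) g = 0 := by
    rw [Polynomial.aeval_def, ← hPg, Polynomial.eval₂_map, ← map_zero Y.ρ, ← hy0,
      Polynomial.hom_eval₂]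
    congr 1
    exact RingHom.ext fun a => (hi a).trans (Y.cmp a).symm
  have hdv : g.natDegree ∣ Y.f := by
    apply hirr.natDegree_dvd_of_dvd_X_pow_card_pow_sub_X
    rw [← hirr.dvd_iff_aeval_eq_zero hz, map_sub, map_pow, Polynomial.aeval_X, hc,
      (Y.res.rng _).1 ⟨y, rfl⟩, sub_self]
  rw [hdeg] at hdv
  have hef := Y.deg
  rw [hrk] at hef
  have hfm : Y.f = m := Nat.dvd_antisymm ⟨Y.e, by rw [← hef, mul_comm]⟩ hdv
  refine ⟨_, inferInstance, inferInstance, inferInstance, Y, ?_, hfm⟩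
  rw [hfm] at hef
  exact Nat.eq_of_mul_eq_mul_right hm (hef.trans (one_mul m).symm)

theorem tfin_unxF (hs : FinB κ s) (hρ : LRes ρ s) {m : ℕ} (hm : 0 < m) :
    ∃ (L : IntermediateField K (AlgebraicClosure K)) (_ : FiniteDimensional K L)
      (Y : LExt K ρ s L), Y.e = 1 ∧ Y.f = m := by
  obtain ⟨L, _, _, _, Y, h1, h2⟩ := exists_unxF (K := K) hs hρ hm
  let u : L →ₐ[K] AlgebraicClosure K := IsAlgClosed.lift
  let e : L ≃ₐ[K] u.fieldRange := u.equivFieldRange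
  let _ : Algebra Y.R u.fieldRange := ((e : L →+* _).comp (algebraMap Y.R L)).toAlgebra
  have : IsFractionRing Y.R u.fieldRange := IsLocalization.isLocalization_of_algEquiv _
    (AlgEquiv.ofRingEquiv (f := e.toRingEquiv) fun _ => rfl : L ≃ₐ[Y.R] u.fieldRange)
  exact ⟨u.fieldRange, e.toLinearEquiv.finiteDimensional,
    { R := Y.R, ρ := Y.ρ, e := Y.e, f := Y.f, res := Y.res, cmp := Y.cmp, fpos := Y.fpos,
      idx := Y.idx, deg := Y.deg.trans e.toLinearEquiv.finrank_eq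
      tow := fun a => (congrArg e (Y.tow a)).trans (e.commutes _) }, h1, h2⟩

theorem exists_linv_dataF (hs : FinB κ s) (hρ : LRes ρ s) : ∃ (v : Vl K) (ρ' : v.integer →+* κ)
    (γ : κ ≃+* κ), IsVR (algebraMap O K) v ∧ RedA (algebraMap O K) ρ' ρ ∧ (∀ z, γ z = z ^ s) ∧
      LocV v ρ' s := by
  obtain ⟨v, hv⟩ := exists_tVR (O := O) (K := K)
  obtain ⟨π, hπ⟩ := IsDiscreteValuationRing.exists_irreducible O
  obtain ⟨ρ', h1, h2⟩ := gau_red frc_alg hπ.prime (fac_of_wf hπ.prime) (hv.cen1 hπ).1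
    (hρ.ker.dvd hπ)
  obtain ⟨γ, hγ⟩ := hs.frob 1
  refine ⟨v, ρ', γ, hv, h2, by simpa using hγ, hv.1, nv_hens O hv, h1, ?_,
    zero_lt_one.trans hs.one_lt⟩
  exact (Nat.card_congr (Equiv.subtypeEquivRight (tloc_rng hρ hv h2))).trans hs.card

variable {L : Type} [Field L] [Algebra K L] (Y : LExt K ρ s L)

theorem LExt.injF : Function.Injective (algebraMap O Y.R) := fun a b h => by
  apply IsFractionRing.injective O K
  apply (algebraMap K L).injective
  rw [← Y.tow, ← Y.tow, h]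

theorem LExt.locF (hρ : LRes ρ s) : IsLocalHom (algebraMap O Y.R) := ⟨fun a ha => by
  by_contra h
  have h1 := (hρ.ker a).2 h
  rw [← Y.cmp] at h1
  exact (Y.res.ker _).1 h1 ha⟩

theorem LExt.eposF : 0 < Y.e := by
  obtain ⟨π, hπ⟩ := IsDiscreteValuationRing.exists_irreducible O
  obtain ⟨π₁, hπ₁⟩ := IsDiscreteValuationRing.exists_irreducible Y.R
  have : FaithfulSMul O Y.R := (faithfulSMul_iff_algebraMap_injective O Y.R).2 Y.injF
  refine Nat.pos_of_ne_zero fun h => hπ.not_isUnit ?_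
  have h1 := Y.idx π π₁ hπ hπ₁
  rw [h, pow_zero, associated_one_iff_isUnit] at h1
  exact isUnit_of_map_unit (algebraMap O Y.R) π h1

theorem LExt.autF (g : L ≃ₐ[K] L) : ∃ g₀ : Y.R ≃+* Y.R,
    (∀ a, algebraMap Y.R L (g₀ a) = g (algebraMap Y.R L a)) ∧
      ∀ a : O, g₀ (algebraMap O Y.R a) = algebraMap O Y.R a := by
  have h : ∀ g : L ≃ₐ[K] L, ∃ j₀ : Y.R →+* Y.R,
      ∀ a, algebraMap Y.R L (j₀ a) = g (algebraMap Y.R L a) := fun g =>
    tlex_lift Y ((g : L →+* L).comp (algebraMap Y.R L)) fun a => by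
      rw [RingHom.comp_apply, Y.tow]
      exact g.commutes _
  obtain ⟨φ, hφ⟩ := h g
  obtain ⟨ψ, hψ⟩ := h g.symm
  have hi := IsFractionRing.injective Y.R L
  refine ⟨RingEquiv.ofRingHom φ ψ (RingHom.ext fun a => hi ?_) (RingHom.ext fun a => hi ?_),
    hφ, fun a => hi ?_⟩
  · rw [RingHom.comp_apply, hφ, hψ, g.apply_symm_apply, RingHom.id_apply]
  · rw [RingHom.comp_apply, hψ, hφ, g.symm_apply_apply, RingHom.id_apply]
  · refine (hφ _).trans ?_
    rw [Y.tow]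
    exact g.commutes _

theorem LExt.liftF {S : Type} [CommRing S] [Algebra O S] [Algebra.IsIntegral O S] (j : S →+* L)
    (hj : ∀ a : O, j (algebraMap O S a) = algebraMap K L (algebraMap O K a)) :
    ∃ j₀ : S →+* Y.R, ∀ a, algebraMap Y.R L (j₀ a) = j a := tlex_lift Y j hj

end

variable {R L L₂ κ : Type} [CommRing R] [IsDomain R] [CDVR R] [Field L] [Algebra R L]
  [IsFractionRing R L] [Field κ] [IsAlgClosed κ] {s : ℕ} {ρ : R →+* κ} [Field L₂] [Algebra L L₂]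
  (X2 : LExt L ρ s L₂) {v₂ : Vl L₂}

theorem LExt.decF [FiniteDimensional L L₂] (hv₂ : IsVR (algebraMap X2.R L₂) v₂)
    (g : L₂ ≃ₐ[L] L₂) : g ∈ Dec L v₂ := by
  obtain ⟨g₀, h, -⟩ := X2.autF g
  refine lv_dec fun x => ?_
  rw [hv₂.2.2, hv₂.2.2]
  constructor
  · rintro ⟨a, ha⟩
    exact ⟨g₀.symm a, g.injective (by rw [← h, g₀.apply_symm_apply, ha])⟩
  · rintro ⟨a, rfl⟩
    exact ⟨_, h a⟩

theorem LExt.idqF {v : Vl L} (hv : IsVR (algebraMap R L) v) (hv₂ : IsVR (algebraMap X2.R L₂) v₂) :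
    Idq (algebraMap L L₂) v v₂ X2.e := by
  obtain ⟨π, hπ⟩ := IsDiscreteValuationRing.exists_irreducible R
  obtain ⟨π₁, hπ₁⟩ := IsDiscreteValuationRing.exists_irreducible X2.R
  have hc := hv₂.cen1 hπ₁
  have hi := X2.idx π π₁ hπ hπ₁
  have hw : Cen ((algebraMap L L₂).comp (algebraMap R L)) v₂ π := by
    refine ⟨fun a => ?_, fun a => ?_⟩
    · rw [RingHom.comp_apply, ← X2.tow]
      exact hc.1.1 _
    · rw [RingHom.comp_apply, ← X2.tow, hc.1.2]
      refine ⟨fun h => (kerM_residue.dvd hπ a).1 ((kerM_residue a).2 fun u =>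
        hπ₁.not_isUnit (isUnit_of_dvd_unit h (u.map _))), fun h => ?_⟩
      exact ((dvd_pow_self π₁ X2.eposF.ne').trans hi.symm.dvd).trans (map_dvd _ h)
  have h := (gau_idq frc_alg hπ.prime (fac_of_wf hπ.prime) (hv.cen1 hπ) hw).2
  obtain ⟨u, hu⟩ := hi
  have h1 : v₂ (algebraMap X2.R L₂ u) = 1 :=
    (hc.1.eq_one _).2 fun h => hπ₁.not_isUnit (isUnit_of_dvd_unit h u.isUnit)
  have h2 := congrArg (fun z => v₂ (algebraMap X2.R L₂ z)) hu
  simp only [map_mul, map_pow, h1, mul_one, hc.2, X2.tow] at h2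
  have h3 : ord v₂ (algebraMap L L₂ (algebraMap R L π)) = X2.e := by
    rw [ord, h2, WithZero.log_pow, WithZero.log_exp]
    simp
  rwa [h3, Int.cast_natCast] at h

theorem LExt.ineF (hv₂ : IsVR (algebraMap X2.R L₂) v₂) {g : L₂ ≃ₐ[L] L₂} (hg : g ∈ Ine L v₂)
    {a a' : X2.R} (h : algebraMap X2.R L₂ a' = g (algebraMap X2.R L₂ a)) : X2.ρ a' = X2.ρ a := by
  obtain ⟨π₁, hπ₁⟩ := IsDiscreteValuationRing.exists_irreducible X2.R
  have hc := (hv₂.cen1 hπ₁).1
  rw [← sub_eq_zero, ← map_sub, X2.res.ker.dvd hπ₁, ← hc.2, map_sub, h]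
  exact hg.2 _ (hc.1 a)

theorem LExt.frobF [FiniteDimensional L L₂] [IsGalois L L₂] (hs : FinB κ s) (hρ : LRes ρ s) :
    ∃ d : L₂ ≃ₐ[L] L₂, ∀ a a' : X2.R,
    algebraMap X2.R L₂ a' = d (algebraMap X2.R L₂ a) → X2.ρ a' = X2.ρ a ^ s := by
  obtain ⟨w, ρ₁, -, hw, h4, -, h6⟩ := exists_linv_dataF (K := L₂) (hs.pow X2.fpos) X2.res
  obtain ⟨v, hv⟩ := exists_tVR (O := R) (K := L)
  obtain ⟨φ, hφ⟩ := hs.frob 1
  have ho := (X2.idqF hv hw).isOver (Nat.cast_pos.2 X2.eposF)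
  obtain ⟨d, -, hd⟩ := lv_red (K := L) h6.red (h6.red.tcomp (φ : κ →+* κ)) fun a y e => by
    obtain ⟨b, rfl⟩ := (hv.2.2 a).1 ((ho a).1 (e ▸ y.2))
    rw [RingHom.comp_apply, h4 _ y (e.trans (X2.tow b).symm), X2.cmp]
    exact (hφ _).trans (by rw [pow_one, (hρ.rng _).1 ⟨b, rfl⟩])
  refine ⟨d, fun a a' h => ?_⟩
  have h7 := hd ⟨_, (hw.2.2 _).2 ⟨a, rfl⟩⟩ ⟨_, (hw.2.2 _).2 ⟨a', rfl⟩⟩ h
  rw [RingHom.comp_apply, h4 a _ rfl, h4 a' _ rfl] at h7
  exact h7.symm.trans ((hφ _).trans (by rw [pow_one]))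

theorem tt1_actF {R L L₂ κ ι E : Type} [CommRing R] [IsDomain R] [CDVR R] [Field L]
    [Algebra R L] [IsFractionRing R L] [Field κ] [IsAlgClosed κ] {s : ℕ} {ρ : R →+* κ} [Field L₂]
    [Algebra L L₂] (X2 : LExt L ρ s L₂) (J : E → FP ι X2.R) {B : FP ι X2.R →+* FP ι L₂}
    (hB : CoefL (algebraMap X2.R L₂) B) (g : L₂ ≃ₐ[L] L₂) (t : E → E)
    (ht : ∀ Γ : FP ι L₂ →+* FP ι L₂, CoefL (g : L₂ →+* L₂) Γ → ∀ x, B (J (t x)) = Γ (B (J x))) :
    ∃ (g₀ : X2.R ≃+* X2.R) (Γ₀ : FP ι X2.R →+* FP ι X2.R),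
      (∀ a, algebraMap X2.R L₂ (g₀ a) = g (algebraMap X2.R L₂ a)) ∧
      CoefL (g₀ : X2.R →+* X2.R) Γ₀ ∧ ∀ x, J (t x) = Γ₀ (J x) := by
  obtain ⟨g₀, h1, -⟩ := X2.autF g
  obtain ⟨Γ₀, h2⟩ := exists_coefL (ι := ι) (f := (g₀ : X2.R →+* X2.R)) g₀.injective
  obtain ⟨Γ, h3⟩ := exists_coefL (ι := ι) (f := (g : L₂ →+* L₂)) g.injective
  have e : B.comp Γ₀ = Γ.comp B := fp_ext fun y => by
    rw [RingHom.comp_apply, RingHom.comp_apply, h2, hB, hB, h3, tpsv_map, tpsv_map]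
    exact congrArg (fun f => ps ι L₂ (MvPowerSeries.map f y)) (RingHom.ext h1)
  exact ⟨g₀, Γ₀, h1, h2, fun x => B.injective ((ht Γ h3 x).trans (DFunLike.congr_fun e _).symm)⟩

end Pool.Agent.ZCy
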