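import Pool.Agent.Lib.MP_751085_ag.ZF.T.Need
import Pool.Agent.Lib.MP_751085_ag.ZF.T.LexF

/-! The residue at Frobenius of a class of a local field. -/

namespace Pool.Agent.ZCy.F

open scoped Classical WithZero Polynomial

set_option linter.unusedSectionVars false

variable {O K κ : Type} [CommRing O] [IsDomain O] [CDVR O] [Field K] [Algebra O K]
  [IsFractionRing O K] [Field κ] [IsAlgClosed κ] {s : ℕ} {ρ : O →+* κ} {β β' : BR K}
  {x x' : AddCircle (1 : ℚ)}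

theorem linv_iff (hρ : LRes ρ s) {v : Vl K} {ρ' : v.integer →+* κ} {γ : κ ≃+* κ}
    (hv : IsVR (algebraMap O K) v) (h1 : RedA (algebraMap O K) ρ' ρ) (h2 : ∀ z, γ z = z ^ s) :
    LInv K ρ s β x ↔ ResAt v ρ' β γ x := by
  have _ := hρ
  refine ⟨?_, fun h => ⟨v, ρ', γ, hv, h1, h2, h⟩⟩
  rintro ⟨v₁, ρ₁, γ₁, hv₁, h3, h4, h5⟩
  obtain rfl : v₁ = v := nv_eq hv.1 hv₁.1 fun y => (hv₁.2.2 y).trans (hv.2.2 y).symm
  obtain rfl : ρ₁ = ρ' := RingHom.ext fun y => by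
    obtain ⟨a, ha⟩ := (hv.2.2 y.1).1 y.2
    exact (h3 a y ha.symm).trans (h1 a y ha.symm).symm
  obtain rfl : γ₁ = γ := RingEquiv.ext fun z => (h4 z).trans (h2 z).symm
  exact h5

theorem LInv.uniq (hs : FinB κ s) (hρ : LRes ρ s) (h : LInv K ρ s β x) (h' : LInv K ρ s β x') :
    x = x' := by
  obtain ⟨v, ρ', γ, hv, h1, h2, -⟩ := exists_linv_dataF (K := K) hs hρ
  exact nr_uniq hv.1 ((linv_iff hρ hv h1 h2).1 h) ((linv_iff hρ hv h1 h2).1 h')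

theorem LInv.zero (hs : FinB κ s) (hρ : LRes ρ s) : LInv K ρ s (0 : BR K) 0 := by
  obtain ⟨v, ρ', γ, hv, h1, h2, h3⟩ := exists_linv_dataF (K := K) hs hρ
  exact ⟨v, ρ', γ, hv, h1, h2, nr_zero hv.1 h3.red fun y =>
    (h2 _).trans ((tloc_rng hρ hv h1 _).1 ⟨y, rfl⟩)⟩

theorem LInv.add (hs : FinB κ s) (hρ : LRes ρ s) (h : LInv K ρ s β x) (h' : LInv K ρ s β' x') :
    LInv K ρ s (β + β') (x + x') := by
  obtain ⟨v, ρ', γ, hv, h1, h2, -⟩ := exists_linv_dataF (K := K) hs hρ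
  rw [linv_iff hρ hv h1 h2] at h h' ⊢
  exact nr_add hv.1 h h'

theorem LInv.sub (hs : FinB κ s) (hρ : LRes ρ s) (h : LInv K ρ s β x) (h' : LInv K ρ s β' x') :
    LInv K ρ s (β - β') (x - x') := by
  obtain ⟨v, ρ', γ, hv, h1, h2, -⟩ := exists_linv_dataF (K := K) hs hρ
  rw [linv_iff hρ hv h1 h2] at h h' ⊢
  exact nr_sub hv.1 h h'

theorem LInv.zsmul (hs : FinB κ s) (hρ : LRes ρ s) (h : LInv K ρ s β x) (n : ℤ) :
    LInv K ρ s (n • β) (n • x) := by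
  induction n using Int.induction_on with
  | zero =>
    have e : (0 : ℤ) • β = 0 := zero_zsmul β
    rw [e, zero_smul]
    exact LInv.zero hs hρ
  | succ i ih =>
    have e : ((i : ℤ) + 1) • β = (i : ℤ) • β + β :=
      add_one_zsmul β i
    rw [e, add_smul, one_smul]
    exact ih.add hs hρ h
  | pred i ih =>
    have e : (-(i : ℤ) - 1) • β = -(i : ℤ) • β - β :=
      (sub_zsmul β (-(i : ℤ)) 1).trans ((congrArg (fun t => -(i : ℤ) • β + -t) (one_zsmul β)).trans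
        (sub_eq_add_neg _ β).symm)
    rw [e, sub_smul, one_smul]
    exact LInv.sub hs hρ ih h

theorem LInv.inj (hs : FinB κ s) (hρ : LRes ρ s) {N : ℕ} (hN : IsUnit (N : O)) (h1 : N • β = 0)
    (h2 : N • β' = 0) (h : LInv K ρ s β x) (h' : LInv K ρ s β' x) : β = β' := by
  have h3 := LInv.sub hs hρ h h'
  obtain ⟨v, ρ', γ, hv, h4, h5, h6⟩ := exists_linv_dataF (K := K) hs hρ
  rw [linv_iff hρ hv h4 h5, sub_self] at h3
  have e : N • (β - β') = N • β - N • β' := nsmul_sub β β' N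
  exact sub_eq_zero.1 (nr_R4b h6 h5 (tloc_unit hv hN)
    (by rw [e, h1, h2]; exact sub_self (0 : BR K)) h3)

theorem LInv.cor (hs : FinB κ s) (hρ : LRes ρ s) {L : Type} [Field L] [Algebra K L]
    [FiniteDimensional K L] (Y : LExt K ρ s L) {b : BR L} {N : ℕ} (hN : IsUnit (N : O))
    (hb : N • b = 0) (h : LInv L Y.ρ (s ^ Y.f) b x) : LInv K ρ s (corN K L b) x := by
  obtain ⟨v, ρ', γ, hv, h1, h2, h3⟩ := exists_linv_dataF (K := K) hs hρ
  obtain ⟨w, ρ₁, γ₁, hw, h4, h5, h6⟩ := exists_linv_dataF (K := L) (hs.pow Y.fpos) Y.res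
  rw [linv_iff Y.res hw h4 h5] at h
  have hc : Cmp (algebraMap K L) ρ' ρ₁ id := fun y z e => by
    obtain ⟨a, ha⟩ := (hv.2.2 y.1).1 y.2
    rw [h4 _ z (e.trans (by rw [Y.tow, ha])), Y.cmp, id, h1 a y ha.symm]
  have hi := Y.idqF hv hw
  exact ⟨v, ρ', γ, hv, h1, h2, nr_LI h3 h6 (hi.isOver (Nat.cast_pos.2 Y.eposF))
    ⟨_, _, Y.eposF, hi, rfl, Y.deg⟩ hc h2 h5 (tloc_unit hv hN) hb h⟩

end Pool.Agent.ZCy.F
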