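import Pool.Agent.Lib.MP_751085_ag.ZF.T.Loc

/-! The pairing of cycles with a class that has constant values. -/

namespace Pool.Agent.ZCy.F

open scoped Classical

variable {k K : Type} [Field k] [Field K] [Algebra k K] {X : Var k}

theorem tfpa_add (z z' : X.Cyc K) (a : BR X.F) : Var.pr (z + z') a = Var.pr z a + Var.pr z' a :=
  Finsupp.sum_add_index' (fun _ => zero_zsmul _) fun _ _ _ => add_zsmul (_ : BR K) _ _

theorem tfpa_single (a : BR X.F) (x : X.Pt (AlgebraicClosure K)) (n : ℤ) :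
    Var.pr (Finsupp.single x n : X.Cyc K) a =
      n • corN K (Var.res x) (X.vl a (Var.res x) (Var.crd x)) := by
  refine (Finsupp.sum_single_index (zero_zsmul _)).trans ?_
  exact congrArg (fun t : BR K => n • t) (dif_pos fun i => (Var.crd x i).2)

theorem tfpa_kill (A : Type) [AddCommGroup A] (N : ℕ) : N • (0 : A) = 0 ∧
    (∀ a b : A, N • a = 0 → N • b = 0 → N • (a + b) = 0) ∧
    ∀ (n : ℤ) (a : A), N • a = 0 → N • n • a = 0 :=
  ⟨nsmul_zero N, fun a b h h' => by rw [nsmul_add, h, h', add_zero],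
    fun n a h => by rw [smul_comm, h, zsmul_zero]⟩

theorem EvApi.val_kill (h : EvApi X) {a : BR X.F} (ha : a ∈ X.Bw) {N : ℕ} (hN : N • a = 0)
    (M : Type) [Field M] [Algebra k M] {x : Fin (X.N + 1) → M} (hx : X.On x) :
    N • X.vl a M x = 0 := by
  have e := h.val_nsmul a ha 0 M x hx
  rw [zero_nsmul, zero_nsmul] at e
  rw [← h.val_nsmul a ha N M x hx, hN, e]

theorem EvApi.pr_kill (h : EvApi X) {a : BR X.F} (ha : a ∈ X.Bw) {N : ℕ} (hN : N • a = 0)
    (z : X.Cyc K) : N • Var.pr z a = 0 := by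
  induction z using Finsupp.induction_linear with
  | zero => exact (tfpa_kill (BR K) N).1
  | add z z' h1 h2 => exact tfpa_add z z' a ▸ (tfpa_kill (BR K) N).2.1 _ _ h1 h2
  | single x n =>
    rw [tfpa_single]
    exact (tfpa_kill (BR K) N).2.2 _ _ ((map_nsmul (corN K (Var.res x)) N _).symm.trans
      ((congrArg _ (h.val_kill ha hN _ (Var.crd_on x))).trans (map_zero _)))

variable {O κ : Type} [CommRing O] [IsDomain O] [CDVR O] [Algebra O K] [IsFractionRing O K]
  [Field κ] [IsAlgClosed κ] {s : ℕ} {ρ : O →+* κ}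

theorem CVal.pair (h : EvApi X) (hs : FinB κ s) (hρ : LRes ρ s) {b : BR X.F}
    (hb : b ∈ X.Bw) {N : ℕ} (hN : IsUnit (N : O)) (h0 : N • b = 0) {q : AddCircle (1 : ℚ)}
    (hq : CVal X K ρ s b q) (z : X.Cyc K) : LInv K ρ s (Var.pr z b) (Var.deg z • q) := by
  induction z using Finsupp.induction_linear with
  | zero =>
    have e : Var.deg (0 : X.Cyc K) = 0 := rfl
    rw [e, zero_smul]
    exact LInv.zero hs hρ
  | add z z' h1 h2 =>
    rw [tfpa_add, Var.deg_add, add_smul]
    exact h1.add hs hρ h2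
  | single x n =>
    have : IsScalarTower k K (Var.res x) := IsScalarTower.of_algebraMap_eq fun _ => rfl
    obtain ⟨Y⟩ := exists_lextF (K := K) hs hρ (Var.res x)
    rw [tfpa_single, Var.deg_single, mul_smul, natCast_zsmul, ← Y.deg]
    exact (LInv.cor hs hρ Y hN (h.val_kill hb h0 _ (Var.crd_on x))
      (hq _ Y _ (Var.crd_on x))).zsmul hs hρ n

theorem CVal.kill0 (h : EvApi X) (hs : FinB κ s) (hρ : LRes ρ s) {b : BR X.F}
    (hb : b ∈ X.Bw) {N : ℕ} (hN : IsUnit (N : O)) (h0 : N • b = 0) {q : AddCircle (1 : ℚ)}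
    (hq : CVal X K ρ s b q) {z : X.Cyc K} (hz : Var.deg z = 0) : Var.pr z b = 0 := by
  have h1 := hq.pair h hs hρ hb hN h0 z
  rw [hz, zero_smul] at h1
  exact h1.inj hs hρ hN (h.pr_kill hb h0 z) (tfpa_kill (BR K) N).1 (LInv.zero hs hρ)

end Pool.Agent.ZCy.F
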