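import Pool.Agent.Lib.MP_751085_ag.ZF.T.VDefs

/-! Roots of a uniformiser. -/

namespace Pool.Agent.ZCy

open scoped Classical Polynomial

/-- the inertia group is transitive on the roots of `X ^ e - π` -/
theorem tf_onto {L E : Type} [Field L] [Field E] [Algebra L E] [FiniteDimensional L E]
    [IsGalois L E] {w : Vl E} {π : L} {ϖ : E} {e : ℕ} (he : e ≠ 0) (h0 : π ≠ 0)
    (hϖ : ϖ ^ e = algebraMap L E π) (hπ : w (algebraMap L E π) < 1)
    (hv : ∀ a : L, a ≠ 0 → ∃ n : ℤ, w (algebraMap L E a) = w (algebraMap L E π) ^ n)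
    (d : E ≃ₐ[L] E) : ∃ i ∈ Ine L w, i ϖ = d ϖ := by
  have := Fintype.ofFinite (Ine L w)
  let T : Finset E := Finset.univ.image fun i : Ine L w => i.1 ϖ
  have hT : ∀ y, y ∈ T ↔ ∃ i ∈ Ine L w, i ϖ = y := fun y => by simp [T]
  have hr : ∀ g : E ≃ₐ[L] E, g ϖ ∈ Polynomial.nthRootsFinset e (algebraMap L E π) := fun g => by
    rw [Polynomial.mem_nthRootsFinset (Nat.pos_of_ne_zero he), ← map_pow, hϖ, g.commutes]
  obtain ⟨a, ha⟩ := e1_of_ine (K := L) (w := w) (x := ∏ y ∈ T, y) fun g hg => by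
    rw [map_prod]
    refine Finset.prod_nbij g (fun y hy => ?_) g.injective.injOn (fun y hy => ?_) fun _ _ => rfl
    · obtain ⟨i, hi, rfl⟩ := (hT y).1 hy
      exact (hT _).2 ⟨g * i, mul_mem hg hi, rfl⟩
    · obtain ⟨i, hi, rfl⟩ := (hT y).1 hy
      exact ⟨(g⁻¹ * i) ϖ, (hT _).2 ⟨_, mul_mem (inv_mem hg) hi, rfl⟩, by
        rw [← AlgEquiv.mul_apply, mul_inv_cancel_left]⟩
  have h1 : w ϖ ≠ 0 := (map_ne_zero w).2 fun h => (map_ne_zero (algebraMap L E)).2 h0 (by
    rw [← hϖ, h, zero_pow he])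
  have h2 : w ϖ ≠ 1 := fun h => hπ.ne (by rw [← hϖ, map_pow, h, one_pow])
  rw [map_prod, Finset.prod_congr rfl (g := fun _ => w ϖ) fun y hy => by
    obtain ⟨i, hi, rfl⟩ := (hT y).1 hy
    exact hi.1 ϖ, Finset.prod_const] at ha
  obtain ⟨n, hn⟩ := hv a fun h => pow_ne_zero _ h1 (by rw [ha, h, map_zero, map_zero])
  rw [hn, ← hϖ, map_pow, ← zpow_natCast, ← zpow_natCast, ← zpow_mul] at ha
  have h3 : e ≤ T.card := Nat.le_of_dvd (Finset.card_pos.2 ⟨ϖ, (hT _).2 ⟨1, one_mem _, rfl⟩⟩)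
    (Int.natCast_dvd_natCast.1 ⟨n, zpow_right_injective₀ (zero_lt_iff.2 h1) h2 ha⟩)
  have h4 : T = Polynomial.nthRootsFinset e (algebraMap L E π) :=
    Finset.eq_of_subset_of_card_le (fun y hy => by
      obtain ⟨i, -, rfl⟩ := (hT y).1 hy
      exact hr i) (by
      rw [Polynomial.nthRootsFinset_def]
      exact ((Multiset.toFinset_card_le _).trans (Polynomial.card_nthRoots _ _)).trans h3)
  exact (hT _).1 (h4 ▸ hr d)

/-- `O'` is `O[X] / (X ^ e - π)` -/
structure Eis {O O' : Type} [CommRing O] [CommRing O'] (π : O) (e : ℕ) (i : O →+* O') (ϖ : O') :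
    Prop where
  pos : e ≠ 0
  irr : Irreducible ϖ
  root : ϖ ^ e = i π
  inj : Function.Injective i
  gen : ∀ x, ∃ p : O[X], x = p.eval₂ i ϖ
  lift : ∀ (S : Type) [CommRing S] (φ : O →+* S) (r : S), r ^ e = φ π →
    ∃ φ' : O' →+* S, (∀ a, φ' (i a) = φ a) ∧ φ' ϖ = r

variable {O O' S : Type} [CommRing O] [IsDomain O] [IsDiscreteValuationRing O] {π : O} {e : ℕ}

theorem exists_eis (hπ : Irreducible π) (he : e ≠ 0) : ∃ (O' : Type) (_ : CommRing O')
    (_ : IsDomain O') (_ : IsDiscreteValuationRing O') (i : O →+* O') (ϖ : O'), Eis π e i ϖ := by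
  have hm := Polynomial.monic_X_pow_sub_C π he
  have hd : (Polynomial.X ^ e - Polynomial.C π).natDegree = e := Polynomial.natDegree_X_pow_sub_C
  have hP : (Ideal.span {π}).IsPrime := (Ideal.span_singleton_prime hπ.ne_zero).2 hπ.prime
  have hi := (hm.isEisensteinAt_of_mem_of_notMem hP.ne_top (fun {n} hn => by
    rw [Polynomial.coeff_sub, Polynomial.coeff_X_pow, if_neg (hd ▸ hn).ne, zero_sub,
      Polynomial.coeff_C, neg_mem_iff, Ideal.mem_span_singleton]
    split_ifs <;> simp) (by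
    rw [Polynomial.coeff_sub, Polynomial.coeff_X_pow, if_neg he.symm, zero_sub,
      Polynomial.coeff_C_zero, neg_mem_iff, Ideal.span_singleton_pow, Ideal.mem_span_singleton, sq]
    exact fun h => hπ.not_isUnit (hπ.squarefree π h))).irreducible hP hm.isPrimitive
      (hd.symm ▸ Nat.pos_of_ne_zero he)
  set f := Polynomial.X ^ e - Polynomial.C π with hf
  have := AdjoinRoot.isDomain_of_prime hi.prime
  have := hm.finite_adjoinRoot
  have hroot : AdjoinRoot.root f ^ e = AdjoinRoot.of f π := by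
    simpa [hf, sub_eq_zero] using AdjoinRoot.eval₂_root f
  have hinj : Function.Injective (AdjoinRoot.of f) :=
    AdjoinRoot.of.injective_of_degree_ne_zero (by
      rw [Polynomial.degree_eq_natDegree hm.ne_zero, hd]; exact_mod_cast he)
  have hgen : ∀ x, ∃ p : O[X], x = p.eval₂ (AdjoinRoot.of f) (AdjoinRoot.root f) := fun x => by
    obtain ⟨p, rfl⟩ := AdjoinRoot.mk_surjective x
    exact ⟨p, (AdjoinRoot.aeval_eq p).symm⟩
  have hlift : ∀ (S : Type) [CommRing S] (φ : O →+* S) (r : S), r ^ e = φ π →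
      ∃ φ' : AdjoinRoot f →+* S, (∀ a, φ' (AdjoinRoot.of f a) = φ a) ∧
        φ' (AdjoinRoot.root f) = r := fun S _ φ r h =>
    have h1 : f.eval₂ φ r = 0 := by simp [hf, h]
    ⟨AdjoinRoot.lift φ r h1, fun _ => AdjoinRoot.lift_of h1, AdjoinRoot.lift_root h1⟩
  have h1 : ¬IsUnit (AdjoinRoot.root f) := fun h => by
    obtain ⟨φ, -, h2⟩ := hlift _ (IsLocalRing.residue O) 0 (by
      rw [zero_pow he, eq_comm, IsLocalRing.residue_eq_zero_iff]; exact hπ.not_isUnit)
    exact not_isUnit_zero (h2 ▸ h.map φ)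
  have h2 : ∀ x, ¬IsUnit x → AdjoinRoot.root f ∣ x := fun x hx => by
    obtain ⟨M, hM, hxM⟩ := exists_max_ideal_of_mem_nonunits hx
    have h3 := IsLocalRing.eq_maximalIdeal
      (Ideal.isMaximal_comap_of_isIntegral_of_isMaximal (R := O) M)
    have h4 : AdjoinRoot.root f ∈ M := hM.isPrime.mem_of_pow_mem e (by
      rw [hroot]
      exact (h3.ge hπ.not_isUnit :))
    obtain ⟨p, rfl⟩ := hgen x
    rw [← p.X_mul_divX_add, Polynomial.eval₂_add, Polynomial.eval₂_mul, Polynomial.eval₂_X,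
      Polynomial.eval₂_C] at hxM ⊢
    have h5 : p.coeff 0 ∈ IsLocalRing.maximalIdeal O :=
      h3.le ((Ideal.add_mem_iff_right _ (M.mul_mem_right _ h4)).1 hxM)
    rw [hπ.maximalIdeal_eq, Ideal.mem_span_singleton] at h5
    exact dvd_add (dvd_mul_right _ _) ((hroot ▸ dvd_pow_self _ he).trans (map_dvd _ h5))
  have : IsLocalRing (AdjoinRoot f) := IsLocalRing.of_isUnit_or_isUnit_one_sub_self fun x => by
    by_contra h
    exact h1 (isUnit_of_dvd_one (by simpa using dvd_add (h2 _ (not_or.1 h).1) (h2 _ (not_or.1 h).2)))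
  have h3 : IsLocalRing.maximalIdeal (AdjoinRoot f) = Ideal.span {AdjoinRoot.root f} :=
    le_antisymm (fun x hx => Ideal.mem_span_singleton.2 (h2 x hx))
      ((Ideal.span_singleton_le_iff_mem _).2 h1)
  have : IsNoetherianRing (AdjoinRoot f) := isNoetherian_of_tower O inferInstance
  have : IsDiscreteValuationRing (AdjoinRoot f) :=
    ((IsDiscreteValuationRing.TFAE (AdjoinRoot f) fun h => hπ.ne_zero (hinj (by
      rw [IsLocalRing.isField_iff_maximalIdeal_eq, h3, Ideal.span_singleton_eq_bot] at h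
      rw [← hroot, h, zero_pow he, map_zero]))).out 0 4).2 (h3 ▸ ⟨_, rfl⟩ :
        (IsLocalRing.maximalIdeal (AdjoinRoot f)).IsPrincipal)
  exact ⟨AdjoinRoot f, inferInstance, inferInstance, this, _, _, he,
    (IsDiscreteValuationRing.irreducible_iff_uniformizer _).2 h3, hroot, hinj, hgen, hlift⟩

variable [CommRing O'] [IsDomain O'] [IsDiscreteValuationRing O'] [CommRing S] {i : O →+* O'}
  {ϖ : O'}

theorem Eis.loc (h : Eis π e i ϖ) (hπ : Irreducible π) : IsLocalHom i := by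
  refine ⟨fun a ha => by_contra fun h1 => h.irr.not_isUnit (isUnit_of_dvd_unit ?_ ha)⟩
  have h2 : a ∈ IsLocalRing.maximalIdeal O := h1
  rw [hπ.maximalIdeal_eq, Ideal.mem_span_singleton] at h2
  exact (h.root ▸ dvd_pow_self _ h.pos).trans (map_dvd i h2)

theorem Eis.int (h : Eis π e i ϖ) : i.IsIntegral := by
  let := i.toAlgebra
  intro x
  obtain ⟨p, rfl⟩ := h.gen x
  exact adjoin_le_integralClosure (R := O) ⟨_, Polynomial.monic_X_pow_sub_C π h.pos, by
    simpa [sub_eq_zero, RingHom.algebraMap_toAlgebra] using h.root⟩ (Polynomial.aeval_mem_adjoin_singleton O ϖ)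

/-- a nonzero element is a unit times a power of `ϖ` -/
theorem Eis.lift_inj [IsDomain S] (h : Eis π e i ϖ) (hπ : Irreducible π) {φ' : O' →+* S}
    (hφ : Function.Injective (φ'.comp i)) : Function.Injective φ' := by
  refine (injective_iff_map_eq_zero φ').2 fun x hx => by_contra fun h0 => hπ.ne_zero (hφ ?_)
  obtain ⟨n, u, rfl⟩ := IsDiscreteValuationRing.eq_unit_mul_pow_irreducible h0 h.irr
  rw [map_mul, map_pow, mul_eq_zero, or_iff_right (u.isUnit.map φ').ne_zero] at hx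
  rw [RingHom.comp_apply, ← h.root, map_pow, (pow_eq_zero_iff'.1 hx).1, zero_pow h.pos, map_zero]

theorem Eis.lift_loc (h : Eis π e i ϖ) {φ' : O' →+* S} (hφ : ¬IsUnit (φ' (i π))) :
    IsLocalHom φ' := by
  refine ⟨fun x hx => by_contra fun h1 => hφ ?_⟩
  have h2 : x ∈ IsLocalRing.maximalIdeal O' := h1
  rw [h.irr.maximalIdeal_eq, Ideal.mem_span_singleton] at h2
  rw [← h.root, map_pow]
  exact (isUnit_of_dvd_unit (map_dvd φ' h2) hx).pow e

end Pool.Agent.ZCy
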