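import Pool.Agent.Lib.MP_751085_ag.ZF.T.VDefs

/-! Subextensions: Galois theory. -/

namespace Pool.Agent.ZCy

open scoped Classical Polynomial

theorem tf_mem {B Ω : Type} [Field B] [Field Ω] [Algebra B Ω] [IsAlgClosure B Ω] (Z : Subfield Ω)
    (hZ : ∀ b, algebraMap B Ω b ∈ Z) {x : Ω} (hx : IsSeparable B x)
    (h : ∀ γ : Ω ≃ₐ[B] Ω, (∀ z ∈ Z, γ z = z) → γ x = x) : x ∈ Z := by
  let Z' := Z.toIntermediateField hZ
  have : Normal Z' Ω := Normal.tower_top_of_normal B Z' Ω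
  by_contra hn
  obtain ⟨y, hy, hc⟩ := (notMem_iff_exists_ne_and_isConjRoot (hx.tower_top Z')
    (Normal.splits inferInstance x)).1 fun hb => by
      obtain ⟨z, rfl⟩ := Algebra.mem_bot.1 hb
      exact hn z.2
  obtain ⟨σ, rfl⟩ := hc.symm.exists_algEquiv
  exact hy (h (σ.restrictScalars B) fun z hz => σ.commutes ⟨z, hz⟩).symm

section

variable {L F E E' : Type} [Field L] [Field F] [Field E] [Field E'] [Algebra L E'] [Algebra F E]
  [FiniteDimensional L E'] [IsGalois L E'] [FiniteDimensional F E] [IsGalois F E] (j : E →+* E')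

omit [FiniteDimensional L E'] [IsGalois L E'] [FiniteDimensional F E] [IsGalois F E] in
theorem tfsub_hom (h : ∀ a : L, ∃ y : F, j (algebraMap F E y) = algebraMap L E' a) :
    ∃ φ : L →+* F, ∀ a, j (algebraMap F E (φ a)) = algebraMap L E' a := by
  choose φ hφ using h
  have hi := (j.comp (algebraMap F E)).injective
  exact ⟨⟨⟨⟨φ, hi (by simp [hφ])⟩, fun a b => hi (by simp [hφ])⟩, hi (by simp [hφ]),
    fun a b => hi (by simp [hφ])⟩, hφ⟩

theorem tf_unr_sub (h : ∀ a : L, ∃ y : F, j (algebraMap F E y) = algebraMap L E' a) {u : Vl E}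
    (hu : ∀ u' : Vl E', Over j u u' → Ine L u' = ⊥) : Ine F u = ⊥ := by
  obtain ⟨φ, hφ⟩ := tfsub_hom j h
  let := φ.toAlgebra
  let := j.toAlgebra
  let := (j.comp (algebraMap F E)).toAlgebra
  have : IsScalarTower L F E' := .of_algebraMap_eq fun a => (hφ a).symm
  have : IsScalarTower F E E' := .of_algebraMap_eq fun a => rfl
  have : FiniteDimensional F E' := Module.Finite.of_restrictScalars_finite L F E'
  have : FiniteDimensional E E' := Module.Finite.of_restrictScalars_finite F E E'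
  have : IsGalois F E' := IsGalois.tower_top_of_isGalois L F E'
  obtain ⟨w, hw⟩ := exists_over (E := E') u
  have hj : Sq (K := F) (K' := F) (RingHom.id F) j := fun _ => rfl
  obtain ⟨r, hr⟩ := exists_rs hj
  refine (Subgroup.eq_bot_iff_forall _).2 fun g hg => ?_
  obtain ⟨g', hg', rfl⟩ := hr.ine_onto hj hw hg
  have h1 : g'.restrictScalars L ∈ Ine L w := hg'
  rw [hu w hw, Subgroup.mem_bot] at h1
  rw [show g' = 1 from AlgEquiv.ext fun x => DFunLike.congr_fun h1 x, map_one]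

theorem tf_arc_sub (h : ∀ a : L, ∃ y : F, j (algebraMap F E y) = algebraMap L E' a) {𝕃 : Type}
    [Field 𝕃] (j₀ : F →+* 𝕃) (J : E' →+* 𝕃)
    (hJ : ∀ (a : L) (y : F), j (algebraMap F E y) = algebraMap L E' a →
      J (algebraMap L E' a) = j₀ y) : Emb E j₀ := by
  obtain ⟨φ, hφ⟩ := tfsub_hom j h
  let := φ.toAlgebra
  obtain ⟨g, hg⟩ := exists_twist_sub (K := L) (j.comp (algebraMap F E)) hφ J j₀
    fun a => (hJ a _ (hφ a)).symm
  exact ⟨J.comp ((g : E' →+* E').comp j), fun a => (hg a).symm⟩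

end

theorem tfsub_pow {F E A : Type} [Field F] [Field E] [Algebra F E] [FiniteDimensional F E]
    [IsGalois F E] [Group A] (l : (E ≃ₐ[F] E) →* A) {m : ℕ} (h : ∀ g, l g ^ m = 1)
    (g : IntermediateField.fixedField l.ker ≃ₐ[F] IntermediateField.fixedField l.ker) :
    g ^ m = 1 := by
  obtain ⟨g, rfl⟩ := (IsGalois.normalAutEquivQuotient l.ker).surjective g
  obtain ⟨g, rfl⟩ := QuotientGroup.mk_surjective g
  have : ((g ^ m : E ≃ₐ[F] E) : (E ≃ₐ[F] E) ⧸ l.ker) = 1 :=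
    (QuotientGroup.eq_one_iff _).2 ((map_pow l g m).trans (h g))
  exact (map_pow _ _ m).symm.trans ((congrArg _ this).trans (map_one _))

theorem e1_field {B Ω A : Type} [Field B] [Field Ω] [Algebra B Ω] [IsAlgClosure B Ω]
    [AddCommGroup A] {θ₀ : Ω} {m : ℕ} {V : (Ω ≃ₐ[B] Ω) → A → Prop} (hV : IsChar θ₀ m V)
    (E₀ : IntermediateField B Ω) [FiniteDimensional B E₀] [IsGalois B E₀] (hθ : θ₀ ∈ E₀)
    (h1 : ∀ γ : Ω ≃ₐ[B] Ω, (∀ x ∈ E₀, γ x = x) → V γ 0) :
    ∃ (F E : Type) (_ : Field F) (_ : Field E) (_ : Algebra B F) (_ : Algebra F E) (_ : Algebra B E)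
      (_ : IsScalarTower B F E) (_ : FiniteDimensional F E) (_ : IsGalois F E) (_ : Algebra F E₀)
      (_ : IsScalarTower B F E₀) (θ : F) (i : E →ₐ[F] E₀), IntermediateField.adjoin B {θ} = ⊤ ∧
      (algebraMap F E₀ θ : Ω) = θ₀ ∧ (∀ g : E ≃ₐ[F] E, g ^ m = 1) ∧
      ∀ γ : Ω ≃ₐ[B] Ω, γ θ₀ = θ₀ → (V γ 0 ↔ ∀ x, γ (i x) = i x) := by
  obtain ⟨r, s, hr, hs⟩ : ∃ (r : (Ω ≃ₐ[B] Ω) →* (E₀ ≃ₐ[B] E₀)) (s : _ → _),
      (∀ γ (x : E₀), (r γ x : Ω) = γ x) ∧ ∀ g, r (s g) = g :=
    ⟨_, _, AlgEquiv.restrictNormalHom_apply E₀,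
      Function.surjInv_eq (AlgEquiv.restrictNormalHom_surjective Ω)⟩
  have tr : ∀ γ γ' q, r γ = r γ' → V γ q → V γ' q := fun γ γ' q e h => by
    have := hV.mul _ _ _ _ h (h1 (γ⁻¹ * γ') fun x hx => by
      rw [← hr _ ⟨x, hx⟩, map_mul, map_inv, e, inv_mul_cancel]; rfl)
    rwa [mul_inv_cancel_left, add_zero] at this
  obtain ⟨x, rfl⟩ : ∃ x : E₀, x = θ₀ := ⟨⟨θ₀, hθ⟩, rfl⟩
  let F := IntermediateField.adjoin B {x}
  have key : ∀ g : E₀ ≃ₐ[F] E₀, ∃ q, V (s (g.restrictScalars B)) q := fun g =>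
    hV.ex _ ((hr _ x).symm.trans (by
      rw [hs]
      exact congrArg Subtype.val (g.commutes (IntermediateField.AdjoinSimple.gen B x))))
  choose q hq using key
  let lam : (E₀ ≃ₐ[F] E₀) →* Multiplicative A :=
    MonoidHom.mk' (fun g => Multiplicative.ofAdd (q g)) fun g h => hV.uniq _ _ _ (hq _)
      (tr _ _ _ (by rw [map_mul, hs, hs, hs]; rfl) (hV.mul _ _ _ _ (hq g) (hq h)))
  refine ⟨F, IntermediateField.fixedField lam.ker, inferInstance, inferInstance, inferInstance,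
    inferInstance, inferInstance, inferInstance, inferInstance, inferInstance, inferInstance,
    inferInstance, IntermediateField.AdjoinSimple.gen B x, IntermediateField.val _, ?_, rfl,
    fun g => ?_, fun γ hγ => ?_⟩
  · apply IntermediateField.lift_injective
    rw [IntermediateField.lift_adjoin_simple, IntermediateField.lift_top]
    rfl
  · exact tfsub_pow lam (fun g => hV.tors _ _ (hq g)) g
  · let g : E₀ ≃ₐ[F] E₀ := { r γ with
      commutes' := fun a => (IntermediateField.forall_mem_adjoin_smul_eq_self_iff B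
        (S := {x}) (r γ)).2 (fun y hy => by
          rw [Set.mem_singleton_iff.1 hy]
          exact Subtype.ext ((hr γ x).trans hγ)) a.1 a.2 }
    have e : r (s (g.restrictScalars B)) = r γ := (hs _).trans (AlgEquiv.ext fun _ => rfl)
    have h2 : V γ 0 ↔ g ∈ lam.ker :=
      ⟨fun h => hV.uniq _ _ _ (hq g) (tr _ _ _ e.symm h), fun h => by
        have h' : q g = 0 := h
        exact tr _ _ _ e (h' ▸ hq g)⟩
    refine (h2.trans (SetLike.ext_iff.1 (IntermediateField.fixingSubgroup_fixedField lam.ker)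
      g).symm).trans ((IntermediateField.mem_fixingSubgroup_iff _ _).trans ?_)
    exact ⟨fun h y => (hr γ _).symm.trans (congrArg Subtype.val (h y y.2)),
      fun h y hy => Subtype.ext ((hr γ y).trans (h ⟨y, hy⟩))⟩

end Pool.Agent.ZCy
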