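import Pool.Agent.Lib.MP_751085_ag.ZF.T.Defs
import Pool.Agent.Lib.MP_751085_ag.ZF.L.Rep

/-! The value of a class at a point is the class of the specialised cocycle. -/

namespace Pool.Agent.ZCy.F

open scoped Classical Polynomial
open groupCohomology

/-- `chart_germ` for the expansion at `y`, then `lf_cls` -/
theorem t1_cls {k K σ F E L L₂ : Type} [Field k] [Field K] [Algebra k K] [Fintype σ]
    {X : Var k} (hE : EvApi X) {cl : BR X.F} (hcl : cl ∈ X.Bw) {c : Chart K σ X.N (X.IK K)}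
    [Field F] [Algebra (RF (Option σ) K) F] [Algebra k F] {θ : F} {γ : X.F →+* F} (hG : c.GI)
    (hF : X.Fld c F θ γ) [Field E] [Algebra (RF (Option σ) K) E] [Algebra F E]
    [IsScalarTower (RF (Option σ) K) F E] [FiniteDimensional F E] [IsGalois F E]
    {cc : (E ≃ₐ[F] E) × (E ≃ₐ[F] E) → Eˣ} (hcc : IsMulCocycle₂ cc) (he : cls F cc = rs γ cl)
    [Field L] [Algebra K L] [Algebra k L] [IsScalarTower k K L] [Field L₂] [Algebra L L₂]
    [FiniteDimensional L L₂] [IsGalois L L₂] {y : Option σ → L} {η : PS (Option σ) L}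
    (hη : c.χ.eval₂ (tay (algebraMap K L) y) η = 0)
    (hD : MvPolynomial.eval₂ (algebraMap K L) y c.D ≠ 0) {J : E →+* FP (Option σ) L₂}
    (h1 : ∀ Q, J (toE (MP (Option σ) K) E Q) = ps _ L₂
      (MvPowerSeries.map (algebraMap L L₂) (tay (algebraMap K L) y Q)))
    (h2 : J (algebraMap F E θ) = ps _ L₂ (MvPowerSeries.map (algebraMap L L₂) η))
    (h3 : ∀ p, J (cc p) ∈ (cC (Option σ) L₂).range) :
    ∃ (r : (L₂ ≃ₐ[L] L₂) → E ≃ₐ[F] E) (cb : (L₂ ≃ₐ[L] L₂) × (L₂ ≃ₐ[L] L₂) → L₂ˣ),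
      IsMulCocycle₂ cb ∧
      cls L cb = X.vl cl L (c.pv (algebraMap K L) y (MvPowerSeries.constantCoeff η)) ∧
      (∀ g h, r (g * h) = r g * r h) ∧
      (∀ (g : L₂ ≃ₐ[L] L₂) (Γ : FP (Option σ) L₂ →+* FP (Option σ) L₂),
        CoefL (g : L₂ →+* L₂) Γ → ∀ x, J (r g x) = Γ (J x)) ∧
      ∀ p, J (cc (r p.1, r p.2)) = cC (Option σ) L₂ (cb p) := by
  have hD' := (tay_cc (algebraMap K L) y c.D).trans_ne hD
  have h0 : c.χ.eval₂ (MvPowerSeries.constantCoeff.comp (tay (algebraMap K L) y))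
      (MvPowerSeries.constantCoeff η) = 0 := by rw [← Polynomial.hom_eval₂, hη, map_zero]
  obtain ⟨γ', η', g1, g2, g3, g4⟩ := hF.chart_germ hG (tay (algebraMap K L) y)
    (fun u => MvPolynomial.eval₂Hom_C _ _ u) (tay_inj _ _) hD' h0
  obtain rfl : η = η' := (c.toPChart.root_unique _ hD' h0).unique ⟨hη, rfl⟩
    ⟨IsFractionRing.injective _ (FP (Option σ) L) (by
      rw [Polynomial.hom_eval₂, ← g2, ← show γ'.comp (toE (MP (Option σ) K) F) =
        (algebraMap _ _).comp (tay (algebraMap K L) y) from RingHom.ext g1,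
        ← Polynomial.hom_eval₂, hF.ff.1, map_zero, map_zero]), g3⟩
  simp only [tay_cc, MvPolynomial.eval₂_X] at g4
  have k1 : ∀ T : FP (Option σ) L →+* FP (Option σ) L₂, CoefL (algebraMap L L₂) T →
      ∀ z, J (algebraMap F E z) = T (γ' z) := fun T hT =>
    RingHom.congr_fun (PChart.FF.ext hF.ff (γ := J.comp (algebraMap F E)) (γ' := T.comp γ')
      (fun p => ((congrArg J (IsScalarTower.algebraMap_apply (RF (Option σ) K) F E _).symm).trans
        (h1 p)).trans ((congrArg T (g1 p)).trans (hT _)).symm)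
      (h2.trans ((congrArg T g2).trans (hT _)).symm))
  obtain ⟨T, hT⟩ := exists_coefL (ι := Option σ) (algebraMap L L₂).injective
  choose Γ hΓ using fun g : L₂ ≃ₐ[L] L₂ => exists_coefL (ι := Option σ) (g : L₂ →+* L₂).injective
  have k2 : ∀ g, (Γ g).comp T = T := fun g => fp_ext fun u => by
    rw [RingHom.comp_apply, hT, hΓ]
    exact congrArg _ (MvPowerSeries.ext fun n => g.commutes _)
  have k3 : ∀ g, ∃ s : E ≃ₐ[F] E, ∀ x, J (s x) = Γ g (J x) := fun g => (exists_twist J ((Γ g).comp J)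
    fun a => by rw [RingHom.comp_apply, k1 T hT, ← RingHom.comp_apply (Γ g), k2]).imp
      fun _ h x => (h x).symm
  choose r hr using k3
  have k4 : ∀ (g : L₂ ≃ₐ[L] L₂) (Γ' : FP (Option σ) L₂ →+* FP (Option σ) L₂),
      CoefL (g : L₂ →+* L₂) Γ' → ∀ x, J (r g x) = Γ' (J x) := fun g Γ' h x => by
    rw [hr, fp_ext fun u => (hΓ g u).trans (h u).symm]
  have k5 : ∀ g h, r (g * h) = r g * r h := fun g h => AlgEquiv.ext fun z => J.injective (by
    rw [AlgEquiv.mul_apply, hr g, hr h]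
    exact k4 (g * h) ((Γ g).comp (Γ h)) (fun u => (congrArg (Γ g) (hΓ h u)).trans (hΓ g _)) z)
  choose b hb using h3
  have b0 : ∀ p, b p ≠ 0 := fun p u => (cc p).ne_zero (J.injective (by
    rw [← hb, u, map_zero, map_zero]))
  have hc : IsMulCocycle₂ fun p : (L₂ ≃ₐ[L] L₂) × (L₂ ≃ₐ[L] L₂) =>
      Units.mk0 _ (b0 (r p.1, r p.2)) := fun s t u => by
    refine Units.ext ((cC (Option σ) L₂).injective ?_)
    have e : ∀ z, cC (Option σ) L₂ (s z) = Γ s (cC (Option σ) L₂ z) := fun z => by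
      rw [RingHom.comp_apply, RingHom.comp_apply, hΓ, MvPowerSeries.map_C]
      rfl
    change cC _ _ (b _ * b _) = cC _ _ (s (b _) * b _)
    simp only [map_mul, e, hb, ← hr, k5]
    rw [← map_mul, ← map_mul]
    exact congrArg (fun z : Eˣ => J z) (hcc (r s) (r t) (r u))
  exact ⟨r, _, hc, rs_mvf_injective (Option σ) ((lf_cls hcc hc k1 k4 fun p => (hb _).symm).symm.trans
    ((congrArg (rs γ') he).trans ((lf_comp γ γ' cl).trans (hE.spec cl hcl L _ _ _ g4)))), k5, k4,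
    fun p => (hb _).symm⟩

end Pool.Agent.ZCy.F
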