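import Pool.Agent.Lib.MP_751085_ag.ZF.T.Defs
import Pool.Agent.Lib.MP_751085_ag.ZF.T.LexF

/-! Transfer of residue data to a local field. -/

namespace Pool.Agent.ZCy.F

open scoped Classical
open groupCohomology

variable {R L L₂ κ : Type} [CommRing R] [IsDomain R] [CDVR R] [Field L] [Algebra R L]
  [IsFractionRing R L] [Field κ] [IsAlgClosed κ] {s : ℕ} {ρ : R →+* κ} [Field L₂] [Algebra L L₂]
  [FiniteDimensional L L₂] [IsGalois L L₂] (X2 : LExt L ρ s L₂) {v₂ : Vl L₂}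

theorem t1_rd (hs : FinB κ s) (hρ : LRes ρ s) (hv₂ : IsVR (algebraMap X2.R L₂) v₂) {F E : Type}
    [Field F] [Field E] [Algebra F E] {v : Vl F} {w : Vl E} {a : BR F} (D : RDat v w a) {e : ℕ}
    (he : D.e = e * X2.e) {r : (L₂ ≃ₐ[L] L₂) → E ≃ₐ[F] E}
    {cb : (L₂ ≃ₐ[L] L₂) × (L₂ ≃ₐ[L] L₂) → L₂ˣ} (hcb : IsMulCocycle₂ cb)
    (hmul : ∀ g h, r (g * h) = r g * r h) (hdec : ∀ g, r g ∈ Dec F w)
    (hine : ∀ g ∈ Ine L v₂, r g ∈ Ine F w)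
    (hinj : ∀ p p', D.c (r p.1, r p.2) = D.c (r p'.1, r p'.2) → cb p = cb p')
    (hfix : ∀ p g, r g (D.c (r p.1, r p.2) : E) = D.c (r p.1, r p.2) → g (cb p : L₂) = cb p)
    (hord : ∀ p, v₂ (cb p) = w (D.c (r p.1, r p.2) : E)) {d : L₂ ≃ₐ[L] L₂}
    (hd : ∀ a a' : X2.R, algebraMap X2.R L₂ a' = d (algebraMap X2.R L₂ a) →
      X2.ρ a' = X2.ρ a ^ s) :
    LInv L ρ s (cls L cb) (e • ((D.lam (r d) : ℚ) : AddCircle (1 : ℚ))) := by
  obtain ⟨u, ρ', γ, hu, h1, h2, -⟩ := exists_linv_dataF (K := L) hs hρ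
  obtain ⟨π₁, hπ₁⟩ := IsDiscreteValuationRing.exists_irreducible X2.R
  obtain ⟨ρ₂, h3, h4⟩ := gau_red frc_alg hπ₁.prime (fac_of_wf hπ₁.prime) (hv₂.cen1 hπ₁).1
    (X2.res.ker.dvd hπ₁)
  let D₂ : RDat u v₂ (cls L cb) :=
    { e := X2.e
      c := cb
      lam := fun g => e * D.lam (r g)
      e_pos := Nat.cast_pos.2 X2.eposF
      idq := X2.idqF hu hv₂
      coc := hcb
      cls_eq := rfl
      infl := ⟨fun g _ h _ i hi i' hi' => hinj _ _ (by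
          rw [hmul, hmul]
          exact D.infl.eq _ (hdec g) _ (hdec h) _ (hine i hi) _ (hine i' hi')),
        fun g _ h _ i hi => Units.ext (hfix (g, h) i
          (congrArg Units.val (D.infl.fix _ (hdec g) _ (hdec h) _ (hine i hi))))⟩
      ord_eq := fun g _ h _ => by
        rw [ord_congr (hord (g, h)), D.ord_eq _ (hdec g) _ (hdec h), he, hmul]
        ring }
  have hc : Cmp (algebraMap L L₂) ρ' ρ₂ id := fun y z e => by
    obtain ⟨a, ha⟩ := (hu.2.2 y.1).1 y.2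
    rw [h4 _ z (e.trans (by rw [X2.tow, ha])), X2.cmp, id, h1 a y ha.symm]
  have hγ : Cmp d ρ₂ ρ₂ γ := fun y z e => by
    obtain ⟨a, ha⟩ := (hv₂.2.2 y.1).1 y.2
    obtain ⟨a', ha'⟩ := (hv₂.2.2 z.1).1 z.2
    rw [h4 a y ha.symm, h4 a' z ha'.symm, h2, hd a a' (by rw [ha, ha', e])]
  rw [← AddCircle.coe_nsmul, nsmul_eq_mul]
  exact ⟨u, ρ', γ, hu, h1, h2, D₂.resAt h3 hc (X2.decF hv₂ d) hγ⟩

end Pool.Agent.ZCy.F
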