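import Pool.Agent.Lib.MP_751085_ag.ZF.T.TJ
import Pool.Agent.Lib.MP_751085_ag.ZF.T.Gen
import Pool.Agent.Lib.MP_751085_ag.ZF.T.T1b
import Pool.Agent.Lib.MP_751085_ag.ZF.T.T1c
import Pool.Agent.Lib.MP_751085_ag.ZF.T.Rf1

/-! The residue along the special fibre computes the values at integral points. -/

namespace Pool.Agent.ZCy.F

open scoped Classical Polynomial

/-- the residue at the Frobenius of the point is the invariant of the value -/
theorem kx_t1 {k O K κ σ L : Type} [Field k] [CommRing O] [IsDomain O]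
    [CDVR O] [Field K] [Algebra O K] [IsFractionRing O K] [Algebra k K] [Field κ] [IsAlgClosed κ]
    [Fintype σ] {s : ℕ} {ρ : O →+* κ} (hs : FinB κ s) (hρ : LRes ρ s) {π : O}
    (hπ : Irreducible π) {X : Var k} (hE : EvApi X) {cl : BR X.F} (hcl : cl ∈ X.Bw)
    {GG : Set (Fm X.N O)} {c₀ : Chart O σ X.N GG} (A : X.KX K c₀) {Θ : MP (Option σ) O}
    (hb : Bez c₀.χ Θ) {n : ℕ} (hΘ : c₀.D ∣ Θ ^ n) (T : TRep K π Θ A.F (rs A.γ cl))
     [Field L] [Algebra K L] [Algebra k L]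
    [IsScalarTower k K L] [FiniteDimensional K L] (Y : LExt K ρ s L) {y : Option σ → Y.R} {z : Y.R}
    (h0 : ev (algebraMap O Y.R) y z c₀.χ = 0)
    (hu : IsUnit (MvPolynomial.eval₂ (algebraMap O Y.R) y Θ)) {φ : κ ≃+* κ}
    (hφ : ∀ x, φ x = x ^ s ^ Y.f) {Γ : FP (Option σ) κ ≃+* FP (Option σ) κ}
    (hΓ : CoefL (φ : κ →+* κ) Γ) :
    ∃ (v : Vl A.F) (ρv : v.integer →+* FP (Option σ) κ) (q : AddCircle (1 : ℚ)),
      Cen1 (gO O K (Option σ) A.F) v (MvPolynomial.C π) ∧ IsRed v ρv ∧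
      AtPt K ρ A.θ ρv (fun i => Y.ρ (y i)) (Y.ρ z) ∧ (∀ x, Γ (ρv x) = ρv x) ∧
      ResAt v ρv (rs A.γ cl) Γ q ∧ LInv L Y.ρ (s ^ Y.f) (X.vl cl L
        fun j => algebraMap Y.R L (c₀.pv (algebraMap O Y.R) y z j)) (Y.e • q) := by
  have : FiniteDimensional A.F T.E := Module.Finite.of_restrictScalars_finite (RF (Option σ) K) _ _
  have : IsGalois A.F T.E := IsGalois.tower_top_of_isGalois (RF (Option σ) K) _ _
  obtain ⟨L₂, _, _, _, _, X2, J, η, hJ, hη, rfl, hθ, hB⟩ :=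
    exists_tJF hs hπ A.map.p A.gi A.ff.ff hb T.cov T.unit Y h0 hu
  obtain ⟨π₁, hπ₁⟩ := IsDiscreteValuationRing.exists_irreducible Y.R
  obtain ⟨π₂, hπ₂⟩ := IsDiscreteValuationRing.exists_irreducible X2.R
  obtain ⟨u, ρu, hu1, hu2, hu3, hu4⟩ := exists_psv (ι := Option σ) hπ₂ X2.res.ker
  have e1 : X2.ρ.comp (algebraMap Y.R X2.R) = Y.ρ := RingHom.ext X2.cmp
  have e2 : X2.ρ.comp ((algebraMap Y.R X2.R).comp (algebraMap O Y.R)) = ρ :=
    RingHom.ext fun a => (X2.cmp _).trans (Y.cmp a)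
  have e3 : (algebraMap K L).comp (algebraMap O K) = (algebraMap Y.R L).comp (algebraMap O Y.R) :=
    RingHom.ext fun a => (Y.tow a).symm
  have e4 : (algebraMap X2.R L₂).comp (algebraMap Y.R X2.R) =
      (algebraMap L L₂).comp (algebraMap Y.R L) := RingHom.ext X2.tow
  obtain ⟨hw, ρw, hw1, hw2, hw3⟩ := psv_comap hπ hπ₂ X2.res.ker (e2.symm ▸ hρ.ker) hu1.1 hu2 hu3
    fun Q => (hJ Q).trans (congrArg _ (map_tay _ _ _ Q))
  have hD : IsUnit (MvPolynomial.eval₂ (algebraMap O Y.R) y c₀.D) := by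
    have h := map_dvd (MvPolynomial.eval₂Hom (algebraMap O Y.R) y) hΘ
    rw [map_pow] at h
    exact isUnit_of_dvd_unit h (hu.pow n)
  obtain ⟨v, hv, hv0, hvq⟩ := exists_cen1F hπ A.map.p A.ff.ff (fun h => hπ.not_isUnit (by
    have h' := isUnit_of_dvd_unit (map_dvd (MvPolynomial.eval₂Hom (algebraMap O Y.R) y) h) hD
    rw [MvPolynomial.eval₂Hom_C] at h'
    exact (Y.locF hρ).1 _ h')) hw
  have ho := hvq.isOver (Int.cast_pos.2 hv0)
  obtain ⟨ρv, hv1, hv2⟩ := ho.red hw1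
  have hw4 : ∀ a : (u.comap J).integer, ρu ⟨J a, a.2⟩ = ρw a := fun a => hw2 a ⟨J a, a.2⟩ rfl
  have hv3 : ∀ x : v.integer, ρw ⟨algebraMap A.F T.E x, (ho x).2 x.2⟩ = ρv x :=
    fun x => hv2 x ⟨algebraMap A.F T.E x, (ho x).2 x.2⟩ rfl
  obtain ⟨D, hDe, hDc⟩ := T.rdat hπ hw hv0 hvq
  have he : D.e = Y.e * X2.e := by
    rw [hDe, ord_congr (Valuation.comap_apply _ _ _), hJ, tay, MvPolynomial.eval₂Hom_C,
      RingHom.comp_apply, MvPowerSeries.map_C, tt1_ord hπ₂ hu1 (n := X2.e * Y.e)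
      (((Y.idx π π₁ hπ hπ₁).map _).trans (by
        rw [map_pow, pow_mul]
        exact (X2.idx π₁ π₂ hπ₁ hπ₂).pow_pow))]
    push_cast
    ring
  obtain ⟨B, hBc⟩ := exists_coefL (ι := Option σ) (IsFractionRing.injective X2.R L₂)
  have e5 : (tay (algebraMap K L) fun i => algebraMap Y.R L (y i)).comp
      (MvPolynomial.map (algebraMap O K)) =
      (MvPowerSeries.map (algebraMap Y.R L)).comp (tay (algebraMap O Y.R) y) :=
    RingHom.ext fun Q => by
      rw [RingHom.comp_apply, RingHom.comp_apply, tay_map, map_tay, e3]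
  obtain ⟨r, cb, hcb, hcl', hmul, hr, hc⟩ := t1_cls hE hcl A.gi A.ff D.coc D.cls_eq
    (y := fun i => algebraMap Y.R L (y i)) (η := MvPowerSeries.map (algebraMap Y.R L) η)
    (J := B.comp J)
    (by rw [A.map.p.χ, mq, Polynomial.coe_mapRingHom, Polynomial.eval₂_map, e5,
      ← Polynomial.hom_eval₂, hη, map_zero])
    (by
      rw [A.map.p.D, MvPolynomial.eval₂_map, e3]
      exact (MvPolynomial.eval₂_comp_left _ _ _ _).symm.trans_ne (hD.map _).ne_zero)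
    (DFunLike.congr_fun (tt1_ext (O := O) (f := (B.comp J).comp (toE _ T.E))
      (g := ((ps _ L₂).comp (MvPowerSeries.map (algebraMap L L₂))).comp (tay _ _)) fun Q =>
        ((congrArg B (hJ Q)).trans (hBc _)).trans (congrArg (ps _ L₂) (by
          rw [← RingHom.comp_apply (tay _ _), e5, RingHom.comp_apply, tpsv_map, tpsv_map, e4]))))
    (by rw [RingHom.comp_apply, hθ, hBc, tpsv_map, tpsv_map, e4])
    fun p => (hDc p).elim fun n hn => hB B hBc _ n hn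
  obtain ⟨v₂, hv₂⟩ := exists_tVR (O := X2.R) (K := L₂)
  obtain ⟨d, hd⟩ := X2.frobF (hs.pow Y.fpos) Y.res
  have hdec : ∀ g, r g ∈ Dec A.F (u.comap J) := fun g x => by
    obtain ⟨g₀, Γ₀, -, h2, h3⟩ := tt1_actF X2 J hBc g (r g) (hr g)
    exact (congrArg u (h3 x)).trans ((hu4 g₀ Γ₀ h2).1 _)
  have hcmp : ∀ (g) (φ' : κ →+* κ) (Φ : FP (Option σ) κ →+* FP (Option σ) κ), CoefL φ' Φ →
      (∀ a a', algebraMap X2.R L₂ a' = g (algebraMap X2.R L₂ a) → X2.ρ a' = φ' (X2.ρ a)) →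
      Cmp (r g) ρw ρw Φ := fun g φ' Φ h4 h5 => by
    obtain ⟨g₀, Γ₀, h1, h2, h3⟩ := tt1_actF X2 J hBc g (r g) (hr g)
    exact tt1_cmp hw2 ((hu4 g₀ Γ₀ h2).2 φ' Φ (fun a => h5 _ _ (h1 a)) h4) h3
  have hγ : Cmp (r d) ρw ρw Γ := hcmp d φ Γ hΓ fun a a' h => (hd a a' h).trans (hφ _).symm
  have eF : ∀ p, algebraMap A.F T.E (gO O K (Option σ) A.F p) = gO O K (Option σ) T.E p :=
    fun p => (IsScalarTower.algebraMap_apply (RF (Option σ) K) A.F T.E _).symm
  refine ⟨v, ρv, D.lam (r d), hv, hv1, ⟨fun Q x hx => ?_, MvPowerSeries.map Y.ρ η, rfl,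
    fun x hx => ?_⟩, fun x => ?_, D.resAt hw1 hv2 (hdec d) hγ, ?_⟩
  · have h := hw3 Q ⟨_, (ho x).2 x.2⟩ ((congrArg _ hx).trans (eF Q))
    rw [hv3, e2] at h
    simpa only [X2.cmp] using h
  · have h := hu3 _ ⟨J (algebraMap A.F T.E x), (ho x).2 x.2⟩
      ((congrArg (fun t => J (algebraMap A.F T.E t)) hx).trans hθ)
    exact ((hw4 ⟨_, (ho x).2 x.2⟩).trans (hv3 x)).symm.trans
      (h.trans (congrArg (fun f => ps _ κ (MvPowerSeries.map f η)) e1))
  · have h := hγ ⟨_, (ho x).2 x.2⟩ ⟨_, (ho x).2 x.2⟩ ((r d).commutes _).symm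
    rw [hv3] at h
    exact h.symm
  · have h := t1_rd X2 (hs.pow Y.fpos) Y.res hv₂ D he hcb hmul hdec
      (fun g hg => (mem_ine_iff hw1 (hdec g)).2 (hcmp g (RingHom.id _) (RingHom.id _)
        (fun _ => rfl) fun a a' h => X2.ineF hv₂ hg h))
      (fun p p' h => Units.ext ((cC (Option σ) L₂).injective ((hc p).symm.trans
        ((congrArg (fun t : T.Eˣ => B.comp J t) h).trans (hc p')))))
      (fun p g h => (cC (Option σ) L₂).injective (by
        obtain ⟨Γ', h3⟩ := exists_coefL (ι := Option σ) (f := (g : L₂ →+* L₂)) g.injective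
        have e : Γ' (cC (Option σ) L₂ (cb p)) = cC (Option σ) L₂ (g (cb p)) :=
          (h3 _).trans (congrArg (ps _ L₂) (MvPowerSeries.map_C _ _))
        exact e.symm.trans ((congrArg Γ' (hc p).symm).trans ((hr g Γ' h3 _).symm.trans
          ((congrArg (B.comp J) h).trans (hc p))))))
      (fun p => (psv_const hπ₂ hu1 hv₂ hBc (hc p)).symm) hd
    have e6 : cls L cb = X.vl cl L fun j => algebraMap Y.R L
        (c₀.pv (algebraMap O Y.R) y (MvPowerSeries.constantCoeff η) j) :=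
      hcl'.trans (congrArg (X.vl cl L) ((A.map.pv _ _ _).trans (funext fun j => by
        rw [e3]
        exact (map_ev (algebraMap Y.R L) (algebraMap O Y.R) y _ (c₀.pp j)).symm)))
    exact e6 ▸ h

end Pool.Agent.ZCy.F
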