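import Pool.Agent.Lib.MP_751085_ag.ZF.T.LexF
import Pool.Agent.Lib.MP_751085_ag.ZF.T.Abh
import Pool.Agent.Lib.MP_751085_ag.ZF.T.Tz

/-! The embedding of a tame cover into fractions of power series at an integral point. -/

namespace Pool.Agent.ZCy

open scoped Classical Polynomial

variable {O K κ σ F L E : Type} [CommRing O] [IsDomain O] [CDVR O] [Field K]
  [Algebra O K] [IsFractionRing O K] [Field κ] [IsAlgClosed κ] [Fintype σ] [Field F]
  [Algebra (RF (Option σ) K) F] [Field L] [Algebra K L] {s : ℕ}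
  {ρ : O →+* κ} {π : O} {c₀ : PChart O σ} {c : PChart K σ} {θ : F} [Field E]
  [Algebra (RF (Option σ) K) E] [Algebra F E] [IsScalarTower (RF (Option σ) K) F E]
  [FiniteDimensional (RF (Option σ) K) E] [IsGalois (RF (Option σ) K) E]

theorem exists_tJF (hs : FinB κ s) (hπ : Irreducible π)
    (hc : c₀.IsMap (algebraMap O K) c) (hG : c.GI) (hF : c.FF F θ) {Θ : MP (Option σ) O}
    (hb : Bez c₀.χ Θ) {e m : ℕ} {ϖ : Eˣ} (T : TCov K π Θ E e ϖ) (hm : IsUnit ((m * e : ℕ) : O))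
    (Y : LExt K ρ s L) {y : Option σ → Y.R} {z : Y.R} (h0 : ev (algebraMap O Y.R) y z c₀.χ = 0)
    (hu : IsUnit (MvPolynomial.eval₂ (algebraMap O Y.R) y Θ)) :
    ∃ (L₂ : Type) (_ : Field L₂) (_ : Algebra L L₂) (_ : FiniteDimensional L L₂) (_ : IsGalois L L₂)
      (X2 : LExt L Y.ρ (s ^ Y.f) L₂) (J : E →+* FP (Option σ) X2.R) (η : PS (Option σ) Y.R),
      (∀ Q, J (gO O K (Option σ) E Q) = ps _ X2.R
        (MvPowerSeries.map (algebraMap Y.R X2.R) (tay (algebraMap O Y.R) y Q))) ∧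
      c₀.χ.eval₂ (tay (algebraMap O Y.R) y) η = 0 ∧ MvPowerSeries.constantCoeff η = z ∧
      J (algebraMap F E θ) = ps _ X2.R (MvPowerSeries.map (algebraMap Y.R X2.R) η) ∧
      ∀ B : FP (Option σ) X2.R →+* FP (Option σ) L₂, CoefL (algebraMap X2.R L₂) B →
        ∀ (x : Eˣ) (n : ℤ), (x / ϖ ^ n) ^ (m * e) = 1 →
          B (J x) ∈ (cC (Option σ) L₂).range := by
  obtain ⟨L', _, _, _, _, R', _, _, f, ι', J₀, hι, hf, hfin, hJ₀⟩ := tzF (L := L) hπ T Y.injF y hu
  let := f.toAlgebra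
  have : Module.Finite Y.R R' := hfin
  have hN : 0 < m * e := Nat.pos_of_ne_zero fun h => by simp [h] at hm
  let p : L[X] := (Polynomial.X ^ e - Polynomial.C (algebraMap Y.R L (algebraMap O Y.R π))) *
    (Polynomial.X ^ (m * e) - Polynomial.C 1)
  have hp : p ≠ 0 := mul_ne_zero (Polynomial.X_pow_sub_C_ne_zero (Nat.pos_of_mul_pos_left hN) _)
    (Polynomial.X_pow_sub_C_ne_zero hN _)
  obtain ⟨L₂, _, _, _, _, i, hp'⟩ := exists_gal_split L L' (e := e) (m := m)
    (π := algebraMap Y.R L (algebraMap O Y.R π))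
    ((map_ne_zero_iff _ (IsFractionRing.injective Y.R L)).2
      ((map_ne_zero_iff _ Y.injF).2 hπ.ne_zero))
    (map_natCast ((algebraMap Y.R L).comp (algebraMap O Y.R)) _ ▸ (hm.map _).ne_zero)
  let j : R' →+* L₂ := (i : L' →+* L₂).comp ι'
  have hi : Function.Injective j := i.injective.comp hι
  have hj : ∀ a, j (algebraMap Y.R R' a) = algebraMap L L₂ (algebraMap Y.R L a) := fun a =>
    (congrArg i (hf a)).trans (i.commutes _)
  obtain ⟨X2⟩ := exists_lextF (K := L) (hs.pow Y.fpos) Y.res L₂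
  obtain ⟨j₁, h₁⟩ := X2.liftF j hj
  obtain ⟨Γ, hΓ⟩ := exists_coefL (ι := Option σ) (f := j₁) fun a b e => hi (by rw [← h₁, e, h₁])
  have h₂ : j₁.comp f = algebraMap Y.R X2.R := RingHom.ext fun a =>
    IsFractionRing.injective X2.R L₂ ((h₁ _).trans ((hj a).trans (X2.tow a).symm))
  have hJ : ∀ Q, Γ.comp J₀ (gO O K (Option σ) E Q) = ps _ X2.R
      (MvPowerSeries.map (algebraMap Y.R X2.R) (tay (algebraMap O Y.R) y Q)) := fun Q => by
    rw [RingHom.comp_apply, hJ₀, hΓ, MvPowerSeries.map_map, h₂]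
  have hcc : MvPowerSeries.constantCoeff.comp (tay (algebraMap O Y.R) y) =
    MvPolynomial.eval₂Hom (algebraMap O Y.R) y := RingHom.ext (cc_tay _ y)
  obtain ⟨η, ⟨h3, h4⟩, -⟩ := lv_hensel (c₀.χ.map (tay (algebraMap O Y.R) y)) (c₀.monic.map _) z
    (by rw [Polynomial.eval₂_map, hcc]; exact h0) (by
      rw [Polynomial.derivative_map, Polynomial.eval₂_map, hcc]
      exact hb.unit _ h0 hu)
  rw [Polynomial.eval_map] at h3
  obtain ⟨γ, h5, h6⟩ := hF.lift hG ((Γ.comp J₀).injective.comp (toE_inj E))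
    (ψ := (Γ.comp J₀).comp (toE _ E))
    (η := ps _ X2.R (MvPowerSeries.map (algebraMap Y.R X2.R) η)) (by
      have := congrArg ((ps _ X2.R).comp (MvPowerSeries.map (algebraMap Y.R X2.R))) h3
      rw [Polynomial.hom_eval₂, map_zero] at this
      rw [hc.χ, Polynomial.coe_mapRingHom, Polynomial.eval₂_map, ← this]
      exact congrArg (c₀.χ.eval₂ · _) (RingHom.ext hJ))
  obtain ⟨g, hg⟩ := exists_twist_sub (K := RF (Option σ) K) (algebraMap F E)
    (fun a => (IsScalarTower.algebraMap_apply _ _ _ a).symm) (Γ.comp J₀) γ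
    (RingHom.congr_fun (f := γ.comp _) (g := (Γ.comp J₀).comp _)
      (IsLocalization.ringHom_ext (nonZeroDivisors (MP (Option σ) K)) (RingHom.ext h5)))
  have hJ' : ∀ Q, (Γ.comp J₀).comp (g : E →+* E) (gO O K (Option σ) E Q) = _ := fun Q =>
    (congrArg (Γ.comp J₀) (g.commutes _)).trans (hJ Q)
  refine ⟨L₂, _, _, ‹_›, ‹_›, X2, _, η, hJ', h3, h4, (hg θ).symm.trans h6, fun B hB x n hx => ?_⟩
  set J := (Γ.comp J₀).comp (g : E →+* E)
  have hr : ∀ w : E, w ^ e = gO O K (Option σ) E (MvPolynomial.C π) ∨ w ^ (m * e) = 1 →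
      B.comp J w ∈ (cC (Option σ) L₂).range := fun w hw => by
    refine root_mem_range _ (Polynomial.map_ne_zero hp) hp' ?_
    simp only [p, Polynomial.eval₂_map, Polynomial.eval₂_mul, Polynomial.eval₂_sub,
      Polynomial.eval₂_X_pow, Polynomial.eval₂_C, ← map_pow, mul_eq_zero, sub_eq_zero]
    refine hw.imp (fun e => ?_) fun e => by rw [e, map_one, map_one]
    rw [e, RingHom.comp_apply, hJ', hB]
    simp [tay, X2.tow]
  obtain ⟨u, hu⟩ := hr (x / ϖ ^ n : Eˣ) (.inr (by simpa using congrArg Units.val hx))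
  obtain ⟨w, hw⟩ := hr ϖ (.inl T.root)
  refine ⟨u * w ^ n, ?_⟩
  rw [map_mul, map_zpow₀, hu, hw, ← map_zpow₀, ← map_mul]
  simp [zpow_ne_zero]

end Pool.Agent.ZCy
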